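import Pool.Agent.TH337.VF.Baire

/-!
Upper semicontinuity of the density and passage to plane fields.
-/

namespace Pool.Agent.TH337.VF

open MeasureTheory Set Filter Topology Metric
open scoped ENNReal RealInnerProductSpace

variable {N : ℕ}

lemma density_lt_top {m : ℕ} {U : Set (E N)} {μ : Measure (E N)} {P : E N → E N →L[ℝ] E N}
    (hS : Stat m U μ P) (hU : IsOpen U) {x : E N} (hx : x ∈ U) : density m μ x ≠ ⊤ := by
  obtain ⟨R₀, hR₀, hRU⟩ := Metric.isOpen_iff.1 hU x hx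
  have hR : 0 < R₀ / 2 := by positivity
  have hc : closedBall x (R₀ / 2) ⊆ U := (closedBall_subset_ball (by linarith)).trans hRU
  have h1 := density_le hS hc hR
  intro hcon
  rw [hcon, ENNReal.top_mul (mul_ne_zero (omega_pos m)
    (pow_ne_zero _ (ENNReal.ofReal_pos.2 hR).ne')), top_le_iff] at h1
  exact ((measure_mono ball_subset_closedBall).trans_lt
    (hS.fin _ hc (isCompact_closedBall x _))).ne h1

/-- near `x₀` the density is less than `Θ(x₀) + 1` -/
lemma density_usc {m : ℕ} {U : Set (E N)} {μ : Measure (E N)} {P : E N → E N →L[ℝ] E N}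
    (hS : Stat m U μ P) (hU : IsOpen U) {x₀ : E N} (hx₀ : x₀ ∈ U) :
    ∃ δ : ℝ, 0 < δ ∧ ball x₀ δ ⊆ U ∧ ∀ x ∈ ball x₀ δ, density m μ x < density m μ x₀ + 1 := by
  set Q := density m μ x₀ with hQ
  have hQt : Q ≠ ⊤ := density_lt_top hS hU hx₀
  set ω := volume (ball (0 : EuclideanSpace ℝ (Fin m)) 1) with hω
  have hω0 : ω ≠ 0 := omega_pos m
  have hω1 : ω ≠ ⊤ := omega_lt m
  obtain ⟨R₀, hR₀, hRU⟩ := Metric.isOpen_iff.1 hU x₀ hx₀
  have h1 : Q < Q + 1 / 2 := ENNReal.lt_add_right hQt (by norm_num)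
  have h2 : ∀ᶠ r : ℝ in 𝓝[>] 0, μ (ball x₀ r) / (ω * ENNReal.ofReal r ^ m) < Q + 1 / 2 :=
    eventually_lt_of_limsup_lt h1
  obtain ⟨R, hR1, hR2⟩ := (h2.and (Ioo_mem_nhdsGT hR₀)).exists
  have hR0 : 0 < R := hR2.1
  have hcU : closedBall x₀ R ⊆ U := (closedBall_subset_ball hR2.2).trans hRU
  have hR' : ENNReal.ofReal R ≠ 0 := (ENNReal.ofReal_pos.2 hR0).ne'
  have hωR : ω * ENNReal.ofReal R ^ m ≠ 0 := mul_ne_zero hω0 (pow_ne_zero _ hR')
  have hωR' : ω * ENNReal.ofReal R ^ m ≠ ⊤ :=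
    ENNReal.mul_ne_top hω1 (ENNReal.pow_ne_top ENNReal.ofReal_ne_top)
  have h3 : μ (ball x₀ R) < (Q + 1 / 2) * (ω * ENNReal.ofReal R ^ m) :=
    (ENNReal.div_lt_iff (Or.inl hωR) (Or.inl hωR')).1 hR1
  -- choose δ
  have h4 : Tendsto (fun δ : ℝ => (Q + 1) * (ω * ENNReal.ofReal ((R - δ) ^ m))) (𝓝[>] 0)
      (𝓝 ((Q + 1) * (ω * ENNReal.ofReal ((R - 0) ^ m)))) := by
    apply ENNReal.Tendsto.const_mul _ (Or.inr (ENNReal.add_ne_top.2 ⟨hQt, ENNReal.one_ne_top⟩))
    apply ENNReal.Tendsto.const_mul _ (Or.inr hω1)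
    apply ENNReal.tendsto_ofReal
    apply tendsto_nhdsWithin_of_tendsto_nhds
    have : Continuous fun δ : ℝ => (R - δ) ^ m := by fun_prop
    exact this.tendsto 0
  rw [sub_zero, ENNReal.ofReal_pow hR0.le] at h4
  have h5 : μ (ball x₀ R) < (Q + 1) * (ω * ENNReal.ofReal R ^ m) := by
    refine h3.trans_le (mul_le_mul_left (add_le_add le_rfl ?_) _)
    norm_num
  obtain ⟨δ, hδ1, hδ2⟩ := ((h4.eventually (lt_mem_nhds h5)).and (Ioo_mem_nhdsGT hR0)).exists
  have hRδ : 0 < R - δ := by linarith [hδ2.2]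
  refine ⟨δ, hδ2.1, ?_, ?_⟩
  · exact ((ball_subset_ball hδ2.2.le).trans ball_subset_closedBall).trans hcU
  · intro x hx
    rw [mem_ball] at hx
    have hsub : closedBall x (R - δ) ⊆ closedBall x₀ R := by
      apply closedBall_subset_closedBall'
      linarith
    have h6 := density_le hS (hsub.trans hcU) hRδ
    have h7 : μ (ball x (R - δ)) ≤ μ (ball x₀ R) := by
      apply measure_mono
      apply ball_subset_ball'
      linarith
    have h8 := (h6.trans h7).trans_lt hδ1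
    rw [ENNReal.ofReal_pow hRδ.le] at h8
    by_contra hcon
    rw [not_lt] at hcon
    exact absurd h8 (not_lt.2 (mul_le_mul_left hcon _))

/-- the trace of an orthogonal projection -/
lemma trc_starProjection (T : Submodule ℝ (E N)) :
    trc T.starProjection = Module.finrank ℝ T := by
  unfold trc
  apply LinearMap.IsProj.trace
  exact ⟨fun x => Submodule.starProjection_apply_mem T x,
    fun x hx => Submodule.starProjection_eq_self_iff.2 hx⟩

end Pool.Agent.TH337.VF
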