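import Pool.Agent.TH337.VF.Main

/-!
The Baire category argument.
-/

namespace Pool.Agent.TH337.VF

open MeasureTheory Set Filter Topology Metric
open scoped ENNReal RealInnerProductSpace

variable {N : ℕ}

/-- points at which the part in `S` has small mass at all scales below `1/(k+1)` -/
def GG (m : ℕ) (μ : Measure (E N)) (S : Set (E N)) (θ : ℝ≥0∞) (i : ℕ × ℚ) : Set (E N) :=
  {z | ((Real.toNNReal i.2 : NNReal) : ℝ≥0∞) < θ ∧ ∀ r : ℝ, 0 < r → r < 1 / ((i.1:ℝ) + 1) →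
    μ (ball z r ∩ S) ≤ ((Real.toNNReal i.2 : NNReal) : ℝ≥0∞) *
      (volume (ball (0 : EuclideanSpace ℝ (Fin m)) 1) * ENNReal.ofReal r ^ m)}

lemma isClosed_GG (m : ℕ) (μ : Measure (E N)) (S : Set (E N)) (θ : ℝ≥0∞) (i : ℕ × ℚ) :
    IsClosed (GG m μ S θ i) := by
  by_cases h : ((Real.toNNReal i.2 : NNReal) : ℝ≥0∞) < θ
  · have : GG m μ S θ i = ⋂ (r : ℝ) (_ : 0 < r) (_ : r < 1 / ((i.1:ℝ) + 1)),
        {z | (μ.restrict S) (ball z r) ≤ ((Real.toNNReal i.2 : NNReal) : ℝ≥0∞) *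
      (volume (ball (0 : EuclideanSpace ℝ (Fin m)) 1) * ENNReal.ofReal r ^ m)} := by
      ext z
      simp only [GG, h, true_and, mem_iInter, Measure.restrict_apply measurableSet_ball]
      rfl
    rw [this]
    exact isClosed_iInter fun r => isClosed_iInter fun _ => isClosed_iInter fun _ =>
      isClosed_ball_le _ r _
  · have : GG m μ S θ i = ∅ := by
      rw [eq_empty_iff_forall_notMem]
      intro z hz
      exact h hz.1
    rw [this]
    exact isClosed_empty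

lemma mem_GG {m : ℕ} {μ : Measure (E N)} {S : Set (E N)} {θ : ℝ≥0∞} {z : E N}
    (h : upperDens m μ S z < θ) : ∃ i, z ∈ GG m μ S θ i := by
  obtain ⟨c, hc0, hc1, hc2⟩ := ENNReal.lt_iff_exists_rat_btwn.1 h
  have h1 : ∀ᶠ r : ℝ in 𝓝[>] 0, μ (ball z r ∩ S) /
      (volume (ball (0 : EuclideanSpace ℝ (Fin m)) 1) * ENNReal.ofReal r ^ m) <
      ((Real.toNNReal c : NNReal) : ℝ≥0∞) := eventually_lt_of_limsup_lt hc1
  obtain ⟨b, hb, hb'⟩ := mem_nhdsGT_iff_exists_Ioo_subset.1 h1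
  obtain ⟨k, hk⟩ := exists_nat_one_div_lt (show (0:ℝ) < b from hb)
  refine ⟨(k, c), hc2, ?_⟩
  intro r hr hrk
  have h2 : μ (ball z r ∩ S) /
      (volume (ball (0 : EuclideanSpace ℝ (Fin m)) 1) * ENNReal.ofReal r ^ m) <
      ((Real.toNNReal c : NNReal) : ℝ≥0∞) := hb' ⟨hr, hrk.trans hk⟩
  have hr' : ENNReal.ofReal r ≠ 0 := (ENNReal.ofReal_pos.2 hr).ne'
  exact (ENNReal.div_le_iff (mul_ne_zero (omega_pos m) (pow_ne_zero _ hr'))
    (ENNReal.mul_ne_top (omega_lt m) (ENNReal.pow_ne_top ENNReal.ofReal_ne_top))).1 h2.le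

/-- the abstract interface theorem -/
theorem interface_empty {m : ℕ} (hm : 1 ≤ m) {U : Set (E N)} (hU : IsOpen U) {μ : Measure (E N)}
    {P : E N → E N →L[ℝ] E N} (hS : Stat m U μ P) {S : Set (E N)}
    {q q' : ℝ≥0∞} (hq : q ≠ ⊤) (hq' : q' ≠ ⊤)
    (hqS : ∀ᵐ x ∂(μ.restrict U), x ∈ S → q ≤ density m μ x)
    (hqS' : ∀ᵐ x ∂(μ.restrict U), x ∈ Sᶜ → q' ≤ density m μ x)
    (hlt : ∀ x ∈ U, density m μ x < q + q')
    (C : ℕ → Set (E N)) (hC : ∀ n, IsClosed (C n))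
    (hC0 : ∀ n, μH[((m - 1 : ℕ):ℝ)] (C n) = 0)
    (hz : ∀ z ∈ ifc U μ S, (∀ n, z ∉ C n) →
      upperDens m μ S z < (1 / 2) ^ m * q ∨ upperDens m μ Sᶜ z < (1 / 2) ^ m * q') :
    ifc U μ S = ∅ := by
  classical
  by_contra hne
  -- there is an interface point outside the exceptional set
  have hne2 : ∃ z₁ ∈ ifc U μ S, ∀ n, z₁ ∉ C n := by
    by_contra hcon
    push Not at hcon
    apply hne
    apply null_ifc hm hS hU le_rfl hq hq' hqS hqS' hlt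
    apply measure_mono_null (t := ⋃ n, C n)
    · intro z hz
      obtain ⟨n, hn⟩ := hcon z hz
      exact mem_iUnion.2 ⟨n, hn⟩
    · rw [measure_iUnion_null_iff]
      exact hC0
  obtain ⟨z₁, hz₁, hz₁C⟩ := hne2
  obtain ⟨R₀, hR₀, hRU⟩ := Metric.isOpen_iff.1 hU z₁ hz₁.1
  set R := R₀ / 2 with hR
  have hR0 : 0 < R := by positivity
  have hcU : closedBall z₁ R ⊆ U := (closedBall_subset_ball (by linarith)).trans hRU
  set J : Set (E N) := {z | z ∈ ifc U μ S ∧ (∀ n, z ∉ C n)} ∩ ball z₁ R with hJ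
  set F : Set (E N) := closure J with hF
  have hFb : F ⊆ closedBall z₁ R :=
    closure_minimal (inter_subset_right.trans ball_subset_closedBall) isClosed_closedBall
  have hFn : F ⊆ (nn μ S ∪ nn μ Sᶜ)ᶜ :=
    closure_minimal (fun z hz => hz.1.1.2) ((isOpen_nn μ S).union (isOpen_nn μ Sᶜ)).isClosed_compl
  have hFI : F ⊆ ifc U μ S := fun z hz => ⟨hcU (hFb hz), hFn hz⟩
  have hFc : IsCompact F := (isCompact_closedBall z₁ R).of_isClosed_subset isClosed_closure hFb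
  have hz₁J : z₁ ∈ J := ⟨⟨hz₁, hz₁C⟩, mem_ball_self hR0⟩
  have : CompactSpace F := isCompact_iff_compactSpace.1 hFc
  have : Nonempty F := ⟨⟨z₁, subset_closure hz₁J⟩⟩
  set θ := (1 / 2) ^ m * q with hθ
  set θ' := (1 / 2) ^ m * q' with hθ'
  let f : (ℕ ⊕ ((ℕ × ℚ) ⊕ (ℕ × ℚ))) → Set (E N) := fun i => match i with
    | Sum.inl n => C n
    | Sum.inr (Sum.inl i) => GG m μ S θ i
    | Sum.inr (Sum.inr i) => GG m μ Sᶜ θ' i
  have hfc : ∀ i, IsClosed (f i) := by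
    rintro (n | i | i)
    · exact hC n
    · exact isClosed_GG m μ S θ i
    · exact isClosed_GG m μ Sᶜ θ' i
  have hfU : ⋃ i, (Subtype.val ⁻¹' (f i) : Set F) = univ := by
    rw [eq_univ_iff_forall]
    intro z
    rw [mem_iUnion]
    by_cases hzC : ∀ n, (z : E N) ∉ C n
    · rcases hz z.1 (hFI z.2) hzC with h | h
      · obtain ⟨i, hi⟩ := mem_GG h
        exact ⟨Sum.inr (Sum.inl i), hi⟩
      · obtain ⟨i, hi⟩ := mem_GG h
        exact ⟨Sum.inr (Sum.inr i), hi⟩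
    · push Not at hzC
      obtain ⟨n, hn⟩ := hzC
      exact ⟨Sum.inl n, hn⟩
  obtain ⟨i, hi⟩ := nonempty_interior_of_iUnion_of_closed
    (fun i => (hfc i).preimage continuous_subtype_val) hfU
  obtain ⟨w, hw⟩ := hi
  rw [mem_interior] at hw
  obtain ⟨V, hVf, hVo, hwV⟩ := hw
  obtain ⟨O₁, hO₁, rfl⟩ := isOpen_induced_iff.1 hVo
  have hO₁f : ∀ z ∈ F, z ∈ O₁ → z ∈ f i := fun z hz hzO => hVf (a := ⟨z, hz⟩) hzO
  -- a point of J in O₁
  have hwF : (w : E N) ∈ closure J := w.2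
  obtain ⟨p, hpO, hpJ⟩ := mem_closure_iff.1 hwF O₁ hO₁ hwV
  have hpF : p ∈ F := subset_closure hpJ
  have hpf : p ∈ f i := hO₁f p hpF hpO
  set O₂ : Set (E N) := O₁ ∩ ball z₁ R with hO₂
  have hO₂o : IsOpen O₂ := hO₁.inter isOpen_ball
  have hO₂U : O₂ ⊆ U := inter_subset_right.trans (ball_subset_closedBall.trans hcU)
  have hpI : p ∈ ifc O₂ μ S := ⟨⟨hpO, hpJ.2⟩, hpJ.1.1.2⟩
  -- outside F there is no interface in O₂
  have hO₃ : ifc (O₂ \ F) μ S = ∅ := by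
    apply null_ifc hm hS (hO₂o.sdiff isClosed_closure) (sdiff_subset.trans hO₂U) hq hq' hqS hqS' hlt
    apply measure_mono_null (t := ⋃ n, C n)
    · intro z hz
      by_contra hcon
      rw [mem_iUnion, not_exists] at hcon
      exact hz.1.2 (subset_closure ⟨⟨⟨hO₂U hz.1.1, hz.2⟩, hcon⟩, hz.1.1.2⟩)
    · rw [measure_iUnion_null_iff]
      exact hC0
  have hall : ∀ z ∈ ifc O₂ μ S, z ∈ f i := by
    intro z hz
    by_cases hzF : z ∈ F
    · exact hO₁f z hzF hz.1.1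
    · have : z ∈ ifc (O₂ \ F) μ S := ⟨⟨hz.1, hzF⟩, hz.2⟩
      rw [hO₃] at this
      exact absurd this (notMem_empty _)
  have hhalf : ∀ (c : NNReal) (q : ℝ≥0∞), (c : ℝ≥0∞) < (1 / 2) ^ m * q → (c : ℝ≥0∞) * 2 ^ m < q := by
    intro c q h
    have h2 : (2:ℝ≥0∞) ^ m ≠ 0 := pow_ne_zero _ (by norm_num)
    have h3 : (2:ℝ≥0∞) ^ m ≠ ⊤ := ENNReal.pow_ne_top (by norm_num)
    have h4 : (1 / 2 : ℝ≥0∞) ^ m * q * 2 ^ m = q := by
      have h5 : (1 / 2 : ℝ≥0∞) ^ m * 2 ^ m = 1 := by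
        rw [← mul_pow]
        have : (1 / 2 : ℝ≥0∞) * 2 = 1 := ENNReal.div_mul_cancel (by norm_num) (by norm_num)
        rw [this, one_pow]
      calc (1 / 2 : ℝ≥0∞) ^ m * q * 2 ^ m = ((1 / 2 : ℝ≥0∞) ^ m * 2 ^ m) * q := by ring
        _ = q := by rw [h5, one_mul]
    calc (c : ℝ≥0∞) * 2 ^ m < (1 / 2 : ℝ≥0∞) ^ m * q * 2 ^ m :=
          ENNReal.mul_lt_mul_left h2 h3 h
      _ = q := h4
  rcases i with n | ⟨k, c⟩ | ⟨k, c⟩
  · exact hpJ.1.2 n hpf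
  · have he : ifc O₂ μ S = ∅ := by
      apply uniform hm hS hO₂o hO₂U hq hqS (c := ((Real.toNNReal c : NNReal) : ℝ≥0∞))
        (r₀ := 1 / ((k:ℝ) + 1)) (hhalf _ _ hpf.1) (by positivity)
      intro z hz r hr hrk
      exact (hall z hz).2 r hr hrk
    rw [he] at hpI
    exact hpI
  · have he : ifc O₂ μ Sᶜ = ∅ := by
      apply uniform hm hS hO₂o hO₂U hq' hqS' (c := ((Real.toNNReal c : NNReal) : ℝ≥0∞))
        (r₀ := 1 / ((k:ℝ) + 1)) (hhalf _ _ hpf.1) (by positivity)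
      intro z hz r hr hrk
      rw [ifc_compl] at hz
      exact (hall z hz).2 r hr hrk
    rw [ifc_compl] at he
    rw [he] at hpI
    exact hpI

end Pool.Agent.TH337.VF
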