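import Pool.Agent.TH337.VF.Mono2

/-!
Coverings of compact sets of vanishing Hausdorff measure.
-/

namespace Pool.Agent.TH337.VF

open MeasureTheory Set Filter Topology Metric
open scoped ENNReal RealInnerProductSpace

variable {N : ℕ}

/-- countable coverings by small balls centred in the set, with controlled sums -/
lemma cover {s : ℝ} (hs : 0 ≤ s) {P : Set (E N)} (h0 : μH[s] P ≠ ⊤)
    {ε δ : ℝ} (hε : 0 < ε) (hδ : 0 < δ) :
    ∃ (ι : Type) (_ : Countable ι) (x : ι → E N) (r : ι → ℝ),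
      (∀ i, x i ∈ P ∧ 0 < r i ∧ r i ≤ δ) ∧
      P ⊆ ⋃ i, ball (x i) (r i) ∧ ∑' i, ENNReal.ofReal (r i ^ s) ≤ μH[s] P + ENNReal.ofReal ε := by
  classical
  have h1 := Measure.hausdorffMeasure_apply s P
  have hδ' : 0 < ENNReal.ofReal (δ / 2) := ENNReal.ofReal_pos.2 (by linarith)
  have h2 : (⨅ (t : ℕ → Set (E N)) (_ : P ⊆ ⋃ n, t n) (_ : ∀ n, ediam (t n) ≤ ENNReal.ofReal (δ / 2)),
          ∑' n, ⨆ _ : (t n).Nonempty, ediam (t n) ^ s) < μH[s] P + ENNReal.ofReal (ε / 2) := by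
    refine lt_of_le_of_lt ?_ (ENNReal.lt_add_right h0 (ENNReal.ofReal_pos.2 (by linarith : 0 < ε / 2)).ne')
    conv_rhs => rw [h1]
    exact le_iSup₂ (f := fun (r : ℝ≥0∞) (_ : 0 < r) =>
      ⨅ (t : ℕ → Set (E N)) (_ : P ⊆ ⋃ n, t n) (_ : ∀ n, ediam (t n) ≤ r),
          ∑' n, ⨆ _ : (t n).Nonempty, ediam (t n) ^ s) _ hδ'
  rw [iInf_lt_iff] at h2
  obtain ⟨t, h2⟩ := h2
  rw [iInf_lt_iff] at h2
  obtain ⟨hFt, h2⟩ := h2
  rw [iInf_lt_iff] at h2
  obtain ⟨htd, h2⟩ := h2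
  set d : ℕ → ℝ := fun n => (ediam (t n)).toReal with hd
  have hfin : ∀ n, ediam (t n) ≠ ⊤ := fun n => ((htd n).trans_lt ENNReal.ofReal_lt_top).ne
  have hd0 : ∀ n, 0 ≤ d n := fun n => ENNReal.toReal_nonneg
  have hdδ : ∀ n, d n ≤ δ / 2 := by
    intro n
    exact ENNReal.toReal_le_of_le_ofReal (by linarith) (htd n)
  -- enlarge the diameters
  have hex : ∀ n : ℕ, ∃ e : ℝ, 0 < e ∧ e ≤ δ / 2 ∧ (d n + e) ^ s ≤ d n ^ s + ε / 2 / 2 ^ (n + 1) := by
    intro n
    have hc : Tendsto (fun e : ℝ => (d n + e) ^ s) (𝓝[>] 0) (𝓝 ((d n + 0) ^ s)) := by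
      apply tendsto_nhdsWithin_of_tendsto_nhds
      have h3 : Continuous (fun e : ℝ => (d n + e) ^ s) :=
        (continuous_const.add continuous_id).rpow_const (fun _ => Or.inr hs)
      exact h3.tendsto 0
    rw [add_zero] at hc
    have hpos : 0 < ε / 2 / 2 ^ (n + 1) := by positivity
    have h3 := hc.eventually (gt_mem_nhds (show d n ^ s < d n ^ s + ε / 2 / 2 ^ (n + 1) by linarith))
    have h4 : ∀ᶠ e : ℝ in 𝓝[>] 0, e ∈ Ioc (0:ℝ) (δ / 2) :=
      Ioc_mem_nhdsGT (by linarith)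
    obtain ⟨e, he1, he2⟩ := (h3.and h4).exists
    exact ⟨e, he2.1, he2.2, he1.le⟩
  choose e he0 heδ hek using hex
  have hx : ∀ n : ℕ, ∃ x : E N, (t n ∩ P).Nonempty → x ∈ t n ∩ P := by
    intro n
    by_cases h : (t n ∩ P).Nonempty
    · obtain ⟨x, hx⟩ := h
      exact ⟨x, fun _ => hx⟩
    · exact ⟨0, fun h' => absurd h' h⟩
  choose x hx using hx
  refine ⟨{n : ℕ // (t n ∩ P).Nonempty}, inferInstance, fun n => x n.1, fun n => d n.1 + e n.1,
    ?_, ?_, ?_⟩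
  · intro i
    refine ⟨(hx i.1 i.2).2, ?_, ?_⟩
    · have h1 := he0 i.1
      have h2 := hd0 i.1
      show 0 < d i.1 + e i.1
      linarith
    · have h1 := heδ i.1
      have h2 := hdδ i.1
      show d i.1 + e i.1 ≤ δ
      linarith
  · intro y hy
    obtain ⟨n, hn⟩ := mem_iUnion.1 (hFt hy)
    have hne : (t n ∩ P).Nonempty := ⟨y, hn, hy⟩
    refine mem_iUnion.2 ⟨⟨n, hne⟩, ?_⟩
    rw [mem_ball]
    have h3 : edist y (x n) ≤ ediam (t n) := edist_le_ediam_of_mem hn (hx n hne).1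
    have h4 : dist y (x n) ≤ d n := by
      rw [dist_edist]
      exact ENNReal.toReal_mono (hfin n) h3
    have := he0 n
    exact lt_of_le_of_lt h4 (by linarith)
  · have hA : ∀ n : {n : ℕ // (t n ∩ P).Nonempty},
        ENNReal.ofReal ((d n.1 + e n.1) ^ s) ≤
        (⨆ _ : (t n.1).Nonempty, ediam (t n.1) ^ s) + ENNReal.ofReal (ε / 2 / 2 ^ (n.1 + 1)) := by
      intro n
      have hne : (t n.1).Nonempty := n.2.mono inter_subset_left
      have h3 : ENNReal.ofReal ((d n.1 + e n.1) ^ s) ≤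
          ENNReal.ofReal (d n.1 ^ s) + ENNReal.ofReal (ε / 2 / 2 ^ (n.1 + 1)) := by
        rw [← ENNReal.ofReal_add (Real.rpow_nonneg (hd0 _) _) (by positivity)]
        exact ENNReal.ofReal_le_ofReal (hek n.1)
      refine h3.trans (add_le_add ?_ le_rfl)
      refine le_trans ?_ (le_iSup _ hne)
      rw [← ENNReal.ofReal_rpow_of_nonneg (hd0 _) hs, hd, ENNReal.ofReal_toReal (hfin _)]
    calc ∑' i : {n : ℕ // (t n ∩ P).Nonempty}, ENNReal.ofReal ((d i.1 + e i.1) ^ s)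
        ≤ ∑' i : {n : ℕ // (t n ∩ P).Nonempty}, ((⨆ _ : (t i.1).Nonempty, ediam (t i.1) ^ s) +
          ENNReal.ofReal (ε / 2 / 2 ^ (i.1 + 1))) := ENNReal.tsum_le_tsum hA
      _ ≤ ∑' n : ℕ, ((⨆ _ : (t n).Nonempty, ediam (t n) ^ s) +
          ENNReal.ofReal (ε / 2 / 2 ^ (n + 1))) :=
          ENNReal.tsum_comp_le_tsum_of_injective Subtype.val_injective _
      _ = (∑' n : ℕ, (⨆ _ : (t n).Nonempty, ediam (t n) ^ s)) +
          ∑' n : ℕ, ENNReal.ofReal (ε / 2 / 2 ^ (n + 1)) := ENNReal.tsum_add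
      _ ≤ (μH[s] P + ENNReal.ofReal (ε / 2)) + ENNReal.ofReal (ε / 2) := by
          refine add_le_add h2.le ?_
          have hsum : HasSum (fun i : ℕ => ε / 2 / 2 ^ (i + 1)) (ε / 2) := by
            have := hasSum_geometric_two' (ε / 2)
            convert this using 1
            funext i
            rw [pow_succ]
            field_simp
          rw [← ENNReal.ofReal_tsum_of_nonneg (fun i => by positivity) hsum.summable, hsum.tsum_eq]
      _ = μH[s] P + ENNReal.ofReal ε := by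
          rw [add_assoc, ← ENNReal.ofReal_add (by linarith) (by linarith)]
          congr 2
          ring

/-- uniform upper bound of the mass of small balls centred in a compact set -/
lemma upper {m : ℕ} {U : Set (E N)} {μ : Measure (E N)} {P : E N → E N →L[ℝ] E N}
    (hS : Stat m U μ P) (hU : IsOpen U) {K : Set (E N)} (hK : IsCompact K) (hKU : K ⊆ U) :
    ∃ ρ C : ℝ, 0 < ρ ∧ 0 ≤ C ∧ ∀ x ∈ K, closedBall x ρ ⊆ U ∧
      ∀ r, 0 < r → r ≤ ρ → μ (ball x r) ≤ ENNReal.ofReal (C * r ^ m) := by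
  obtain ⟨ρ, hρ, hsub⟩ := hK.exists_cthickening_subset_open hU hKU
  have hc : IsCompact (cthickening ρ K) := hK.cthickening
  have hf := hS.fin _ hsub hc
  refine ⟨ρ, (μ (cthickening ρ K)).toReal / ρ ^ m, hρ, by positivity, ?_⟩
  intro x hx
  have hb : closedBall x ρ ⊆ cthickening ρ K := closedBall_subset_cthickening hx ρ
  refine ⟨hb.trans hsub, ?_⟩
  intro r hr hrρ
  refine (mono' hS (hb.trans hsub) hr hrρ).trans ?_
  have h1 : μ (ball x ρ) ≤ μ (cthickening ρ K) := measure_mono (ball_subset_closedBall.trans hb)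
  refine (mul_le_mul_right h1 _).trans ?_
  rw [← ENNReal.ofReal_toReal hf.ne, ← ENNReal.ofReal_mul (by positivity)]
  apply ENNReal.ofReal_le_ofReal
  rw [div_pow]
  apply le_of_eq
  rw [ENNReal.toReal_ofReal ENNReal.toReal_nonneg]
  field_simp

end Pool.Agent.TH337.VF
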