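import Pool.Agent.TH337.VF.Cover

/-!
Cutoff functions vanishing near a finite union of balls.
-/

namespace Pool.Agent.TH337.VF

open MeasureTheory Set Filter Topology Metric
open scoped ENNReal RealInnerProductSpace

variable {N : ℕ}

lemma contDiff_possq : ContDiff ℝ 1 (fun t : ℝ => (max 0 t) ^ 2) := by
  rw [contDiff_one_iff_deriv]
  refine ⟨fun u => (hasDerivAt_possq u).differentiableAt, ?_⟩
  have : deriv (fun t : ℝ => (max 0 t) ^ 2) = fun t => 2 * max 0 t := by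
    funext u
    exact (hasDerivAt_possq u).deriv
  rw [this]
  exact continuous_possq'

noncomputable def bmp (x : E N) (r : ℝ) (y : E N) : ℝ :=
  (max 0 (4 - ‖y - x‖ ^ 2 / r ^ 2)) ^ 2 / 9

lemma bmp_contDiff (x : E N) (r : ℝ) : ContDiff ℝ 1 (bmp x r) := by
  have h1 : ContDiff ℝ 1 (fun y : E N => 4 - ‖y - x‖ ^ 2 / r ^ 2) :=
    contDiff_const.sub ((contDiff_sq x).div_const _)
  exact (contDiff_possq.comp h1).div_const _

lemma bmp_nonneg (x : E N) (r : ℝ) (y : E N) : 0 ≤ bmp x r y := by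
  unfold bmp
  positivity

lemma bmp_one {x : E N} {r : ℝ} (hr : 0 < r) {y : E N} (hy : y ∈ ball x r) : 1 ≤ bmp x r y := by
  rw [mem_ball, dist_eq_norm] at hy
  have h1 : ‖y - x‖ ^ 2 / r ^ 2 ≤ 1 := by
    rw [div_le_one (by positivity)]
    exact pow_le_pow_left₀ (norm_nonneg _) hy.le 2
  unfold bmp
  have h2 : 3 ≤ max 0 (4 - ‖y - x‖ ^ 2 / r ^ 2) := le_max_of_le_right (by linarith)
  nlinarith

lemma bmp_zero {x : E N} {r : ℝ} (hr : 0 < r) {y : E N} (hy : y ∉ ball x (2 * r)) :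
    bmp x r y = 0 := by
  rw [mem_ball, dist_eq_norm, not_lt] at hy
  have h1 : 4 ≤ ‖y - x‖ ^ 2 / r ^ 2 := by
    rw [le_div_iff₀ (by positivity)]
    nlinarith
  unfold bmp
  rw [max_eq_left (by linarith)]
  norm_num

lemma bmp_hasFDerivAt (x : E N) (r : ℝ) (y : E N) :
    HasFDerivAt (bmp x r)
      ((2 * max 0 (4 - ‖y - x‖ ^ 2 / r ^ 2) / 9 * (-(1 / r ^ 2))) • ((2:ℝ) • innerSL ℝ (y - x))) y := by
  have h1 : HasDerivAt (fun s : ℝ => (max 0 (4 - s / r ^ 2)) ^ 2 / 9)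
      (2 * max 0 (4 - ‖y - x‖ ^ 2 / r ^ 2) / 9 * (-(1 / r ^ 2))) (‖y - x‖ ^ 2) := by
    have h2 : HasDerivAt (fun s : ℝ => 4 - s / r ^ 2) (-(1 / r ^ 2)) (‖y - x‖ ^ 2) :=
      ((hasDerivAt_id _).div_const _).const_sub _
    have h3 := ((hasDerivAt_possq (4 - ‖y - x‖ ^ 2 / r ^ 2)).comp (‖y - x‖ ^ 2) h2).div_const 9
    have e : 2 * max 0 (4 - ‖y - x‖ ^ 2 / r ^ 2) / 9 * (-(1 / r ^ 2)) =
      2 * max 0 (4 - ‖y - x‖ ^ 2 / r ^ 2) * (-(1 / r ^ 2)) / 9 := by ring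
    rw [e]
    exact h3
  exact h1.comp_hasFDerivAt y (hasFDerivAt_sq x y)

lemma bmp_fderiv_le {x : E N} {r : ℝ} (hr : 0 < r) (y : E N) :
    ‖fderiv ℝ (bmp x r) y‖ ≤ (ball x (2 * r)).indicator (fun _ => 4 / r) y := by
  rw [(bmp_hasFDerivAt x r y).fderiv, norm_smul, norm_smul, innerSL_apply_norm]
  by_cases hy : y ∈ ball x (2 * r)
  · rw [indicator_of_mem hy]
    rw [mem_ball, dist_eq_norm] at hy
    have h1 : max 0 (4 - ‖y - x‖ ^ 2 / r ^ 2) ≤ 4 := by
      apply max_le (by norm_num)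
      have : 0 ≤ ‖y - x‖ ^ 2 / r ^ 2 := by positivity
      linarith
    have h0 : 0 ≤ max 0 (4 - ‖y - x‖ ^ 2 / r ^ 2) := le_max_left _ _
    have h2 : ‖(2 * max 0 (4 - ‖y - x‖ ^ 2 / r ^ 2) / 9 * (-(1 / r ^ 2)))‖ =
        2 * max 0 (4 - ‖y - x‖ ^ 2 / r ^ 2) / 9 * (1 / r ^ 2) := by
      rw [Real.norm_eq_abs, mul_neg, abs_neg, abs_of_nonneg (by positivity)]
    rw [h2]
    have h3 : ‖(2:ℝ)‖ = 2 := by norm_num
    rw [h3]
    calc 2 * max 0 (4 - ‖y - x‖ ^ 2 / r ^ 2) / 9 * (1 / r ^ 2) * (2 * ‖y - x‖)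
        ≤ 2 * 4 / 9 * (1 / r ^ 2) * (2 * (2 * r)) := by gcongr
      _ ≤ 4 / r := by
          have e : 2 * 4 / 9 * (1 / r ^ 2) * (2 * (2 * r)) = (32 / 9) / r := by
            field_simp
            ring
          rw [e]
          exact div_le_div_of_nonneg_right (by norm_num) hr.le
  · rw [indicator_of_notMem hy]
    rw [mem_ball, dist_eq_norm, not_lt] at hy
    have h1 : 4 ≤ ‖y - x‖ ^ 2 / r ^ 2 := by
      rw [le_div_iff₀ (by positivity)]
      nlinarith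
    rw [max_eq_left (by linarith)]
    simp

lemma cutoff {ι : Type*} (t : Finset ι) (x : ι → E N) (r : ι → ℝ) (hr : ∀ i ∈ t, 0 < r i) :
    ∃ η : E N → ℝ, ContDiff ℝ 1 η ∧ (∀ y, 0 ≤ η y) ∧ (∀ y, η y ≤ 1) ∧
      (∀ y ∈ ⋃ i ∈ t, ball (x i) (r i), η y = 0) ∧
      (∀ y, y ∉ ⋃ i ∈ t, ball (x i) (2 * r i) → η y = 1) ∧
      ∀ y, ‖fderiv ℝ η y‖ ≤ ∑ i ∈ t, (ball (x i) (2 * r i)).indicator (fun _ => 8 / r i) y := by
  set g : E N → ℝ := fun y => ∑ i ∈ t, bmp (x i) (r i) y with hg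
  have hgc : ContDiff ℝ 1 g := ContDiff.sum fun i _ => bmp_contDiff (x i) (r i)
  have hg0 : ∀ y, 0 ≤ g y := fun y => Finset.sum_nonneg fun i _ => bmp_nonneg _ _ _
  have h1g : ContDiff ℝ 1 (fun y => 1 - g y) := contDiff_const.sub hgc
  refine ⟨fun y => (max 0 (1 - g y)) ^ 2, contDiff_possq.comp h1g, fun y => by positivity,
    ?_, ?_, ?_, ?_⟩
  · intro y
    have h1 : max 0 (1 - g y) ≤ 1 := max_le (by norm_num) (by have := hg0 y; linarith)
    have h2 : 0 ≤ max 0 (1 - g y) := le_max_left _ _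
    nlinarith
  · intro y hy
    simp only [mem_iUnion] at hy
    obtain ⟨i, hi, hyi⟩ := hy
    have h1 : 1 ≤ g y := (bmp_one (hr i hi) hyi).trans
      (Finset.single_le_sum (f := fun i => bmp (x i) (r i) y) (fun j _ => bmp_nonneg _ _ _) hi)
    show (max 0 (1 - g y)) ^ 2 = 0
    rw [max_eq_left (by linarith)]
    norm_num
  · intro y hy
    simp only [mem_iUnion, not_exists] at hy
    have h1 : g y = 0 := Finset.sum_eq_zero fun i hi => bmp_zero (hr i hi) (hy i hi)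
    show (max 0 (1 - g y)) ^ 2 = 1
    rw [h1]
    norm_num
  · intro y
    have hgd : HasFDerivAt g (∑ i ∈ t, fderiv ℝ (bmp (x i) (r i)) y) y := by
      have := HasFDerivAt.sum (u := t) (A := fun i => bmp (x i) (r i))
        (A' := fun i => fderiv ℝ (bmp (x i) (r i)) y) (x := y)
        (fun i _ => ((bmp_contDiff (x i) (r i)).differentiable one_ne_zero y).hasFDerivAt)
      have hge : g = ∑ i ∈ t, bmp (x i) (r i) := by
        funext z
        simp [hg]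
      rw [hge]
      exact this
    have h2 : HasFDerivAt (fun y => (max 0 (1 - g y)) ^ 2)
        ((2 * max 0 (1 - g y)) • (-(∑ i ∈ t, fderiv ℝ (bmp (x i) (r i)) y))) y := by
      have h6 : HasDerivAt (fun t : ℝ => (max 0 t) ^ 2) (2 * max 0 (1 - g y)) (1 - g y) :=
        hasDerivAt_possq (1 - g y)
      exact HasDerivAt.comp_hasFDerivAt y h6 (hgd.const_sub 1)
    rw [h2.fderiv, norm_smul, norm_neg]
    have h3 : ‖2 * max 0 (1 - g y)‖ ≤ 2 := by
      have h1 : max 0 (1 - g y) ≤ 1 := max_le (by norm_num) (by have := hg0 y; linarith)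
      have h2 : 0 ≤ max 0 (1 - g y) := le_max_left _ _
      rw [Real.norm_eq_abs, abs_of_nonneg (by positivity)]
      linarith
    have h4 : ‖∑ i ∈ t, fderiv ℝ (bmp (x i) (r i)) y‖ ≤
        ∑ i ∈ t, (ball (x i) (2 * r i)).indicator (fun _ => 4 / r i) y :=
      (norm_sum_le _ _).trans (Finset.sum_le_sum fun i hi => bmp_fderiv_le (hr i hi) y)
    calc ‖2 * max 0 (1 - g y)‖ * ‖∑ i ∈ t, fderiv ℝ (bmp (x i) (r i)) y‖
        ≤ 2 * ∑ i ∈ t, (ball (x i) (2 * r i)).indicator (fun _ => 4 / r i) y :=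
          mul_le_mul h3 h4 (norm_nonneg _) (by norm_num)
      _ = ∑ i ∈ t, (ball (x i) (2 * r i)).indicator (fun _ => 8 / r i) y := by
          rw [Finset.mul_sum]
          apply Finset.sum_congr rfl
          intro i _
          by_cases hy : y ∈ ball (x i) (2 * r i)
          · rw [indicator_of_mem hy, indicator_of_mem hy]
            ring
          · rw [indicator_of_notMem hy, indicator_of_notMem hy, mul_zero]

end Pool.Agent.TH337.VF
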