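import Mathlib.MeasureTheory.Measure.Hausdorff
import Mathlib.MeasureTheory.Measure.Support
import Mathlib.MeasureTheory.Measure.Lebesgue.VolumeOfBalls
import Mathlib.Analysis.InnerProductSpace.Trace
import Mathlib.Analysis.InnerProductSpace.Calculus
import Mathlib.Analysis.Calculus.ParametricIntegral
import Mathlib.MeasureTheory.Constructions.BorelSpace.ContinuousLinearMap
import Mathlib.Geometry.Manifold.PartitionOfUnity
import Mathlib.Geometry.Manifold.ContMDiff.NormedSpace

/-!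
Stationary varifolds given by a weight measure and a field of operators: internal version.
-/

namespace Pool.Agent.TH337.VF

open MeasureTheory Set Filter Topology Metric
open scoped ENNReal RealInnerProductSpace

/-- Euclidean space. -/
abbrev E (N : ℕ) := EuclideanSpace ℝ (Fin N)

variable {N : ℕ}

/-- the trace of a continuous linear operator -/
noncomputable def trc (L : E N →L[ℝ] E N) : ℝ := LinearMap.trace ℝ (E N) (L : E N →ₗ[ℝ] E N)

/-- internal notion of a stationary (generalized) varifold -/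
structure Stat (m : ℕ) (U : Set (E N)) (μ : Measure (E N)) (P : E N → E N →L[ℝ] E N) : Prop where
  fin : ∀ K ⊆ U, IsCompact K → μ K < ⊤
  meas : Measurable P
  nrm : ∀ x, ‖P x‖ ≤ 1
  tr : ∀ᵐ x ∂(μ.restrict U), trc (P x) = m
  stat : ∀ X : E N → E N, ContDiff ℝ 1 X → HasCompactSupport X → tsupport X ⊆ U →
    ∫ x, trc (P x ∘L fderiv ℝ X x) ∂μ = 0

lemma trc_eq (L : E N →L[ℝ] E N) :
    trc L = ∑ i, ⟪EuclideanSpace.basisFun (Fin N) ℝ i, L (EuclideanSpace.basisFun (Fin N) ℝ i)⟫ := by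
  unfold trc
  rw [LinearMap.trace_eq_sum_inner _ (EuclideanSpace.basisFun (Fin N) ℝ)]
  rfl

lemma trc_add (L M : E N →L[ℝ] E N) : trc (L + M) = trc L + trc M := by
  simp [trc]

lemma trc_smul (c : ℝ) (L : E N →L[ℝ] E N) : trc (c • L) = c * trc L := by
  simp [trc]

lemma trc_zero : trc (0 : E N →L[ℝ] E N) = 0 := by
  simp [trc]

lemma abs_trc_le (L : E N →L[ℝ] E N) : |trc L| ≤ N * ‖L‖ := by
  rw [trc_eq]
  calc |∑ i, ⟪EuclideanSpace.basisFun (Fin N) ℝ i, L (EuclideanSpace.basisFun (Fin N) ℝ i)⟫|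
      ≤ ∑ i, |⟪EuclideanSpace.basisFun (Fin N) ℝ i, L (EuclideanSpace.basisFun (Fin N) ℝ i)⟫| :=
        Finset.abs_sum_le_sum_abs _ _
    _ ≤ ∑ _i : Fin N, ‖L‖ := by
        apply Finset.sum_le_sum
        intro i _
        have h1 := abs_real_inner_le_norm (EuclideanSpace.basisFun (Fin N) ℝ i)
          (L (EuclideanSpace.basisFun (Fin N) ℝ i))
        have h2 := L.le_opNorm (EuclideanSpace.basisFun (Fin N) ℝ i)
        have h3 : ‖EuclideanSpace.basisFun (Fin N) ℝ i‖ = 1 :=
          (EuclideanSpace.basisFun (Fin N) ℝ).orthonormal.1 i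
        rw [h3] at h1 h2
        linarith
    _ = N * ‖L‖ := by simp

lemma continuous_trc : Continuous (trc : (E N →L[ℝ] E N) → ℝ) := by
  have : (trc : (E N →L[ℝ] E N) → ℝ) = fun L => ∑ i, ⟪EuclideanSpace.basisFun (Fin N) ℝ i,
      L (EuclideanSpace.basisFun (Fin N) ℝ i)⟫ := by
    funext L
    exact trc_eq L
  rw [this]
  fun_prop

/-- trace of a projection composed with a rank one map -/
lemma trc_rank (P : E N →L[ℝ] E N) (l : E N →L[ℝ] ℝ) (w : E N) :
    trc (P ∘L l.smulRight w) = l (P w) := by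
  have hw : ∀ v : E N, l v = ∑ i, ⟪EuclideanSpace.basisFun (Fin N) ℝ i, v⟫ *
      l (EuclideanSpace.basisFun (Fin N) ℝ i) := by
    intro v
    conv_lhs => rw [← (EuclideanSpace.basisFun (Fin N) ℝ).sum_repr' v]
    simp [map_sum]
  rw [trc_eq, hw (P w)]
  apply Finset.sum_congr rfl
  intro i _
  simp only [ContinuousLinearMap.coe_comp, Function.comp_apply,
    ContinuousLinearMap.smulRight_apply, map_smul, inner_smul_right]
  ring

/-- the pairing with a derivative is bounded -/
lemma abs_trc_comp_le {P L : E N →L[ℝ] E N} (hP : ‖P‖ ≤ 1) : |trc (P ∘L L)| ≤ N * ‖L‖ := by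
  refine (abs_trc_le _).trans ?_
  have h1 : ‖P ∘L L‖ ≤ ‖L‖ := by
    refine (ContinuousLinearMap.opNorm_comp_le P L).trans ?_
    have := norm_nonneg L
    nlinarith
  have : (0:ℝ) ≤ N := Nat.cast_nonneg _
  exact mul_le_mul_of_nonneg_left h1 this

lemma inner_le_of_norm {P : E N →L[ℝ] E N} (hP : ‖P‖ ≤ 1) (w : E N) : ⟪w, P w⟫ ≤ ‖w‖ ^ 2 := by
  have h1 := real_inner_le_norm w (P w)
  have h2 := P.le_opNorm w
  have h3 := norm_nonneg w
  nlinarith

end Pool.Agent.TH337.VF
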