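import Pool.Agent.TH337.VF.Restrict

/-!
Densities.
-/

namespace Pool.Agent.TH337.VF

open MeasureTheory Set Filter Topology Metric
open scoped ENNReal RealInnerProductSpace

variable {N : ℕ}

/-- the (upper) `m`-dimensional density of `μ` at `x` -/
noncomputable def density (m : ℕ) (μ : Measure (E N)) (x : E N) : ℝ≥0∞ :=
  limsup (fun r : ℝ => μ (ball x r) /
    (volume (ball (0 : EuclideanSpace ℝ (Fin m)) 1) * ENNReal.ofReal r ^ m)) (𝓝[>] 0)

lemma omega_pos (m : ℕ) : volume (ball (0 : EuclideanSpace ℝ (Fin m)) 1) ≠ 0 :=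
  (measure_ball_pos volume _ one_pos).ne'

lemma omega_lt (m : ℕ) : volume (ball (0 : EuclideanSpace ℝ (Fin m)) 1) ≠ ⊤ :=
  measure_ball_lt_top.ne

lemma density_le {m : ℕ} {U : Set (E N)} {μ : Measure (E N)} {P : E N → E N →L[ℝ] E N}
    (hS : Stat m U μ P) {a : E N} {R : ℝ} (hR : closedBall a R ⊆ U) (hR0 : 0 < R) :
    density m μ a * (volume (ball (0 : EuclideanSpace ℝ (Fin m)) 1) * ENNReal.ofReal R ^ m) ≤
      μ (ball a R) := by
  have h1 : density m μ a ≤ μ (ball a R) /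
      (volume (ball (0 : EuclideanSpace ℝ (Fin m)) 1) * ENNReal.ofReal R ^ m) := by
    apply limsup_le_of_le
    · isBoundedDefault
    · filter_upwards [Ioc_mem_nhdsGT hR0] with r hr
      have hr0 : 0 < r := hr.1
      have h2 := mono' hS hR hr.1 hr.2
      have hω := omega_pos m
      have hω' := omega_lt m
      have hr' : ENNReal.ofReal r ≠ 0 := (ENNReal.ofReal_pos.2 hr.1).ne'
      have hR' : ENNReal.ofReal R ≠ 0 := (ENNReal.ofReal_pos.2 hR0).ne'
      have hrm : volume (ball (0 : EuclideanSpace ℝ (Fin m)) 1) * ENNReal.ofReal r ^ m ≠ 0 :=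
        mul_ne_zero hω (pow_ne_zero _ hr')
      have hrm' : volume (ball (0 : EuclideanSpace ℝ (Fin m)) 1) * ENNReal.ofReal r ^ m ≠ ⊤ :=
        ENNReal.mul_ne_top hω' (ENNReal.pow_ne_top ENNReal.ofReal_ne_top)
      have hRm : volume (ball (0 : EuclideanSpace ℝ (Fin m)) 1) * ENNReal.ofReal R ^ m ≠ 0 :=
        mul_ne_zero hω (pow_ne_zero _ hR')
      have hRm' : volume (ball (0 : EuclideanSpace ℝ (Fin m)) 1) * ENNReal.ofReal R ^ m ≠ ⊤ :=
        ENNReal.mul_ne_top hω' (ENNReal.pow_ne_top ENNReal.ofReal_ne_top)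
      rw [ENNReal.div_le_iff hrm hrm']
      refine h2.trans (le_of_eq ?_)
      have e : ENNReal.ofReal ((r / R) ^ m) * ENNReal.ofReal R ^ m = ENNReal.ofReal r ^ m := by
        rw [← ENNReal.ofReal_pow hR0.le, ← ENNReal.ofReal_pow hr.1.le,
          ← ENNReal.ofReal_mul (by positivity)]
        congr 1
        rw [div_pow]
        field_simp
      calc ENNReal.ofReal ((r / R) ^ m) * μ (ball a R)
          = ENNReal.ofReal ((r / R) ^ m) * (μ (ball a R) /
            (volume (ball (0 : EuclideanSpace ℝ (Fin m)) 1) * ENNReal.ofReal R ^ m) *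
            (volume (ball (0 : EuclideanSpace ℝ (Fin m)) 1) * ENNReal.ofReal R ^ m)) := by
            rw [ENNReal.div_mul_cancel hRm hRm']
        _ = μ (ball a R) /
            (volume (ball (0 : EuclideanSpace ℝ (Fin m)) 1) * ENNReal.ofReal R ^ m) *
            (volume (ball (0 : EuclideanSpace ℝ (Fin m)) 1) *
              (ENNReal.ofReal ((r / R) ^ m) * ENNReal.ofReal R ^ m)) := by ring
        _ = _ := by rw [e]
  have hω := omega_pos m
  have hR' : ENNReal.ofReal R ≠ 0 := (ENNReal.ofReal_pos.2 hR0).ne'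
  have hRm : volume (ball (0 : EuclideanSpace ℝ (Fin m)) 1) * ENNReal.ofReal R ^ m ≠ 0 :=
    mul_ne_zero hω (pow_ne_zero _ hR')
  have hRm' : volume (ball (0 : EuclideanSpace ℝ (Fin m)) 1) * ENNReal.ofReal R ^ m ≠ ⊤ :=
    ENNReal.mul_ne_top (omega_lt m) (ENNReal.pow_ne_top ENNReal.ofReal_ne_top)
  exact (ENNReal.le_div_iff_mul_le (Or.inl hRm) (Or.inl hRm')).1 h1

lemma density_restrict {m : ℕ} {μ : Measure (E N)} {W : Set (E N)} (hW : IsOpen W) {x : E N}
    (hx : x ∈ W) : density m (μ.restrict W) x = density m μ x := by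
  unfold density
  apply limsup_congr
  obtain ⟨ε, hε, hsub⟩ := Metric.isOpen_iff.1 hW x hx
  filter_upwards [Ioc_mem_nhdsGT hε] with r hr
  rw [Measure.restrict_apply measurableSet_ball, inter_eq_left.2]
  exact (ball_subset_ball hr.2).trans hsub

/-- lower mass bound at limits of points of density at least `q` -/
lemma lower {m : ℕ} {U : Set (E N)} {ν : Measure (E N)} {P : E N → E N →L[ℝ] E N}
    (hS : Stat m U ν P) {x₀ : E N} {q : ℝ≥0∞} (hq : q ≠ ⊤)
    (hx : ∀ δ : ℝ, 0 < δ → ∃ x ∈ ball x₀ δ, q ≤ density m ν x)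
    {R : ℝ} (hR : ball x₀ R ⊆ U) (hR0 : 0 < R) :
    q * (volume (ball (0 : EuclideanSpace ℝ (Fin m)) 1) * ENNReal.ofReal R ^ m) ≤
      ν (ball x₀ R) := by
  have h1 : ∀ δ ∈ Ioo (0:ℝ) R, q * (volume (ball (0 : EuclideanSpace ℝ (Fin m)) 1) *
      ENNReal.ofReal (R - δ) ^ m) ≤ ν (ball x₀ R) := by
    intro δ hδ
    obtain ⟨x, hxδ, hx1⟩ := hx δ hδ.1
    rw [mem_ball] at hxδ
    have hRδ : 0 < R - δ := by linarith [hδ.2]
    have hsub : closedBall x (R - δ) ⊆ ball x₀ R := by
      apply closedBall_subset_ball'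
      linarith
    have h2 := density_le hS (hsub.trans hR) hRδ
    have h3 : ν (ball x (R - δ)) ≤ ν (ball x₀ R) := by
      apply measure_mono
      apply ball_subset_ball'
      linarith
    exact (mul_le_mul_left hx1 _).trans (h2.trans h3)
  have h2 : Tendsto (fun δ : ℝ => q * (volume (ball (0 : EuclideanSpace ℝ (Fin m)) 1) *
      ENNReal.ofReal (R - δ) ^ m)) (𝓝[>] 0)
      (𝓝 (q * (volume (ball (0 : EuclideanSpace ℝ (Fin m)) 1) * ENNReal.ofReal (R - 0) ^ m))) := by
    apply ENNReal.Tendsto.const_mul _ (Or.inr hq)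
    apply ENNReal.Tendsto.const_mul _ (Or.inr (omega_lt m))
    have h3 : Tendsto (fun δ : ℝ => ENNReal.ofReal ((R - δ) ^ m)) (𝓝[>] 0)
        (𝓝 (ENNReal.ofReal ((R - 0) ^ m))) := by
      apply ENNReal.tendsto_ofReal
      apply tendsto_nhdsWithin_of_tendsto_nhds
      have : Continuous fun δ : ℝ => (R - δ) ^ m := by fun_prop
      exact this.tendsto 0
    rw [ENNReal.ofReal_pow (by linarith)] at h3
    apply h3.congr'
    filter_upwards [Ioo_mem_nhdsGT hR0] with δ hδ
    rw [ENNReal.ofReal_pow (by linarith [hδ.2])]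
  rw [sub_zero] at h2
  apply le_of_tendsto h2
  filter_upwards [Ioo_mem_nhdsGT hR0] with δ hδ
  exact h1 δ hδ

end Pool.Agent.TH337.VF
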