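import Pool.Agent.TH337.VF.Dens
import Mathlib.MeasureTheory.Covering.Besicovitch
import Mathlib.MeasureTheory.Covering.BesicovitchVectorSpace
import Mathlib.Topology.Baire.Lemmas
import Mathlib.Topology.Baire.LocallyCompactRegular

/-!
The interface between two parts of a stationary varifold.
-/

namespace Pool.Agent.TH337.VF

open MeasureTheory Set Filter Topology Metric
open scoped ENNReal RealInnerProductSpace

variable {N : ℕ}

/-- upper `m`-dimensional density of the part of `μ` in `S` at `z` -/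
noncomputable def upperDens (m : ℕ) (μ : Measure (E N)) (S : Set (E N)) (z : E N) : ℝ≥0∞ :=
  limsup (fun r : ℝ => μ (ball z r ∩ S) /
    (volume (ball (0 : EuclideanSpace ℝ (Fin m)) 1) * ENNReal.ofReal r ^ m)) (𝓝[>] 0)

/-- points near which `S` is a null set -/
def nn (μ : Measure (E N)) (S : Set (E N)) : Set (E N) := {x | ∃ r : ℝ, 0 < r ∧ μ (ball x r ∩ S) = 0}

lemma isOpen_nn (μ : Measure (E N)) (S : Set (E N)) : IsOpen (nn μ S) := by
  rw [Metric.isOpen_iff]
  rintro x ⟨r, hr, h⟩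
  refine ⟨r, hr, ?_⟩
  intro y hy
  rw [mem_ball] at hy
  refine ⟨r - dist y x, by linarith, measure_mono_null (inter_subset_inter_left S ?_) h⟩
  apply ball_subset_ball'
  linarith

lemma measure_nn (μ : Measure (E N)) (S : Set (E N)) : μ (nn μ S ∩ S) = 0 := by
  apply measure_null_of_locally_null
  rintro x ⟨⟨r, hr, h⟩, hx⟩
  refine ⟨ball x r ∩ (nn μ S ∩ S), ?_, measure_mono_null (inter_subset_inter_right _
    inter_subset_right) h⟩
  exact inter_mem (mem_nhdsWithin_of_mem_nhds (ball_mem_nhds x hr)) self_mem_nhdsWithin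

lemma nn_disj (μ : Measure (E N)) (S U : Set (E N)) :
    μ.support ∩ U ∩ nn μ Sᶜ ∩ nn μ S = ∅ := by
  rw [eq_empty_iff_forall_notMem]
  rintro x ⟨⟨⟨hx, -⟩, ⟨r, hr, h⟩⟩, ⟨r', hr', h'⟩⟩
  rw [Measure.mem_support_iff_forall] at hx
  have h1 := hx (ball x (min r r')) (ball_mem_nhds x (lt_min hr hr'))
  have h2 : μ (ball x (min r r')) ≤ μ (ball x r ∩ Sᶜ) + μ (ball x r' ∩ S) := by
    refine (measure_mono ?_).trans (measure_union_le _ _)
    intro y hy
    rw [mem_ball] at hy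
    by_cases hyS : y ∈ S
    · exact Or.inr ⟨mem_ball.2 (hy.trans_le (min_le_right _ _)), hyS⟩
    · exact Or.inl ⟨mem_ball.2 (hy.trans_le (min_le_left _ _)), hyS⟩
  rw [h, h', add_zero] at h2
  exact absurd h1 (not_lt.2 h2)

lemma Stat.sub {m : ℕ} {U O : Set (E N)} {μ : Measure (E N)} {P : E N → E N →L[ℝ] E N}
    (hS : Stat m U μ P) (h : O ⊆ U) : Stat m O μ P where
  fin := fun K hK hc => hS.fin K (hK.trans h) hc
  meas := hS.meas
  nrm := hS.nrm
  tr := ae_restrict_of_ae_restrict_of_subset h hS.tr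
  stat := fun X hX hc hXO => hS.stat X hX hc (hXO.trans h)

/-- the interface of `S` in `U` -/
def ifc (U : Set (E N)) (μ : Measure (E N)) (S : Set (E N)) : Set (E N) :=
  U \ (nn μ S ∪ nn μ Sᶜ)

lemma ifc_compl (U : Set (E N)) (μ : Measure (E N)) (S : Set (E N)) :
    ifc U μ Sᶜ = ifc U μ S := by
  unfold ifc
  rw [compl_compl, union_comm]

/-- away from a null interface each side is stationary -/
lemma stat_side {m : ℕ} (hm : 1 ≤ m) {U O : Set (E N)} {μ : Measure (E N)}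
    {P : E N → E N →L[ℝ] E N} (hS : Stat m U μ P) (hO : IsOpen O) (hOU : O ⊆ U) (S : Set (E N))
    (h0 : μH[((m - 1 : ℕ):ℝ)] (ifc O μ S) = 0) :
    Stat m O (μ.restrict (nn μ Sᶜ)) P := by
  have hSO := hS.sub hOU
  apply restrict hSO (isOpen_nn μ Sᶜ) (isOpen_nn μ S) (nn_disj μ S O)
  intro K hK hKc
  have h1 : (K ∩ μ.support) \ (nn μ Sᶜ ∪ nn μ S) ⊆ K := fun y hy => hy.1.1
  have h2 : (K ∩ μ.support) \ (nn μ Sᶜ ∪ nn μ S) ⊆ ifc O μ S := by
    intro y hy
    refine ⟨hK hy.1.1, ?_⟩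
    rw [union_comm]
    exact hy.2
  exact (SmallCov.of_null hm hSO hO hKc hK h1 (measure_mono_null h2 h0)).mono_measure
    Measure.restrict_le_self

lemma stat_side' {m : ℕ} (hm : 1 ≤ m) {U O : Set (E N)} {μ : Measure (E N)}
    {P : E N → E N →L[ℝ] E N} (hS : Stat m U μ P) (hO : IsOpen O) (hOU : O ⊆ U) (S : Set (E N))
    (h0 : μH[((m - 1 : ℕ):ℝ)] (ifc O μ S) = 0) :
    Stat m O (μ.restrict (nn μ S)) P := by
  have := stat_side hm hS hO hOU Sᶜ (by rwa [ifc_compl])
  rwa [compl_compl] at this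

/-- lower bound for the mass of one side -/
lemma lower_side {m : ℕ} {U O : Set (E N)} {μ : Measure (E N)}
    {P : E N → E N →L[ℝ] E N} {S : Set (E N)} (hOU : O ⊆ U)
    (hT : Stat m O (μ.restrict (nn μ Sᶜ)) P) {q : ℝ≥0∞} (hq : q ≠ ⊤)
    (hqS : ∀ᵐ x ∂(μ.restrict U), x ∈ S → q ≤ density m μ x) {x₀ : E N} {R : ℝ} (hR0 : 0 < R)
    (hR : ball x₀ R ⊆ O) (hx : ∀ δ : ℝ, 0 < δ → μ (ball x₀ δ ∩ nn μ Sᶜ) ≠ 0) :
    q * (volume (ball (0 : EuclideanSpace ℝ (Fin m)) 1) * ENNReal.ofReal R ^ m) ≤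
      μ (ball x₀ R ∩ nn μ Sᶜ) := by
  have h1 := lower hT hq (x₀ := x₀) ?_ hR hR0
  · rwa [Measure.restrict_apply measurableSet_ball] at h1
  · intro δ hδ
    have hδ' : 0 < min δ R := lt_min hδ hR0
    have h2 := hx (min δ R) hδ'
    have h3 : ∀ᵐ x ∂(μ.restrict (ball x₀ (min δ R) ∩ nn μ Sᶜ)),
        (x ∈ S → q ≤ density m μ x) ∧ ¬ (x ∈ nn μ Sᶜ ∩ Sᶜ) := by
      have h4 : ball x₀ (min δ R) ∩ nn μ Sᶜ ⊆ U :=
        inter_subset_left.trans (((ball_subset_ball (min_le_right _ _)).trans hR).trans hOU)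
      have h5 := ae_restrict_of_ae_restrict_of_subset h4 hqS
      have h6 : ∀ᵐ x ∂μ, ¬ (x ∈ nn μ Sᶜ ∩ Sᶜ) := by
        rw [ae_iff]
        simp only [not_not]
        exact measure_nn μ Sᶜ
      exact h5.and (ae_mono Measure.restrict_le_self h6)
    obtain ⟨x, hx1, hx2, hx3⟩ := Measure.exists_mem_of_measure_ne_zero_of_ae h2 h3
    have hxS : x ∈ S := by
      by_contra hc
      exact hx3 ⟨hx1.2, hc⟩
    refine ⟨x, ball_subset_ball (min_le_left _ _) hx1.1, ?_⟩
    rw [density_restrict (isOpen_nn μ Sᶜ) hx1.2]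
    exact hx2 hxS

/-- a null interface is empty when the density is less than `q + q'` -/
lemma null_ifc {m : ℕ} (hm : 1 ≤ m) {U O : Set (E N)} {μ : Measure (E N)}
    {P : E N → E N →L[ℝ] E N} (hS : Stat m U μ P) (hO : IsOpen O) (hOU : O ⊆ U) {S : Set (E N)}
    {q q' : ℝ≥0∞} (hq : q ≠ ⊤) (hq' : q' ≠ ⊤)
    (hqS : ∀ᵐ x ∂(μ.restrict U), x ∈ S → q ≤ density m μ x)
    (hqS' : ∀ᵐ x ∂(μ.restrict U), x ∈ Sᶜ → q' ≤ density m μ x)
    (hlt : ∀ x ∈ U, density m μ x < q + q')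
    (h0 : μH[((m - 1 : ℕ):ℝ)] (ifc O μ S) = 0) : ifc O μ S = ∅ := by
  rw [eq_empty_iff_forall_notMem]
  intro z hz
  have hzO : z ∈ O := hz.1
  obtain ⟨R₀, hR₀, hRO⟩ := Metric.isOpen_iff.1 hO z hzO
  set R := R₀ / 2 with hR
  have hR0 : 0 < R := by positivity
  have hcO : closedBall z R ⊆ O := (closedBall_subset_ball (by linarith)).trans hRO
  -- the interface has measure zero
  have hnull : μ (closedBall z R ∩ ifc O μ S) = 0 :=
    (SmallCov.of_null hm (hS.sub hOU) hO (isCompact_closedBall z R) hcO inter_subset_left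
      (measure_mono_null inter_subset_right h0)).null
  have hz1 : z ∉ nn μ S := fun h => hz.2 (Or.inl h)
  have hz2 : z ∉ nn μ Sᶜ := fun h => hz.2 (Or.inr h)
  have key : ∀ T : Set (E N), (T = S ∨ T = Sᶜ) → ∀ δ : ℝ, 0 < δ → μ (ball z δ ∩ nn μ Tᶜ) ≠ 0 := by
    intro T hT δ hδ hcon
    have hzT : z ∉ nn μ T := by
      rcases hT with rfl | rfl
      · exact hz1
      · exact hz2
    apply hzT
    refine ⟨min δ R, lt_min hδ hR0, ?_⟩
    have hsub : ball z (min δ R) ∩ T ⊆ (ball z δ ∩ nn μ Tᶜ) ∪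
        ((nn μ T ∩ T) ∪ (closedBall z R ∩ ifc O μ S)) := by
      intro y hy
      have hyR : y ∈ closedBall z R :=
        ball_subset_closedBall (ball_subset_ball (min_le_right _ _) hy.1)
      by_cases h1 : y ∈ nn μ Tᶜ
      · exact Or.inl ⟨ball_subset_ball (min_le_left _ _) hy.1, h1⟩
      · by_cases h2 : y ∈ nn μ T
        · exact Or.inr (Or.inl ⟨h2, hy.2⟩)
        · refine Or.inr (Or.inr ⟨hyR, hcO hyR, ?_⟩)
          rintro (h3 | h3)
          · rcases hT with rfl | rfl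
            · exact h2 h3
            · rw [compl_compl] at h1
              exact h1 h3
          · rcases hT with rfl | rfl
            · exact h1 h3
            · exact h2 h3
    refine measure_mono_null hsub ?_
    rw [measure_union_null_iff, measure_union_null_iff]
    exact ⟨hcon, measure_nn μ T, hnull⟩
  have hbR : ∀ r : ℝ, 0 < r → r ≤ R → ball z r ⊆ O := fun r _ hr =>
    (ball_subset_closedBall.trans (closedBall_subset_closedBall hr)).trans hcO
  have hA := stat_side hm hS hO hOU S h0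
  have hB := stat_side' hm hS hO hOU S h0
  have hdens : q + q' ≤ density m μ z := by
    unfold density
    apply le_limsup_of_frequently_le' 
    apply Eventually.frequently
    filter_upwards [Ioc_mem_nhdsGT hR0] with r hr
    have h1 := lower_side hOU hA hq hqS hr.1 (hbR r hr.1 hr.2) (key S (Or.inl rfl))
    have hB' : Stat m O (μ.restrict (nn μ (Sᶜ)ᶜ)) P := by rwa [compl_compl]
    have h2 := lower_side hOU hB' hq' hqS' hr.1 (hbR r hr.1 hr.2) (key Sᶜ (Or.inr rfl))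
    rw [compl_compl] at h2
    have hr' : ENNReal.ofReal r ≠ 0 := (ENNReal.ofReal_pos.2 hr.1).ne'
    rw [ENNReal.le_div_iff_mul_le (Or.inl (mul_ne_zero (omega_pos m) (pow_ne_zero _ hr')))
      (Or.inl (ENNReal.mul_ne_top (omega_lt m) (ENNReal.pow_ne_top ENNReal.ofReal_ne_top))),
      add_mul]
    refine (add_le_add h1 h2).trans ?_
    have hdis : μ ((ball z r ∩ nn μ Sᶜ) ∩ (ball z r ∩ nn μ S)) = 0 := by
      refine measure_mono_null ?_ (μ.measure_compl_support)
      intro y hy hys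
      have : y ∈ μ.support ∩ univ ∩ nn μ Sᶜ ∩ nn μ S := ⟨⟨⟨hys, mem_univ _⟩, hy.1.2⟩, hy.2.2⟩
      rw [nn_disj] at this
      exact this
    rw [← measure_union₀ (measurableSet_ball.inter (isOpen_nn μ S).measurableSet).nullMeasurableSet
      hdis]
    exact measure_mono (union_subset inter_subset_left inter_subset_left)
  exact absurd (hlt z (hOU hzO)) (not_lt.2 hdens)

/-- no interface point has a neighbourhood with a uniform small density of one side -/
lemma uniform {m : ℕ} (hm : 1 ≤ m) {U O : Set (E N)} {μ : Measure (E N)}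
    {P : E N → E N →L[ℝ] E N} (hS : Stat m U μ P) (hO : IsOpen O) (hOU : O ⊆ U) {S : Set (E N)}
    {q : ℝ≥0∞} (hq : q ≠ ⊤)
    (hqS : ∀ᵐ x ∂(μ.restrict U), x ∈ S → q ≤ density m μ x)
    {c : ℝ≥0∞} (hc : c * 2 ^ m < q) {r₀ : ℝ} (hr₀ : 0 < r₀)
    (hun : ∀ z ∈ ifc O μ S, ∀ r : ℝ, 0 < r → r < r₀ → μ (ball z r ∩ S) ≤
      c * (volume (ball (0 : EuclideanSpace ℝ (Fin m)) 1) * ENNReal.ofReal r ^ m)) :
    ifc O μ S = ∅ := by
  rw [eq_empty_iff_forall_notMem]
  intro z₂ hz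
  have hzO : z₂ ∈ O := hz.1
  obtain ⟨R₀, hR₀, hRO⟩ := Metric.isOpen_iff.1 hO z₂ hzO
  set δ₀ : ℝ := min (R₀ / 2) r₀ with hδ₀
  have hδ₀0 : 0 < δ₀ := lt_min (by positivity) hr₀
  have hcO : closedBall z₂ δ₀ ⊆ O := by
    refine (closedBall_subset_ball ?_).trans hRO
    have : δ₀ ≤ R₀ / 2 := min_le_left _ _
    linarith
  have hδr : δ₀ ≤ r₀ := min_le_right _ _
  set δ : ℝ := δ₀ / 4 with hδ
  have hδ0 : 0 < δ := by positivity
  have hz1 : z₂ ∉ nn μ S := fun h => hz.2 (Or.inl h)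
  have hz2 : z₂ ∉ nn μ Sᶜ := fun h => hz.2 (Or.inr h)
  set ω := volume (ball (0 : EuclideanSpace ℝ (Fin m)) 1) with hω
  have hω0 : ω ≠ 0 := omega_pos m
  have hω1 : ω ≠ ⊤ := omega_lt m
  have hcd : ∀ r : ℝ, 0 < r → c * (ω * ENNReal.ofReal (2 * r) ^ m) =
      (c * 2 ^ m) * (ω * ENNReal.ofReal r ^ m) := by
    intro r hr
    rw [ENNReal.ofReal_mul (by norm_num), mul_pow]
    have : ENNReal.ofReal (2:ℝ) = 2 := by simp
    rw [this]
    ring
  -- (a) the interface carries no mass of S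
  have ha : μ (ball z₂ δ ∩ (S ∩ ifc O μ S)) = 0 := by
    by_contra hne
    have hfin : IsFiniteMeasure (μ.restrict (closedBall z₂ δ₀)) :=
      ⟨by simpa using hS.fin _ (hcO.trans hOU) (isCompact_closedBall z₂ δ₀)⟩
    set μ' := μ.restrict (closedBall z₂ δ₀) with hμ'
    set S₀ := ball z₂ δ ∩ (S ∩ ifc O μ S) with hS₀
    have hbsub : ball z₂ δ ⊆ closedBall z₂ δ₀ :=
      ball_subset_closedBall.trans (closedBall_subset_closedBall (by rw [hδ]; linarith))
    have hS₀sub : S₀ ⊆ closedBall z₂ δ₀ := inter_subset_left.trans hbsub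
    have hμS₀ : μ' S₀ ≠ 0 := by
      rw [hμ', Measure.restrict_apply' isClosed_closedBall.measurableSet, inter_eq_left.2 hS₀sub]
      exact hne
    have hdt := Besicovitch.ae_tendsto_measure_inter_div μ' S₀
    have hq2 : ∀ᵐ x ∂(μ'.restrict S₀), x ∈ S → q ≤ density m μ x := by
      have h1 : μ'.restrict S₀ ≤ μ.restrict U := by
        rw [hμ']
        refine Measure.restrict_le_self.trans ?_
        exact Measure.restrict_mono (hcO.trans hOU) le_rfl
      exact ae_mono h1 hqS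
    obtain ⟨x, hxS₀, hx1, hx2⟩ := Measure.exists_mem_of_measure_ne_zero_of_ae hμS₀ (hdt.and hq2)
    have hxS : x ∈ S := hxS₀.2.1
    have hxI : x ∈ ifc O μ S := hxS₀.2.2
    have hxq := hx2 hxS
    have hq0 : q ≠ 0 := (lt_of_le_of_lt zero_le hc).ne'
    have hbd : ∀ᶠ r : ℝ in 𝓝[>] 0, μ' (S₀ ∩ closedBall x r) / μ' (closedBall x r) ≤
        (c * 2 ^ m) / q := by
      filter_upwards [Ioc_mem_nhdsGT hδ0] with r hr
      have hr' : ENNReal.ofReal r ≠ 0 := (ENNReal.ofReal_pos.2 hr.1).ne'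
      have hxδ : dist x z₂ < δ := mem_ball.1 hxS₀.1
      have hsub : closedBall x r ⊆ closedBall z₂ δ₀ := by
        apply closedBall_subset_closedBall'
        have := hr.2
        rw [hδ] at this hxδ
        linarith
      have h1 : μ' (S₀ ∩ closedBall x r) ≤ (c * 2 ^ m) * (ω * ENNReal.ofReal r ^ m) := by
        refine (Measure.restrict_apply_le _ _).trans ?_
        refine (measure_mono ?_).trans ((hun x hxI (2 * r) (by linarith [hr.1]) ?_).trans
          (le_of_eq (hcd r hr.1)))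
        · intro y hy
          exact ⟨closedBall_subset_ball (by linarith [hr.1]) hy.2, hy.1.2.1⟩
        · have := hr.2
          rw [hδ] at this
          linarith
      have h2 : q * (ω * ENNReal.ofReal r ^ m) ≤ μ' (closedBall x r) := by
        have h3 : μ' (closedBall x r) = μ (closedBall x r) := by
          rw [hμ', Measure.restrict_apply isClosed_closedBall.measurableSet, inter_eq_left.2 hsub]
        rw [h3]
        have h4 := density_le hS (hsub.trans (hcO.trans hOU)) hr.1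
        exact (mul_le_mul_left hxq _).trans (h4.trans (measure_mono ball_subset_closedBall))
      have hω3 : ω * ENNReal.ofReal r ^ m ≠ 0 := mul_ne_zero hω0 (pow_ne_zero _ hr')
      have hω4 : ω * ENNReal.ofReal r ^ m ≠ ⊤ :=
        ENNReal.mul_ne_top hω1 (ENNReal.pow_ne_top ENNReal.ofReal_ne_top)
      calc μ' (S₀ ∩ closedBall x r) / μ' (closedBall x r)
          ≤ ((c * 2 ^ m) * (ω * ENNReal.ofReal r ^ m)) / (q * (ω * ENNReal.ofReal r ^ m)) :=
            ENNReal.div_le_div h1 h2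
        _ = (c * 2 ^ m) / q := ENNReal.mul_div_mul_right _ _ hω3 hω4
    have h1 : (1:ℝ≥0∞) ≤ (c * 2 ^ m) / q := le_of_tendsto hx1 hbd
    have h2 : (c * 2 ^ m) / q < 1 := by
      rw [ENNReal.div_lt_iff (Or.inl hq0) (Or.inl hq), one_mul]
      exact hc
    exact absurd h1 (not_le.2 h2)
  -- (b) S-side mass near z₂
  have hb : μ (ball z₂ δ ∩ nn μ Sᶜ) ≠ 0 := by
    intro hcon
    apply hz1
    refine ⟨δ, hδ0, ?_⟩
    have hsub : ball z₂ δ ∩ S ⊆ (ball z₂ δ ∩ nn μ Sᶜ) ∪
        ((nn μ S ∩ S) ∪ (ball z₂ δ ∩ (S ∩ ifc O μ S))) := by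
      intro y hy
      by_cases h1 : y ∈ nn μ Sᶜ
      · exact Or.inl ⟨hy.1, h1⟩
      · by_cases h2 : y ∈ nn μ S
        · exact Or.inr (Or.inl ⟨h2, hy.2⟩)
        · refine Or.inr (Or.inr ⟨hy.1, hy.2, ?_, ?_⟩)
          · exact hcO (closedBall_subset_closedBall (by rw [hδ]; linarith)
              (ball_subset_closedBall hy.1))
          · rintro (h3 | h3)
            · exact h2 h3
            · exact h1 h3
    refine measure_mono_null hsub ?_
    rw [measure_union_null_iff, measure_union_null_iff]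
    exact ⟨hcon, measure_nn μ S, ha⟩
  obtain ⟨y, ⟨hyδ, hyn⟩, hys⟩ := Measure.nonempty_inter_support_of_pos (pos_iff_ne_zero.2 hb)
  rw [mem_ball] at hyδ
  -- (d) nearest interface point
  set F : Set (E N) := closedBall z₂ δ₀ ∩ (nn μ S ∪ nn μ Sᶜ)ᶜ with hF
  have hFc : IsCompact F := (isCompact_closedBall z₂ δ₀).inter_right
    ((isOpen_nn μ S).union (isOpen_nn μ Sᶜ)).isClosed_compl
  have hzF : z₂ ∈ F := ⟨mem_closedBall_self hδ₀0.le, hz.2⟩
  obtain ⟨z, hzF', hzd⟩ := hFc.exists_infDist_eq_dist ⟨z₂, hzF⟩ y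
  set ρ := dist y z with hρ
  have hρδ : ρ < δ := by
    rw [← hzd]
    exact (infDist_le_dist_of_mem hzF).trans_lt hyδ
  have hρ0 : 0 < ρ := by
    rw [hρ, dist_pos]
    rintro rfl
    exact hzF'.2 (Or.inr hyn)
  have hballO : ball y ρ ⊆ O := by
    refine (ball_subset_closedBall.trans ?_).trans hcO
    apply closedBall_subset_closedBall'
    rw [hδ] at hρδ hyδ
    linarith
  have hfree : ifc (ball y ρ) μ S = ∅ := by
    rw [eq_empty_iff_forall_notMem]
    intro w hw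
    have hwb : dist w y < ρ := mem_ball.1 hw.1
    have hwF : w ∈ F := by
      refine ⟨?_, hw.2⟩
      rw [mem_closedBall]
      have := dist_triangle w y z₂
      rw [hδ] at hρδ hyδ
      linarith
    have := infDist_le_dist_of_mem (x := y) hwF
    rw [hzd, dist_comm] at this
    rw [dist_comm] at hwb
    rw [dist_comm w y] at this
    linarith
  have hst : Stat m (ball y ρ) (μ.restrict (nn μ Sᶜ)) P := by
    apply stat_side hm hS isOpen_ball (hballO.trans hOU) S
    rw [hfree, measure_empty]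
  have hlow := lower_side (hballO.trans hOU) hst hq hqS hρ0 le_rfl (x₀ := y) (by
    intro η hη
    rw [Measure.mem_support_iff_forall] at hys
    exact (hys _ (inter_mem (ball_mem_nhds y hη) ((isOpen_nn μ Sᶜ).mem_nhds hyn))).ne')
  have hzI : z ∈ ifc O μ S := ⟨hcO hzF'.1, hzF'.2⟩
  have hup := hun z hzI (2 * ρ) (by linarith) (by rw [hδ] at hρδ; linarith)
  have hmid : μ (ball y ρ ∩ nn μ Sᶜ) ≤ μ (ball z (2 * ρ) ∩ S) := by
    have hsub : ball y ρ ∩ nn μ Sᶜ ⊆ (ball z (2 * ρ) ∩ S) ∪ (nn μ Sᶜ ∩ Sᶜ) := by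
      intro w hw
      by_cases h1 : w ∈ S
      · refine Or.inl ⟨?_, h1⟩
        rw [mem_ball]
        have h2 := mem_ball.1 hw.1
        have h3 := dist_triangle w y z
        linarith
      · exact Or.inr ⟨hw.2, h1⟩
    refine (measure_mono hsub).trans ((measure_union_le _ _).trans ?_)
    rw [measure_nn μ Sᶜ, add_zero]
  rw [hcd ρ hρ0] at hup
  have hfin : q * (ω * ENNReal.ofReal ρ ^ m) ≤ (c * 2 ^ m) * (ω * ENNReal.ofReal ρ ^ m) :=
    hlow.trans (hmid.trans hup)
  have hρ' : ENNReal.ofReal ρ ≠ 0 := (ENNReal.ofReal_pos.2 hρ0).ne'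
  have hω3 : ω * ENNReal.ofReal ρ ^ m ≠ 0 := mul_ne_zero hω0 (pow_ne_zero _ hρ')
  have hω4 : ω * ENNReal.ofReal ρ ^ m ≠ ⊤ :=
    ENNReal.mul_ne_top hω1 (ENNReal.pow_ne_top ENNReal.ofReal_ne_top)
  have := (ENNReal.mul_le_mul_iff_left hω3 hω4).1 hfin
  exact absurd hc (not_lt.2 this)

end Pool.Agent.TH337.VF
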