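import Pool.Agent.TH337.VF.Small2

/-!
The mixed cut-off argument: interfaces of finite (m-1)-dimensional measure.
-/

namespace Pool.Agent.TH337.VF

open MeasureTheory Set Filter Topology Metric
open scoped ENNReal RealInnerProductSpace

variable {N : ℕ}

/-- the one-sided density condition -/
def ZD (m : ℕ) (ν : Measure (E N)) (z : E N) : Prop :=
  Tendsto (fun r : ℝ => ν (ball z r) / ENNReal.ofReal (r ^ (((m - 1 : ℕ):ℝ) + 1))) (𝓝[>] 0) (𝓝 0)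

lemma cov_b {m : ℕ} (hm : 1 ≤ m) {U : Set (E N)} {μ β : Measure (E N)}
    {P : E N → E N →L[ℝ] E N} (hS : Stat m U μ P) (hU : IsOpen U) (hβ : β ≤ μ)
    {K F P₁ Z : Set (E N)}
    (hK : IsCompact K) (hKU : K ⊆ U) (hFK : F ⊆ K) (hF : μH[((m - 1 : ℕ):ℝ)] F ≠ ⊤)
    (hZ : μH[((m - 1 : ℕ):ℝ)] Z = 0) (hP₁ : P₁ ⊆ F) (hd : ∀ z ∈ P₁, ZD m β z)
    {ε δ : ℝ} (hε : 0 < ε) (hδ : 0 < δ) :
    ∃ (ι : Type) (_ : Countable ι) (x : ι → E N) (r : ι → ℝ),
      (∀ i, 0 < r i ∧ r i ≤ δ) ∧ (F ∩ Z) ∪ P₁ ⊆ ⋃ i, ball (x i) (r i) ∧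
      ∑' i, ENNReal.ofReal (1 / r i) * β (ball (x i) (2 * r i)) ≤ ENNReal.ofReal ε ∧
      ∑' i, ENNReal.ofReal (1 / r i) * μ (ball (x i) (2 * r i)) ≠ ⊤ := by
  obtain ⟨ρ, C, hρ, hC0, hub⟩ := upper hS hU hK hKU
  have hmin : 0 < min (ρ / 2) δ := lt_min (by linarith) hδ
  have hup : ∀ (x : E N) (r : ℝ), x ∈ K → 0 < r → r ≤ min (ρ / 2) δ →
      ENNReal.ofReal (1 / r) * μ (ball x (2 * r)) ≤
      ENNReal.ofReal (C * 2 ^ m) * ENNReal.ofReal (r ^ ((m - 1 : ℕ):ℝ)) := by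
    intro x r hx hr hrm
    have h7 : r ≤ ρ / 2 := hrm.trans (min_le_left _ _)
    have h8 := (hub x hx).2 (2 * r) (by linarith) (by linarith)
    refine (mul_le_mul_right h8 _).trans ?_
    rw [← ENNReal.ofReal_mul (by positivity), ← ENNReal.ofReal_mul (by positivity)]
    apply ENNReal.ofReal_le_ofReal
    rw [Real.rpow_natCast, mul_pow]
    have h11 : r ^ m = r ^ (m - 1) * r := by
      rw [← pow_succ, Nat.sub_add_cancel hm]
    rw [h11]
    apply le_of_eq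
    field_simp
  -- first family
  have hP₁t : μH[((m - 1 : ℕ):ℝ)] P₁ ≠ ⊤ :=
    ((measure_mono hP₁).trans_lt (lt_top_iff_ne_top.2 hF)).ne
  obtain ⟨ι₁, hι₁, x₁, r₁, h1, h2, h3, h4⟩ := cov_dens (s := ((m - 1 : ℕ):ℝ)) (Nat.cast_nonneg _)
    hP₁t hd (half_pos hε) hmin
  -- second family
  have hε' : 0 < ε / 2 / (C * 2 ^ m + 1) := by positivity
  have hZ0 : μH[((m - 1 : ℕ):ℝ)] (F ∩ Z) = 0 := measure_mono_null inter_subset_right hZ
  obtain ⟨ι₂, hι₂, x₂, r₂, g1, g2, g3⟩ := cover (s := ((m - 1 : ℕ):ℝ)) (Nat.cast_nonneg _)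
    (P := F ∩ Z) (by rw [hZ0]; exact ENNReal.zero_ne_top) hε' hmin
  rw [hZ0, zero_add] at g3
  have s1 : ∑' i, ENNReal.ofReal (1 / r₁ i) * μ (ball (x₁ i) (2 * r₁ i)) < ⊤ := by
    calc ∑' i, ENNReal.ofReal (1 / r₁ i) * μ (ball (x₁ i) (2 * r₁ i))
        ≤ ∑' i, ENNReal.ofReal (C * 2 ^ m) * ENNReal.ofReal (r₁ i ^ ((m - 1 : ℕ):ℝ)) :=
          ENNReal.tsum_le_tsum fun i => hup _ _ (hFK (hP₁ (h1 i).1)) (h1 i).2.1 (h1 i).2.2
      _ = ENNReal.ofReal (C * 2 ^ m) * ∑' i, ENNReal.ofReal (r₁ i ^ ((m - 1 : ℕ):ℝ)) :=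
          ENNReal.tsum_mul_left
      _ < ⊤ := ENNReal.mul_lt_top ENNReal.ofReal_lt_top
          (h4.trans_lt (ENNReal.add_lt_top.2 ⟨lt_top_iff_ne_top.2 hP₁t, ENNReal.ofReal_lt_top⟩))
  have s2 : ∑' i, ENNReal.ofReal (1 / r₂ i) * μ (ball (x₂ i) (2 * r₂ i)) ≤
      ENNReal.ofReal (ε / 2) := by
    calc ∑' i, ENNReal.ofReal (1 / r₂ i) * μ (ball (x₂ i) (2 * r₂ i))
        ≤ ∑' i, ENNReal.ofReal (C * 2 ^ m) * ENNReal.ofReal (r₂ i ^ ((m - 1 : ℕ):ℝ)) :=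
          ENNReal.tsum_le_tsum fun i => hup _ _ (hFK (g1 i).1.1) (g1 i).2.1 (g1 i).2.2
      _ = ENNReal.ofReal (C * 2 ^ m) * ∑' i, ENNReal.ofReal (r₂ i ^ ((m - 1 : ℕ):ℝ)) :=
          ENNReal.tsum_mul_left
      _ ≤ ENNReal.ofReal (C * 2 ^ m) * ENNReal.ofReal (ε / 2 / (C * 2 ^ m + 1)) :=
          mul_le_mul_right g3 _
      _ ≤ ENNReal.ofReal (ε / 2) := by
          rw [← ENNReal.ofReal_mul (by positivity)]
          apply ENNReal.ofReal_le_ofReal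
          rw [mul_div_assoc', div_le_iff₀ (by positivity)]
          nlinarith [hε.le]
  refine ⟨ι₁ ⊕ ι₂, inferInstance, Sum.elim x₁ x₂, Sum.elim r₁ r₂, ?_, ?_, ?_, ?_⟩
  · rintro (i | i)
    · exact ⟨(h1 i).2.1, (h1 i).2.2.trans (min_le_right _ _)⟩
    · exact ⟨(g1 i).2.1, (g1 i).2.2.trans (min_le_right _ _)⟩
  · rintro y (hy | hy)
    · obtain ⟨i, hi⟩ := mem_iUnion.1 (g2 hy)
      exact mem_iUnion.2 ⟨Sum.inr i, hi⟩
    · obtain ⟨i, hi⟩ := mem_iUnion.1 (h2 hy)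
      exact mem_iUnion.2 ⟨Sum.inl i, hi⟩
  · rw [Summable.tsum_sum ENNReal.summable ENNReal.summable]
    simp only [Sum.elim_inl, Sum.elim_inr]
    have e : ENNReal.ofReal ε = ENNReal.ofReal (ε / 2) + ENNReal.ofReal (ε / 2) := by
      rw [← ENNReal.ofReal_add (by linarith) (by linarith)]
      congr 1
      ring
    rw [e]
    refine add_le_add h3 (le_trans ?_ s2)
    exact ENNReal.tsum_le_tsum fun i => mul_le_mul_right (hβ _) _
  · rw [Summable.tsum_sum ENNReal.summable ENNReal.summable]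
    simp only [Sum.elim_inl, Sum.elim_inr]
    exact (ENNReal.add_lt_top.2 ⟨s1, s2.trans_lt ENNReal.ofReal_lt_top⟩).ne

/-- a bound for the derivative of a product -/
lemma trc_mul_bound {P : E N → E N →L[ℝ] E N} (hP : ∀ x, ‖P x‖ ≤ 1) {X : E N → E N}
    (hX : ContDiff ℝ 1 X) {f : E N → ℝ} (hf : ContDiff ℝ 1 f) (hf0 : ∀ y, 0 ≤ f y)
    {M L : ℝ} (hM : ∀ y, ‖X y‖ ≤ M) (hL : ∀ y, ‖fderiv ℝ X y‖ ≤ L) (y : E N) :
    |trc (P y ∘L fderiv ℝ (fun y => f y • X y) y)| ≤ f y * (N * L) + ‖fderiv ℝ f y‖ * M := by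
  have hfY : fderiv ℝ (fun y => f y • X y) y =
      f y • fderiv ℝ X y + (fderiv ℝ f y).smulRight (X y) := by
    have ha := ((hf.differentiable one_ne_zero y).hasFDerivAt).smul
      ((hX.differentiable one_ne_zero y).hasFDerivAt)
    exact ha.fderiv
  rw [hfY, ContinuousLinearMap.comp_add, trc_add, trc_rank, ContinuousLinearMap.comp_smul,
    trc_smul]
  have h3 : |trc (P y ∘L fderiv ℝ X y)| ≤ N * L :=
    (abs_trc_comp_le (hP y)).trans (mul_le_mul_of_nonneg_left (hL y) (Nat.cast_nonneg _))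
  have h4 : |fderiv ℝ f y (P y (X y))| ≤ ‖fderiv ℝ f y‖ * M := by
    have h5 := (fderiv ℝ f y).le_opNorm (P y (X y))
    have h6 : ‖P y (X y)‖ ≤ M := by
      refine ((P y).le_opNorm _).trans ?_
      have h7 := hP y
      have h8 := hM y
      have h9 := norm_nonneg (X y)
      nlinarith [norm_nonneg (P y)]
    exact h5.trans (mul_le_mul_of_nonneg_left h6 (norm_nonneg _))
  calc |f y * trc (P y ∘L fderiv ℝ X y) + fderiv ℝ f y (P y (X y))|
      ≤ |f y * trc (P y ∘L fderiv ℝ X y)| + |fderiv ℝ f y (P y (X y))| := abs_add_le _ _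
    _ ≤ f y * (N * L) + ‖fderiv ℝ f y‖ * M := by
        apply add_le_add _ h4
        rw [abs_mul, abs_of_nonneg (hf0 y)]
        exact mul_le_mul_of_nonneg_left h3 (hf0 y)

lemma one_sub_le_sum {ι : Type*} (t : Finset ι) (x : ι → E N) (r : ι → ℝ) {η : E N → ℝ}
    (hη0 : ∀ y, 0 ≤ η y) (hηo : ∀ y, y ∉ ⋃ i ∈ t, ball (x i) (2 * r i) → η y = 1) (y : E N) :
    1 - η y ≤ ∑ i ∈ t, (ball (x i) (2 * r i)).indicator (fun _ => (1:ℝ)) y := by
  by_cases hy : y ∈ ⋃ i ∈ t, ball (x i) (2 * r i)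
  · simp only [mem_iUnion] at hy
    obtain ⟨i, hi, hyi⟩ := hy
    have h6 : (1:ℝ) ≤ ∑ i ∈ t, (ball (x i) (2 * r i)).indicator (fun _ => (1:ℝ)) y := by
      have h7 : (ball (x i) (2 * r i)).indicator (fun _ => (1:ℝ)) y = 1 :=
        indicator_of_mem hyi _
      refine le_trans (le_of_eq h7.symm) ?_
      exact Finset.single_le_sum
        (f := fun i => (ball (x i) (2 * r i)).indicator (fun _ => (1:ℝ)) y)
        (fun j _ => indicator_nonneg (fun _ _ => zero_le_one) _) hi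
    have := hη0 y
    linarith
  · rw [hηo y hy, sub_self]
    exact Finset.sum_nonneg fun j _ => indicator_nonneg (fun _ _ => zero_le_one) _

/-- finiteness and real form of the sums -/
lemma sum_real {ι : Type*} {ν : Measure (E N)} {t : Finset ι} {x : ι → E N} {r : ι → ℝ}
    (hr : ∀ i, 0 < r i) {ε : ℝ} (hε : 0 ≤ ε)
    (hsum : ∑ i ∈ t, ENNReal.ofReal (1 / r i) * ν (ball (x i) (2 * r i)) ≤ ENNReal.ofReal ε) :
    (∀ i ∈ t, ν (ball (x i) (2 * r i)) < ⊤) ∧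
    ∑ i ∈ t, (1 / r i) * ν.real (ball (x i) (2 * r i)) ≤ ε := by
  have hball : ∀ i ∈ t, ν (ball (x i) (2 * r i)) < ⊤ := by
    intro i hi
    have h3 : ENNReal.ofReal (1 / r i) * ν (ball (x i) (2 * r i)) < ⊤ :=
      (Finset.single_le_sum (f := fun i => ENNReal.ofReal (1 / r i) *
        ν (ball (x i) (2 * r i))) (fun _ _ => zero_le) hi).trans_lt
        (hsum.trans_lt ENNReal.ofReal_lt_top)
    have h4 : ENNReal.ofReal (1 / r i) ≠ 0 :=
      (ENNReal.ofReal_pos.2 (one_div_pos.2 (hr i))).ne'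
    by_contra hcon
    rw [not_lt, top_le_iff] at hcon
    rw [hcon, ENNReal.mul_top h4] at h3
    exact lt_irrefl _ h3
  refine ⟨hball, ?_⟩
  have h4 : ENNReal.ofReal (∑ i ∈ t, (1 / r i) * ν.real (ball (x i) (2 * r i))) ≤
      ENNReal.ofReal ε := by
    refine le_trans (le_of_eq ?_) hsum
    rw [ENNReal.ofReal_sum_of_nonneg]
    · apply Finset.sum_congr rfl
      intro i hi
      rw [ENNReal.ofReal_mul (one_div_pos.2 (hr i)).le, Measure.real,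
        ENNReal.ofReal_toReal (hball i hi).ne]
    · intro i _
      have := (one_div_pos.2 (hr i)).le
      positivity
  exact (ENNReal.ofReal_le_ofReal_iff hε).1 h4

end Pool.Agent.TH337.VF
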