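import Pool.Agent.TH337.VF.Mixed

/-!
The mixed cut-off argument: main estimate.
-/

namespace Pool.Agent.TH337.VF

open MeasureTheory Set Filter Topology Metric
open scoped ENNReal RealInnerProductSpace

variable {N : ℕ}

/-- both sides together -/
lemma sum_sides {m : ℕ} {U : Set (E N)} {μ : Measure (E N)} {P : E N → E N →L[ℝ] E N}
    (hS : Stat m U μ P) {W₁ W₂ : Set (E N)} (h1 : IsOpen W₁) (h2 : IsOpen W₂)
    (h12 : μ.support ∩ U ∩ W₁ ∩ W₂ = ∅) {Y : E N → E N} (hY : ContDiff ℝ 1 Y)
    (hc : HasCompactSupport Y) (hYU : tsupport Y ⊆ U)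
    (hnull : μ ((tsupport Y ∩ μ.support) \ (W₁ ∪ W₂)) = 0) :
    ∫ y in W₁, trc (P y ∘L fderiv ℝ Y y) ∂μ = - ∫ y in W₂, trc (P y ∘L fderiv ℝ Y y) ∂μ := by
  have hst := hS.stat Y hY hc hYU
  have hint := integrable_trc hS hY hc hYU
  have e : ∫ y, trc (P y ∘L fderiv ℝ Y y) ∂μ =
      ∫ y, (W₁.indicator (fun y => trc (P y ∘L fderiv ℝ Y y)) y +
        W₂.indicator (fun y => trc (P y ∘L fderiv ℝ Y y)) y) ∂μ := by
    apply integral_congr_ae
    have hn : ∀ᵐ y ∂μ, ¬ (y ∈ (tsupport Y ∩ μ.support) \ (W₁ ∪ W₂)) := by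
      rw [ae_iff]
      simp only [not_not]
      exact hnull
    filter_upwards [Measure.support_mem_ae (μ := μ), hn] with y hy hny
    by_cases hyY : y ∈ tsupport Y
    · by_cases hy1 : y ∈ W₁
      · have hy2 : y ∉ W₂ := by
          intro h
          have : y ∈ μ.support ∩ U ∩ W₁ ∩ W₂ := ⟨⟨⟨hy, hYU hyY⟩, hy1⟩, h⟩
          rw [h12] at this
          exact this
        rw [indicator_of_mem hy1, indicator_of_notMem hy2, add_zero]
      · have hy2 : y ∈ W₂ := by
          by_contra h
          exact hny ⟨⟨hyY, hy⟩, fun hh => hh.elim hy1 h⟩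
        rw [indicator_of_notMem hy1, indicator_of_mem hy2, zero_add]
    · have hz : trc (P y ∘L fderiv ℝ Y y) = 0 := by
        rw [fderiv_zero_of_notMem hyY, ContinuousLinearMap.comp_zero, trc_zero]
      have hi : ∀ W : Set (E N), W.indicator (fun y => trc (P y ∘L fderiv ℝ Y y)) y = 0 := by
        intro W
        by_cases hw : y ∈ W
        · rw [indicator_of_mem hw, hz]
        · rw [indicator_of_notMem hw]
      rw [hi, hi, hz, add_zero]
  rw [e, integral_add (hint.indicator h1.measurableSet) (hint.indicator h2.measurableSet),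
    integral_indicator h1.measurableSet, integral_indicator h2.measurableSet] at hst
  linarith

/-- integral bound by a finite sum of indicators -/
lemma int_bound {ν : Measure (E N)} {F : E N → ℝ} {ι : Type*} {t : Finset ι}
    {x : ι → E N} {r : ι → ℝ} {c : ι → ℝ} {κ : Type*} {s : Finset κ} {y : κ → E N} {ρ : κ → ℝ}
    {d : κ → ℝ} (h1 : ∀ i ∈ t, ν (ball (x i) (2 * r i)) < ⊤)
    (h2 : ∀ i ∈ s, ν (ball (y i) (2 * ρ i)) < ⊤)
    (hF : ∀ z, |F z| ≤ ∑ i ∈ t, (ball (x i) (2 * r i)).indicator (fun _ => c i) z +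
      ∑ i ∈ s, (ball (y i) (2 * ρ i)).indicator (fun _ => d i) z) :
    |∫ z, F z ∂ν| ≤ ∑ i ∈ t, c i * ν.real (ball (x i) (2 * r i)) +
      ∑ i ∈ s, d i * ν.real (ball (y i) (2 * ρ i)) := by
  have g1 : ∀ i ∈ t, Integrable ((ball (x i) (2 * r i)).indicator (fun _ => c i)) ν := by
    intro i hi
    rw [integrable_indicator_iff measurableSet_ball]
    exact integrableOn_const (h1 i hi).ne enorm_ne_top
  have g2 : ∀ i ∈ s, Integrable ((ball (y i) (2 * ρ i)).indicator (fun _ => d i)) ν := by
    intro i hi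
    rw [integrable_indicator_iff measurableSet_ball]
    exact integrableOn_const (h2 i hi).ne enorm_ne_top
  have g3 : Integrable (fun z => ∑ i ∈ t, (ball (x i) (2 * r i)).indicator (fun _ => c i) z) ν :=
    integrable_finsetSum _ g1
  have g4 : Integrable (fun z => ∑ i ∈ s, (ball (y i) (2 * ρ i)).indicator (fun _ => d i) z) ν :=
    integrable_finsetSum _ g2
  have h3 := norm_integral_le_of_norm_le (g3.add g4)
    (f := F) (Eventually.of_forall fun z => by rw [Real.norm_eq_abs]; exact hF z)
  rw [Real.norm_eq_abs] at h3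
  refine h3.trans (le_of_eq ?_)
  have e : ∫ z, ((fun z => ∑ i ∈ t, (ball (x i) (2 * r i)).indicator (fun _ => c i) z) +
      (fun z => ∑ i ∈ s, (ball (y i) (2 * ρ i)).indicator (fun _ => d i) z)) z ∂ν =
      ∫ z, (∑ i ∈ t, (ball (x i) (2 * r i)).indicator (fun _ => c i) z) ∂ν +
      ∫ z, (∑ i ∈ s, (ball (y i) (2 * ρ i)).indicator (fun _ => d i) z) ∂ν :=
    integral_add g3 g4
  rw [e, integral_finsetSum _ g1, integral_finsetSum _ g2]
  congr 1
  · apply Finset.sum_congr rfl
    intro i _
    rw [integral_indicator measurableSet_ball, setIntegral_const, smul_eq_mul, mul_comm]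
  · apply Finset.sum_congr rfl
    intro i _
    rw [integral_indicator measurableSet_ball, setIntegral_const, smul_eq_mul, mul_comm]

lemma mixed_estimate {m : ℕ} (hm : 1 ≤ m) {U : Set (E N)} (hU : IsOpen U) {μ : Measure (E N)}
    {P : E N → E N →L[ℝ] E N}
    (hS : Stat m U μ P) {W₁ W₂ : Set (E N)} (h1 : IsOpen W₁) (h2 : IsOpen W₂)
    (h12 : μ.support ∩ U ∩ W₁ ∩ W₂ = ∅) {Z : Set (E N)}
    (hZ : μH[((m - 1 : ℕ):ℝ)] Z = 0) {X : E N → E N}
    (hX : ContDiff ℝ 1 X) (hc : HasCompactSupport X) (hXU : tsupport X ⊆ U)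
    (hFt : μH[((m - 1 : ℕ):ℝ)] ((tsupport X ∩ μ.support) \ (W₁ ∪ W₂)) ≠ ⊤)
    (hz : ∀ z ∈ (tsupport X ∩ μ.support) \ (W₁ ∪ W₂), z ∉ Z →
      ZD m (μ.restrict W₁) z ∨ ZD m (μ.restrict W₂) z) :
    ∃ A : ℝ, ∀ ε : ℝ, 0 < ε → |∫ y in W₁, trc (P y ∘L fderiv ℝ X y) ∂μ| ≤ A * ε := by
  classical
  obtain ⟨M, hM⟩ := hX.continuous.bounded_above_of_compact_support hc
  obtain ⟨L, hL⟩ := (hX.continuous_fderiv one_ne_zero).bounded_above_of_compact_support
    (hc.fderiv ℝ)
  have hM0 : 0 ≤ M := (norm_nonneg _).trans (hM 0)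
  have hL0 : 0 ≤ L := (norm_nonneg _).trans (hL 0)
  have hNL : 0 ≤ (N:ℝ) * L := by positivity
  set K : Set (E N) := tsupport X ∩ μ.support with hK
  have hKc : IsCompact K := IsCompact.inter_right hc Measure.isClosed_support
  have hKU : K ⊆ U := inter_subset_left.trans hXU
  set F : Set (E N) := K \ (W₁ ∪ W₂) with hF
  have hFK : F ⊆ K := sdiff_subset
  have hFc : IsCompact F := hKc.diff (h1.union h2)
  have hFnull : μ F = 0 := null_of_finite hm hS hU hKc hKU hFK hFt
  refine ⟨2 * (N * L) + 32 * M, ?_⟩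
  intro ε hε
  -- the b-family
  obtain ⟨ι, hι, x, r, hr, hcovb, hsumb, hsumμ⟩ := cov_b hm hS hU
    (Measure.restrict_le_self (μ := μ) (s := W₁)) hKc hKU hFK hFt hZ
    (P₁ := {z | z ∈ F ∧ ZD m (μ.restrict W₁) z}) (fun z hz => hz.1) (fun z hz => hz.2) hε one_pos
  have hrpos : ∀ i, 0 < r i := fun i => (hr i).1
  set F' : Set (E N) := F \ ⋃ i, ball (x i) (r i) with hF'
  have hF'c : IsCompact F' := hFc.diff (isOpen_iUnion fun _ => isOpen_ball)
  have hF'd : ∀ z ∈ F', ZD m (μ.restrict W₂) z := by
    intro z hzF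
    have hzZ : z ∉ Z := fun h => hzF.2 (hcovb (Or.inl ⟨hzF.1, h⟩))
    rcases hz z hzF.1 hzZ with h | h
    · exact absurd (hcovb (Or.inr ⟨hzF.1, h⟩)) hzF.2
    · exact h
  -- the tail
  obtain ⟨t₀, ht₀⟩ := ((ENNReal.tendsto_tsum_compl_atTop_zero hsumμ).eventually
    (gt_mem_nhds (ENNReal.ofReal_pos.2 hε))).exists
  set S₀ : ℝ := ∑ i ∈ t₀, 1 / r i with hS₀
  have hS₀0 : 0 ≤ S₀ := Finset.sum_nonneg fun i _ => (one_div_pos.2 (hrpos i)).le
  set τ : ℝ := min 1 (1 / (S₀ + 1)) with hτ
  have hτ0 : 0 < τ := lt_min one_pos (by positivity)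
  -- the a-family
  have hF't : μH[((m - 1 : ℕ):ℝ)] F' ≠ ⊤ :=
    ((measure_mono sdiff_subset).trans_lt (lt_top_iff_ne_top.2 hFt)).ne
  obtain ⟨κ, hκ, y, ρ, hρ, hcova, hsuma, -⟩ := cov_dens (s := ((m - 1 : ℕ):ℝ)) (Nat.cast_nonneg _)
    hF't hF'd hε hτ0
  have hρpos : ∀ j, 0 < ρ j := fun j => (hρ j).2.1
  obtain ⟨ta, hta⟩ := hF'c.elim_finite_subcover _ (fun _ => isOpen_ball) hcova
  -- the remaining part is covered by the b-family
  have hF''c : IsCompact (F \ ⋃ j ∈ ta, ball (y j) (ρ j)) :=
    hFc.diff (isOpen_biUnion fun _ _ => isOpen_ball)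
  have hF''b : F \ ⋃ j ∈ ta, ball (y j) (ρ j) ⊆ ⋃ i, ball (x i) (r i) := by
    intro z hzF
    by_contra hcon
    exact hzF.2 (hta ⟨hzF.1, hcon⟩)
  obtain ⟨tb, htb⟩ := hF''c.elim_finite_subcover _ (fun _ => isOpen_ball) hF''b
  obtain ⟨ηb, hbc, hb0, hb1, hbz, hbo, hbd⟩ := cutoff tb x r (fun i _ => hrpos i)
  obtain ⟨ηa, hac, ha0, ha1, haz, hao, had⟩ := cutoff ta y ρ (fun i _ => hρpos i)
  have hsb := one_sub_le_sum tb x r hb0 hbo
  have hsa := one_sub_le_sum ta y ρ ha0 hao
  -- the three pieces
  have hf₀ : ContDiff ℝ 1 (fun z => ηa z * ηb z) := hac.mul hbc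
  have hf₁ : ContDiff ℝ 1 (fun z => 1 - ηb z) := contDiff_const.sub hbc
  have hf₂ : ContDiff ℝ 1 (fun z => ηb z * (1 - ηa z)) := hbc.mul (contDiff_const.sub hac)
  have hcomp : ∀ f : E N → ℝ, tsupport (fun z => f z • X z) ⊆ tsupport X := by
    intro f
    apply closure_mono
    intro z hz
    by_contra hcon
    apply hz
    show f z • X z = 0
    have : X z = 0 := by simpa using hcon
    rw [this, smul_zero]
  have hcs : ∀ f : E N → ℝ, HasCompactSupport (fun z => f z • X z) := fun f =>
    hc.of_isClosed_subset (isClosed_tsupport _) (hcomp f)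
  have hX₀ : ContDiff ℝ 1 (fun z => (ηa z * ηb z) • X z) := hf₀.smul hX
  have hX₁ : ContDiff ℝ 1 (fun z => (1 - ηb z) • X z) := hf₁.smul hX
  have hX₂ : ContDiff ℝ 1 (fun z => (ηb z * (1 - ηa z)) • X z) := hf₂.smul hX
  have hXeq : X = fun z => (ηa z * ηb z) • X z + ((1 - ηb z) • X z +
      (ηb z * (1 - ηa z)) • X z) := by
    funext z
    rw [← add_smul, ← add_smul]
    have : ηa z * ηb z + (1 - ηb z + ηb z * (1 - ηa z)) = 1 := by ring
    rw [this, one_smul]
  have hsplit : ∀ z, trc (P z ∘L fderiv ℝ X z) =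
      trc (P z ∘L fderiv ℝ (fun z => (ηa z * ηb z) • X z) z) +
      (trc (P z ∘L fderiv ℝ (fun z => (1 - ηb z) • X z) z) +
       trc (P z ∘L fderiv ℝ (fun z => (ηb z * (1 - ηa z)) • X z) z)) := by
    intro z
    have e0 : fderiv ℝ X z = fderiv ℝ (fun z => (ηa z * ηb z) • X z) z +
        (fderiv ℝ (fun z => (1 - ηb z) • X z) z +
          fderiv ℝ (fun z => (ηb z * (1 - ηa z)) • X z) z) := by
      conv_lhs => rw [hXeq]
      have d0 := (hX₀.differentiable one_ne_zero z).hasFDerivAt
      have d1 := (hX₁.differentiable one_ne_zero z).hasFDerivAt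
      have d2 := (hX₂.differentiable one_ne_zero z).hasFDerivAt
      exact (d0.add (d1.add d2)).fderiv
    rw [e0, ContinuousLinearMap.comp_add, trc_add, ContinuousLinearMap.comp_add, trc_add]
  have i0 := (integrable_trc hS hX₀ (hcs _) ((hcomp _).trans hXU)).restrict (s := W₁)
  have i1 := (integrable_trc hS hX₁ (hcs _) ((hcomp _).trans hXU)).restrict (s := W₁)
  have i2 := (integrable_trc hS hX₂ (hcs _) ((hcomp _).trans hXU)).restrict (s := W₁)
  have etot : ∫ z in W₁, trc (P z ∘L fderiv ℝ X z) ∂μ =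
      ∫ z in W₁, trc (P z ∘L fderiv ℝ (fun z => (ηa z * ηb z) • X z) z) ∂μ +
      (∫ z in W₁, trc (P z ∘L fderiv ℝ (fun z => (1 - ηb z) • X z) z) ∂μ +
       ∫ z in W₁, trc (P z ∘L fderiv ℝ (fun z => (ηb z * (1 - ηa z)) • X z) z) ∂μ) := by
    have i12 : Integrable (fun z => trc (P z ∘L fderiv ℝ (fun z => (1 - ηb z) • X z) z) +
        trc (P z ∘L fderiv ℝ (fun z => (ηb z * (1 - ηa z)) • X z) z)) (μ.restrict W₁) :=
      i1.add i2
    have e1 := integral_add i1 i2
    have e2 := integral_add i0 i12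
    rw [← e1, ← e2]
    apply integral_congr_ae
    filter_upwards with z
    exact hsplit z
  -- piece 0
  have hsep : tsupport (fun z => (ηa z * ηb z) • X z) ∩ μ.support ⊆ W₁ ∪ W₂ := by
    intro w hw
    by_contra hcon
    have hwF : w ∈ F := ⟨⟨hcomp _ hw.1, hw.2⟩, hcon⟩
    have hnear : w ∉ tsupport (fun z => (ηa z * ηb z) • X z) := by
      rw [notMem_tsupport_iff_eventuallyEq]
      by_cases hwa : w ∈ ⋃ j ∈ ta, ball (y j) (ρ j)
      · have hopen : IsOpen (⋃ j ∈ ta, ball (y j) (ρ j)) :=
          isOpen_biUnion fun j _ => isOpen_ball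
        filter_upwards [hopen.mem_nhds hwa] with z hz
        simp [haz z hz]
      · have hwb := htb ⟨hwF, hwa⟩
        have hopen : IsOpen (⋃ i ∈ tb, ball (x i) (r i)) :=
          isOpen_biUnion fun i _ => isOpen_ball
        filter_upwards [hopen.mem_nhds hwb] with z hz
        simp [hbz z hz]
    exact hnear hw.1
  have p0 := separated hS h1 h2 h12 hX₀ (hcs _) ((hcomp _).trans hXU) hsep
  -- piece 1
  have hsumb' : ∑ i ∈ tb, ENNReal.ofReal (1 / r i) * (μ.restrict W₁) (ball (x i) (2 * r i)) ≤
      ENNReal.ofReal ε := (ENNReal.sum_le_tsum tb).trans hsumb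
  obtain ⟨qb1, qb2⟩ := sum_real hrpos hε.le hsumb'
  have p1 : |∫ z in W₁, trc (P z ∘L fderiv ℝ (fun z => (1 - ηb z) • X z) z) ∂μ| ≤
      (N * L + 8 * M) * ε := by
    have hb := int_bound (ν := μ.restrict W₁)
      (F := fun z => trc (P z ∘L fderiv ℝ (fun z => (1 - ηb z) • X z) z))
      (t := tb) (x := x) (r := r) (c := fun i => N * L + 8 * M / r i)
      (s := (∅ : Finset ι)) (y := x) (ρ := r) (d := fun _ => 0) qb1 (by simp) (by
        intro z
        refine (trc_mul_bound hS.nrm hX hf₁ (fun z => by have := hb1 z; linarith) hM hL z).trans ?_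
        have hd : ‖fderiv ℝ (fun z => 1 - ηb z) z‖ = ‖fderiv ℝ ηb z‖ := by
          rw [fderiv_const_sub, norm_neg]
        rw [hd]
        simp only [Finset.sum_empty, add_zero]
        calc (1 - ηb z) * (N * L) + ‖fderiv ℝ ηb z‖ * M
            ≤ (∑ i ∈ tb, (ball (x i) (2 * r i)).indicator (fun _ => (1:ℝ)) z) * (N * L) +
              (∑ i ∈ tb, (ball (x i) (2 * r i)).indicator (fun _ => 8 / r i) z) * M :=
              add_le_add (mul_le_mul_of_nonneg_right (hsb z) hNL)
                (mul_le_mul_of_nonneg_right (hbd z) hM0)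
          _ = ∑ i ∈ tb, (ball (x i) (2 * r i)).indicator (fun _ => N * L + 8 * M / r i) z := by
              rw [Finset.sum_mul, Finset.sum_mul, ← Finset.sum_add_distrib]
              apply Finset.sum_congr rfl
              intro i _
              by_cases hy : z ∈ ball (x i) (2 * r i)
              · simp only [indicator_of_mem hy]
                ring
              · simp only [indicator_of_notMem hy]
                ring)
    refine hb.trans ?_
    simp only [Finset.sum_empty, add_zero]
    calc ∑ i ∈ tb, (N * L + 8 * M / r i) * (μ.restrict W₁).real (ball (x i) (2 * r i))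
        ≤ ∑ i ∈ tb, (N * L + 8 * M) * ((1 / r i) * (μ.restrict W₁).real (ball (x i) (2 * r i))) := by
          apply Finset.sum_le_sum
          intro i _
          have h8 : 0 ≤ (μ.restrict W₁).real (ball (x i) (2 * r i)) := measureReal_nonneg
          have h10 : 1 ≤ 1 / r i := by
            rw [le_div_iff₀ (hrpos i), one_mul]
            exact (hr i).2
          have h9 : N * L + 8 * M / r i ≤ (N * L + 8 * M) * (1 / r i) := by
            have e : (N * L + 8 * M) * (1 / r i) = N * L * (1 / r i) + 8 * M / r i := by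
              field_simp
            rw [e]
            nlinarith
          calc (N * L + 8 * M / r i) * (μ.restrict W₁).real (ball (x i) (2 * r i))
              ≤ ((N * L + 8 * M) * (1 / r i)) * (μ.restrict W₁).real (ball (x i) (2 * r i)) :=
                mul_le_mul_of_nonneg_right h9 h8
            _ = _ := by ring
      _ = (N * L + 8 * M) * ∑ i ∈ tb, ((1 / r i) * (μ.restrict W₁).real (ball (x i) (2 * r i))) := by
          rw [Finset.mul_sum]
      _ ≤ (N * L + 8 * M) * ε := mul_le_mul_of_nonneg_left qb2 (by positivity)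
  -- piece 2
  have hnull2 : μ ((tsupport (fun z => (ηb z * (1 - ηa z)) • X z) ∩ μ.support) \ (W₁ ∪ W₂)) = 0 :=
    by
      have hsub : (tsupport (fun z => (ηb z * (1 - ηa z)) • X z) ∩ μ.support) \ (W₁ ∪ W₂) ⊆ F := by
        intro w hw
        exact ⟨⟨hcomp _ hw.1.1, hw.1.2⟩, hw.2⟩
      exact measure_mono_null hsub hFnull
  have p2e := sum_sides hS h1 h2 h12 hX₂ (hcs _) ((hcomp _).trans hXU) hnull2
  have hsuma' : ∑ j ∈ ta, ENNReal.ofReal (1 / ρ j) * (μ.restrict W₂) (ball (y j) (2 * ρ j)) ≤
      ENNReal.ofReal ε := (ENNReal.sum_le_tsum ta).trans hsuma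
  obtain ⟨qa1, qa2⟩ := sum_real hρpos hε.le hsuma'
  have hsumt : ∑ i ∈ tb with i ∉ t₀, ENNReal.ofReal (1 / r i) *
      (μ.restrict W₂) (ball (x i) (2 * r i)) ≤ ENNReal.ofReal ε := by
    refine le_trans ?_ ht₀.le
    rw [← Finset.sum_subtype_eq_sum_filter]
    refine le_trans ?_ (ENNReal.sum_le_tsum (tb.subtype (fun i => i ∉ t₀)))
    exact Finset.sum_le_sum fun i _ => mul_le_mul_right (Measure.restrict_apply_le _ _) _
  obtain ⟨qt1, qt2⟩ := sum_real hrpos hε.le hsumt
  have p2 : |∫ z in W₂, trc (P z ∘L fderiv ℝ (fun z => (ηb z * (1 - ηa z)) • X z) z) ∂μ| ≤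
      (N * L + 24 * M) * ε := by
    have hb := int_bound (ν := μ.restrict W₂)
      (F := fun z => trc (P z ∘L fderiv ℝ (fun z => (ηb z * (1 - ηa z)) • X z) z))
      (t := ta) (x := y) (r := ρ) (c := fun j => N * L + 8 * M / ρ j + 8 * M * S₀)
      (s := tb.filter (fun i => i ∉ t₀)) (y := x) (ρ := r) (d := fun i => 8 * M / r i) qa1 qt1 (by
        intro z
        refine (trc_mul_bound hS.nrm hX hf₂ (fun z => mul_nonneg (hb0 z)
          (by have := ha1 z; linarith)) hM hL z).trans ?_
        have ga : 0 ≤ 1 - ηa z := by have := ha1 z; linarith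
        have ga1 : 1 - ηa z ≤ 1 := by have := ha0 z; linarith
        have hd : ‖fderiv ℝ (fun z => ηb z * (1 - ηa z)) z‖ ≤
            (1 - ηa z) * ‖fderiv ℝ ηb z‖ + ‖fderiv ℝ ηa z‖ := by
          have e : fderiv ℝ (fun z => ηb z * (1 - ηa z)) z =
              ηb z • (-(fderiv ℝ ηa z)) + (1 - ηa z) • fderiv ℝ ηb z := by
            have d1 := (hbc.differentiable one_ne_zero z).hasFDerivAt
            have d2 := ((hac.differentiable one_ne_zero z).hasFDerivAt).const_sub 1
            exact (d1.mul d2).fderiv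
          rw [e]
          refine (norm_add_le _ _).trans ?_
          rw [norm_smul, norm_smul, norm_neg, Real.norm_eq_abs, Real.norm_eq_abs,
            abs_of_nonneg (hb0 z), abs_of_nonneg ga]
          have := hb1 z
          have h9 := norm_nonneg (fderiv ℝ ηa z)
          nlinarith [hb0 z]
        -- the product term
        have hprod : (1 - ηa z) * ‖fderiv ℝ ηb z‖ ≤
            8 * S₀ * (∑ j ∈ ta, (ball (y j) (2 * ρ j)).indicator (fun _ => (1:ℝ)) z) +
            ∑ i ∈ tb with i ∉ t₀, (ball (x i) (2 * r i)).indicator (fun _ => 8 / r i) z := by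
          have hi0 : ∀ i, 0 ≤ (ball (x i) (2 * r i)).indicator (fun _ => 8 / r i) z := fun i =>
            indicator_nonneg (fun _ _ => by have := hrpos i; positivity) _
          have hi1 : ∀ i, (ball (x i) (2 * r i)).indicator (fun _ => 8 / r i) z ≤ 8 / r i := by
            intro i
            have := hrpos i
            by_cases hy : z ∈ ball (x i) (2 * r i)
            · rw [indicator_of_mem hy]
            · rw [indicator_of_notMem hy]
              positivity
          have hsumI : 0 ≤ ∑ j ∈ ta, (ball (y j) (2 * ρ j)).indicator (fun _ => (1:ℝ)) z :=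
            Finset.sum_nonneg fun j _ => indicator_nonneg (fun _ _ => zero_le_one) _
          have hfin0 : ∑ i ∈ tb with i ∈ t₀, (ball (x i) (2 * r i)).indicator
              (fun _ => 8 / r i) z ≤ 8 * S₀ := by
            calc ∑ i ∈ tb with i ∈ t₀, (ball (x i) (2 * r i)).indicator (fun _ => 8 / r i) z
                ≤ ∑ i ∈ tb with i ∈ t₀, 8 / r i := Finset.sum_le_sum fun i _ => hi1 i
              _ ≤ ∑ i ∈ t₀, 8 / r i := by
                  apply Finset.sum_le_sum_of_subset_of_nonneg
                  · intro i hi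
                    exact (Finset.mem_filter.1 hi).2
                  · intro i _ _
                    have := hrpos i
                    positivity
              _ = 8 * S₀ := by
                  rw [hS₀, Finset.mul_sum]
                  apply Finset.sum_congr rfl
                  intro i _
                  ring
          calc (1 - ηa z) * ‖fderiv ℝ ηb z‖
              ≤ (1 - ηa z) * ∑ i ∈ tb, (ball (x i) (2 * r i)).indicator (fun _ => 8 / r i) z :=
                mul_le_mul_of_nonneg_left (hbd z) ga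
            _ = (1 - ηa z) * (∑ i ∈ tb with i ∈ t₀, (ball (x i) (2 * r i)).indicator
                  (fun _ => 8 / r i) z) +
                (1 - ηa z) * ∑ i ∈ tb with i ∉ t₀, (ball (x i) (2 * r i)).indicator
                  (fun _ => 8 / r i) z := by
                rw [← mul_add, Finset.sum_filter_add_sum_filter_not]
            _ ≤ 8 * S₀ * (∑ j ∈ ta, (ball (y j) (2 * ρ j)).indicator (fun _ => (1:ℝ)) z) +
                ∑ i ∈ tb with i ∉ t₀, (ball (x i) (2 * r i)).indicator (fun _ => 8 / r i) z := by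
                apply add_le_add
                · calc (1 - ηa z) * (∑ i ∈ tb with i ∈ t₀, (ball (x i) (2 * r i)).indicator
                        (fun _ => 8 / r i) z)
                      ≤ (∑ j ∈ ta, (ball (y j) (2 * ρ j)).indicator (fun _ => (1:ℝ)) z) *
                        (8 * S₀) := mul_le_mul (hsa z) hfin0
                          (Finset.sum_nonneg fun i _ => hi0 i) hsumI
                    _ = _ := by ring
                · have h11 : 0 ≤ ∑ i ∈ tb with i ∉ t₀, (ball (x i) (2 * r i)).indicator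
                      (fun _ => 8 / r i) z := Finset.sum_nonneg fun i _ => hi0 i
                  nlinarith
        have hfle : ηb z * (1 - ηa z) ≤
            ∑ j ∈ ta, (ball (y j) (2 * ρ j)).indicator (fun _ => (1:ℝ)) z := by
          have := hb1 z
          have h3 := hsa z
          nlinarith [hb0 z]
        calc ηb z * (1 - ηa z) * (N * L) + ‖fderiv ℝ (fun z => ηb z * (1 - ηa z)) z‖ * M
            ≤ (∑ j ∈ ta, (ball (y j) (2 * ρ j)).indicator (fun _ => (1:ℝ)) z) * (N * L) +
              ((8 * S₀ * (∑ j ∈ ta, (ball (y j) (2 * ρ j)).indicator (fun _ => (1:ℝ)) z) +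
                ∑ i ∈ tb with i ∉ t₀, (ball (x i) (2 * r i)).indicator (fun _ => 8 / r i) z) +
               ∑ j ∈ ta, (ball (y j) (2 * ρ j)).indicator (fun _ => 8 / ρ j) z) * M := by
              apply add_le_add
              · exact mul_le_mul_of_nonneg_right hfle hNL
              · apply mul_le_mul_of_nonneg_right _ hM0
                exact hd.trans (add_le_add hprod (had z))
          _ = (∑ j ∈ ta, (ball (y j) (2 * ρ j)).indicator (fun _ => (1:ℝ)) z) * (N * L) +
              (∑ j ∈ ta, (ball (y j) (2 * ρ j)).indicator (fun _ => 8 / ρ j) z) * M +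
              (∑ j ∈ ta, (ball (y j) (2 * ρ j)).indicator (fun _ => (1:ℝ)) z) * (8 * M * S₀) +
              (∑ i ∈ tb with i ∉ t₀, (ball (x i) (2 * r i)).indicator (fun _ => 8 / r i) z) * M := by
              ring
          _ = ∑ j ∈ ta, (ball (y j) (2 * ρ j)).indicator
                (fun _ => N * L + 8 * M / ρ j + 8 * M * S₀) z +
              ∑ i ∈ tb with i ∉ t₀, (ball (x i) (2 * r i)).indicator (fun _ => 8 * M / r i) z := by
              congr 1
              · rw [Finset.sum_mul, Finset.sum_mul, Finset.sum_mul, ← Finset.sum_add_distrib,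
                  ← Finset.sum_add_distrib]
                apply Finset.sum_congr rfl
                intro j _
                by_cases hy : z ∈ ball (y j) (2 * ρ j)
                · simp only [indicator_of_mem hy]
                  ring
                · simp only [indicator_of_notMem hy]
                  ring
              · rw [Finset.sum_mul]
                apply Finset.sum_congr rfl
                intro i _
                by_cases hy : z ∈ ball (x i) (2 * r i)
                · simp only [indicator_of_mem hy]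
                  ring
                · simp only [indicator_of_notMem hy]
                  ring)
    refine hb.trans ?_
    have c1 : ∑ j ∈ ta, (N * L + 8 * M / ρ j + 8 * M * S₀) *
        (μ.restrict W₂).real (ball (y j) (2 * ρ j)) ≤ (N * L + 16 * M) * ε := by
      calc ∑ j ∈ ta, (N * L + 8 * M / ρ j + 8 * M * S₀) *
            (μ.restrict W₂).real (ball (y j) (2 * ρ j))
          ≤ ∑ j ∈ ta, (N * L + 16 * M) *
            ((1 / ρ j) * (μ.restrict W₂).real (ball (y j) (2 * ρ j))) := by
            apply Finset.sum_le_sum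
            intro j _
            have h8 : 0 ≤ (μ.restrict W₂).real (ball (y j) (2 * ρ j)) := measureReal_nonneg
            have h7 : ρ j ≤ 1 := (hρ j).2.2.trans (min_le_left _ _)
            have h6 : ρ j ≤ 1 / (S₀ + 1) := (hρ j).2.2.trans (min_le_right _ _)
            have h10 : 1 ≤ 1 / ρ j := by
              rw [le_div_iff₀ (hρpos j), one_mul]
              exact h7
            have h12 : S₀ ≤ 1 / ρ j := by
              rw [le_div_iff₀ (hρpos j)]
              rw [le_div_iff₀ (by positivity)] at h6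
              nlinarith [hρpos j]
            have h9 : N * L + 8 * M / ρ j + 8 * M * S₀ ≤ (N * L + 16 * M) * (1 / ρ j) := by
              have e : (N * L + 16 * M) * (1 / ρ j) =
                  N * L * (1 / ρ j) + 8 * M / ρ j + 8 * M * (1 / ρ j) := by
                field_simp
                ring
              rw [e]
              nlinarith
            calc (N * L + 8 * M / ρ j + 8 * M * S₀) *
                  (μ.restrict W₂).real (ball (y j) (2 * ρ j))
                ≤ ((N * L + 16 * M) * (1 / ρ j)) *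
                  (μ.restrict W₂).real (ball (y j) (2 * ρ j)) := mul_le_mul_of_nonneg_right h9 h8
              _ = _ := by ring
        _ = (N * L + 16 * M) * ∑ j ∈ ta,
            ((1 / ρ j) * (μ.restrict W₂).real (ball (y j) (2 * ρ j))) := by
            rw [Finset.mul_sum]
        _ ≤ (N * L + 16 * M) * ε := mul_le_mul_of_nonneg_left qa2 (by positivity)
    have c2 : ∑ i ∈ tb with i ∉ t₀, 8 * M / r i *
        (μ.restrict W₂).real (ball (x i) (2 * r i)) ≤ (8 * M) * ε := by
      calc ∑ i ∈ tb with i ∉ t₀, 8 * M / r i *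
            (μ.restrict W₂).real (ball (x i) (2 * r i))
          = (8 * M) * ∑ i ∈ tb with i ∉ t₀,
            ((1 / r i) * (μ.restrict W₂).real (ball (x i) (2 * r i))) := by
            rw [Finset.mul_sum]
            apply Finset.sum_congr rfl
            intro i _
            ring
        _ ≤ (8 * M) * ε := mul_le_mul_of_nonneg_left qt2 (by positivity)
    linarith
  rw [etot, p0, zero_add, p2e]
  have h3 := abs_le.1 p1
  have h4 := abs_le.1 p2
  rw [abs_le]
  constructor <;> nlinarith [h3.1, h3.2, h4.1, h4.2]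

end Pool.Agent.TH337.VF
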