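import Pool.Agent.TH337.VF.Defs

/-!
Monotonicity formula for stationary varifolds.
-/

namespace Pool.Agent.TH337.VF

open MeasureTheory Set Filter Topology Metric
open scoped ENNReal RealInnerProductSpace

variable {N : ℕ}

/-- radial vector field -/
noncomputable def rad (g : ℝ → ℝ) (a : E N) (y : E N) : E N := g (‖y - a‖ ^ 2) • (y - a)

lemma hasFDerivAt_sq (a y : E N) :
    HasFDerivAt (fun y : E N => ‖y - a‖ ^ 2) ((2:ℝ) • innerSL ℝ (y - a)) y := by
  have h := ((hasFDerivAt_id y).sub_const a).norm_sq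
  have e : (2:ℝ) • innerSL ℝ (y - a) =
      2 • (innerSL ℝ (id y - a)).comp (ContinuousLinearMap.id ℝ (E N)) := by
    ext v
    simp [two_smul]
  rw [e]
  exact h

lemma contDiff_sq (a : E N) : ContDiff ℝ 1 (fun y : E N => ‖y - a‖ ^ 2) :=
  (contDiff_id.sub contDiff_const).norm_sq ℝ

lemma hasFDerivAt_rad {g g' : ℝ → ℝ} (hg : ∀ s, HasDerivAt g (g' s) s) (a y : E N) :
    HasFDerivAt (rad g a)
      (g (‖y - a‖ ^ 2) • ContinuousLinearMap.id ℝ (E N) +
        (g' (‖y - a‖ ^ 2) • ((2:ℝ) • innerSL ℝ (y - a))).smulRight (y - a)) y := by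
  have h1 : HasFDerivAt (fun y : E N => g (‖y - a‖ ^ 2))
      (g' (‖y - a‖ ^ 2) • ((2:ℝ) • innerSL ℝ (y - a))) y :=
    (hg _).comp_hasFDerivAt y (hasFDerivAt_sq a y)
  exact h1.smul ((hasFDerivAt_id y).sub_const a)

lemma trc_rad {g g' : ℝ → ℝ} (hg : ∀ s, HasDerivAt g (g' s) s) (a y : E N)
    (P : E N →L[ℝ] E N) :
    trc (P ∘L fderiv ℝ (rad g a) y) =
      g (‖y - a‖ ^ 2) * trc P + 2 * g' (‖y - a‖ ^ 2) * ⟪y - a, P (y - a)⟫ := by
  rw [(hasFDerivAt_rad hg a y).fderiv, ContinuousLinearMap.comp_add, trc_add, trc_rank]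
  congr 1
  · rw [ContinuousLinearMap.comp_smul, trc_smul]
    congr 1
  · simp only [smul_apply, innerSL_apply_apply, smul_eq_mul]
    ring

/-- a weight: C¹, nonincreasing, vanishing from 1 on -/
structure Wt (f f' : ℝ → ℝ) : Prop where
  der : ∀ u, HasDerivAt f (f' u) u
  cont : Continuous f'
  nonpos : ∀ u, 0 ≤ u → f' u ≤ 0
  zero : ∀ u, 1 ≤ u → f u = 0
  zero' : ∀ u, 1 ≤ u → f' u = 0

lemma Wt.contf {f f' : ℝ → ℝ} (h : Wt f f') : Continuous f :=
  continuous_iff_continuousAt.2 fun u => (h.der u).continuousAt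

lemma Wt.contDiff {f f' : ℝ → ℝ} (h : Wt f f') : ContDiff ℝ 1 f := by
  rw [contDiff_one_iff_deriv]
  refine ⟨fun u => (h.der u).differentiableAt, ?_⟩
  have : deriv f = f' := by
    funext u
    exact (h.der u).deriv
  rw [this]
  exact h.cont

/-- stationarity tested with a radial field -/
lemma test_rad {m : ℕ} {U : Set (E N)} {μ : Measure (E N)} {P : E N → E N →L[ℝ] E N}
    (hS : Stat m U μ P) {f f' : ℝ → ℝ} (hf : Wt f f') {a : E N} {R r : ℝ}
    (hR : closedBall a R ⊆ U) (hr : 0 < r) (hrR : r ≤ R) :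
    ∫ y, (m * f (‖y - a‖ ^ 2 / r ^ 2) + 2 * (‖y - a‖ ^ 2 / r ^ 2) * f' (‖y - a‖ ^ 2 / r ^ 2))
      ∂(μ.restrict (closedBall a R)) ≤ 0 := by
  classical
  have hr2 : 0 < r ^ 2 := by positivity
  set g : ℝ → ℝ := fun s => f (s / r ^ 2) with hgdef
  set g' : ℝ → ℝ := fun s => f' (s / r ^ 2) / r ^ 2 with hg'def
  have hg : ∀ s, HasDerivAt g (g' s) s := by
    intro s
    have h1 : HasDerivAt (fun s : ℝ => s / r ^ 2) (1 / r ^ 2) s := (hasDerivAt_id s).div_const _
    have h2 := (hf.der (s / r ^ 2)).comp s h1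
    have e : g' s = f' (s / r ^ 2) * (1 / r ^ 2) := by
      simp only [hg'def]
      ring
    rw [e]
    exact h2
  have hgc : ContDiff ℝ 1 g := hf.contDiff.comp (contDiff_id.div_const _)
  have hX : ContDiff ℝ 1 (rad g a) :=
    (hgc.comp (contDiff_sq a)).smul (contDiff_id.sub contDiff_const)
  have hzero : ∀ y, y ∉ closedBall a r → rad g a y = 0 := by
    intro y hy
    have h1 : r < ‖y - a‖ := by
      rw [mem_closedBall, dist_eq_norm] at hy
      exact not_le.1 hy
    have h2 : 1 ≤ ‖y - a‖ ^ 2 / r ^ 2 := by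
      rw [one_le_div hr2]
      exact pow_le_pow_left₀ hr.le h1.le 2
    simp [rad, hgdef, hf.zero _ h2]
  have hsub : tsupport (rad g a) ⊆ closedBall a r := by
    apply closure_minimal _ isClosed_closedBall
    intro y hy
    by_contra hc
    exact hy (hzero y hc)
  have hcs : HasCompactSupport (rad g a) :=
    HasCompactSupport.intro (isCompact_closedBall a r) hzero
  have hbR : closedBall a r ⊆ closedBall a R := closedBall_subset_closedBall hrR
  have hstat := hS.stat (rad g a) hX hcs (hsub.trans (hbR.trans hR))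
  have h3 : ∫ y, trc (P y ∘L fderiv ℝ (rad g a) y) ∂μ =
      ∫ y, trc (P y ∘L fderiv ℝ (rad g a) y) ∂(μ.restrict (closedBall a R)) := by
    symm
    apply setIntegral_eq_integral_of_forall_compl_eq_zero
    intro y hy
    have hy' : y ∉ tsupport (rad g a) := fun h => hy (hbR (hsub h))
    have : fderiv ℝ (rad g a) y = 0 := by
      by_contra hc
      exact hy' (support_fderiv_subset ℝ (by simpa using hc))
    rw [this, ContinuousLinearMap.comp_zero, trc_zero]
  rw [h3] at hstat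
  have : IsFiniteMeasure (μ.restrict (closedBall a R)) :=
    ⟨by simpa using hS.fin _ hR (isCompact_closedBall a R)⟩
  have htr : ∀ᵐ x ∂(μ.restrict (closedBall a R)), trc (P x) = m :=
    ae_restrict_of_ae_restrict_of_subset hR hS.tr
  rw [← hstat]
  -- continuity facts
  have hcontF : Continuous fun y : E N => (m * f (‖y - a‖ ^ 2 / r ^ 2) +
      2 * (‖y - a‖ ^ 2 / r ^ 2) * f' (‖y - a‖ ^ 2 / r ^ 2)) := by
    have h1 : Continuous fun y : E N => ‖y - a‖ ^ 2 / r ^ 2 := by fun_prop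
    exact (continuous_const.mul (hf.contf.comp h1)).add
      ((continuous_const.mul h1).mul (hf.cont.comp h1))
  have hintF : Integrable (fun y : E N => (m * f (‖y - a‖ ^ 2 / r ^ 2) +
      2 * (‖y - a‖ ^ 2 / r ^ 2) * f' (‖y - a‖ ^ 2 / r ^ 2))) (μ.restrict (closedBall a R)) := by
    have hc : HasCompactSupport (fun y : E N => (m * f (‖y - a‖ ^ 2 / r ^ 2) +
      2 * (‖y - a‖ ^ 2 / r ^ 2) * f' (‖y - a‖ ^ 2 / r ^ 2))) := by
      apply HasCompactSupport.intro (isCompact_closedBall a r)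
      intro y hy
      have h1 : r < ‖y - a‖ := by
        rw [mem_closedBall, dist_eq_norm] at hy
        exact not_le.1 hy
      have h2 : 1 ≤ ‖y - a‖ ^ 2 / r ^ 2 := by
        rw [one_le_div hr2]
        exact pow_le_pow_left₀ hr.le h1.le 2
      simp [hf.zero _ h2, hf.zero' _ h2]
    exact hcontF.integrable_of_hasCompactSupport hc
  have hfd : Continuous (fun y => fderiv ℝ (rad g a) y) := hX.continuous_fderiv one_ne_zero
  have hintT : Integrable (fun y : E N => trc (P y ∘L fderiv ℝ (rad g a) y))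
      (μ.restrict (closedBall a R)) := by
    have hc : HasCompactSupport (fun y => fderiv ℝ (rad g a) y) := hcs.fderiv ℝ
    obtain ⟨C, hC⟩ := hfd.bounded_above_of_compact_support hc
    refine Integrable.of_bound (C := N * C) ?_ ?_
    · apply Measurable.aestronglyMeasurable
      apply continuous_trc.measurable.comp
      exact (ContinuousLinearMap.compL ℝ (E N) (E N) (E N)).continuous₂.measurable.comp
        (hS.meas.prodMk hfd.measurable)
    · filter_upwards with y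
      rw [Real.norm_eq_abs]
      refine (abs_trc_comp_le (hS.nrm y)).trans ?_
      exact mul_le_mul_of_nonneg_left (hC y) (Nat.cast_nonneg _)
  apply integral_mono_ae hintF hintT
  filter_upwards [htr] with y hy
  rw [trc_rad hg a y (P y), hy]
  have h1 := inner_le_of_norm (hS.nrm y) (y - a)
  have h2 : f' (‖y - a‖ ^ 2 / r ^ 2) ≤ 0 := hf.nonpos _ (by positivity)
  have h4 : g' (‖y - a‖ ^ 2) ≤ 0 := div_nonpos_of_nonpos_of_nonneg h2 hr2.le
  have h5 : g' (‖y - a‖ ^ 2) * ‖y - a‖ ^ 2 ≤ g' (‖y - a‖ ^ 2) * ⟪y - a, P y (y - a)⟫ :=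
    mul_le_mul_of_nonpos_left h1 h4
  have h6 : 2 * (‖y - a‖ ^ 2 / r ^ 2) * f' (‖y - a‖ ^ 2 / r ^ 2) =
      2 * (g' (‖y - a‖ ^ 2) * ‖y - a‖ ^ 2) := by
    simp only [hg'def]
    field_simp
  rw [h6]
  simp only [hgdef]
  nlinarith

/-- the smoothed mass ratio numerator -/
noncomputable def I (f : ℝ → ℝ) (ν : Measure (E N)) (a : E N) (r : ℝ) : ℝ :=
  ∫ y, f (‖y - a‖ ^ 2 / r ^ 2) ∂ν

lemma Wt.bound' {f f' : ℝ → ℝ} (h : Wt f f') : ∃ C, 0 ≤ C ∧ ∀ u, 0 ≤ u → |f' u| ≤ C := by
  obtain ⟨C, hC⟩ := isCompact_Icc.exists_bound_of_continuousOn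
    (h.cont.continuousOn (s := Icc (0:ℝ) 1))
  refine ⟨max C 0, le_max_right _ _, ?_⟩
  intro u hu
  rcases le_total u 1 with h1 | h1
  · exact (hC u ⟨hu, h1⟩).trans (le_max_left _ _)
  · rw [h.zero' u h1, abs_zero]
    exact le_max_right _ _

lemma Wt.bound {f f' : ℝ → ℝ} (h : Wt f f') : ∃ C, 0 ≤ C ∧ ∀ u, 0 ≤ u → |f u| ≤ C := by
  obtain ⟨C, hC⟩ := isCompact_Icc.exists_bound_of_continuousOn
    (h.contf.continuousOn (s := Icc (0:ℝ) 1))
  refine ⟨max C 0, le_max_right _ _, ?_⟩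
  intro u hu
  rcases le_total u 1 with h1 | h1
  · exact (hC u ⟨hu, h1⟩).trans (le_max_left _ _)
  · rw [h.zero u h1, abs_zero]
    exact le_max_right _ _

lemma integrable_wt {f f' : ℝ → ℝ} (h : Wt f f') (ν : Measure (E N)) [IsFiniteMeasure ν]
    (a : E N) (r : ℝ) : Integrable (fun y => f (‖y - a‖ ^ 2 / r ^ 2)) ν := by
  obtain ⟨C, hC0, hC⟩ := h.bound
  refine Integrable.of_bound (C := C) ?_ ?_
  · apply Continuous.aestronglyMeasurable
    have h1 : Continuous fun y : E N => ‖y - a‖ ^ 2 / r ^ 2 := by fun_prop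
    exact h.contf.comp h1
  · filter_upwards with y
    exact hC _ (by positivity)

lemma hasDerivAt_I {f f' : ℝ → ℝ} (h : Wt f f') (ν : Measure (E N)) [IsFiniteMeasure ν]
    (a : E N) {r : ℝ} (hr : 0 < r) :
    Integrable (fun y => f' (‖y - a‖ ^ 2 / r ^ 2) * (-2 * ‖y - a‖ ^ 2 / r ^ 3)) ν ∧
    HasDerivAt (I f ν a)
      (∫ y, f' (‖y - a‖ ^ 2 / r ^ 2) * (-2 * ‖y - a‖ ^ 2 / r ^ 3) ∂ν) r := by
  obtain ⟨C, hC0, hC⟩ := h.bound'
  have hs : Ioo (r / 2) (2 * r) ∈ 𝓝 r := Ioo_mem_nhds (by linarith) (by linarith)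
  refine hasDerivAt_integral_of_dominated_loc_of_deriv_le (bound := fun _ => C * (4 / r)) hs
    (F := fun r y => f (‖y - a‖ ^ 2 / r ^ 2))
    (F' := fun r y => f' (‖y - a‖ ^ 2 / r ^ 2) * (-2 * ‖y - a‖ ^ 2 / r ^ 3)) ?_ ?_ ?_ ?_ ?_ ?_
  · exact Eventually.of_forall fun x => (integrable_wt h ν a x).1
  · exact integrable_wt h ν a r
  · apply Continuous.aestronglyMeasurable
    have h1 : Continuous fun y : E N => ‖y - a‖ ^ 2 / r ^ 2 := by fun_prop
    have h2 : Continuous fun y : E N => (-2 * ‖y - a‖ ^ 2 / r ^ 3) := by fun_prop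
    exact (h.cont.comp h1).mul h2
  · filter_upwards with y
    intro x hx
    have hx0 : 0 < x := by
      have := hx.1
      linarith
    have hx1 : r / 2 < x := hx.1
    rw [Real.norm_eq_abs, abs_mul]
    rcases le_total (‖y - a‖ ^ 2 / x ^ 2) 1 with h1 | h1
    · have h2 : |(-2 * ‖y - a‖ ^ 2 / x ^ 3)| = 2 * (‖y - a‖ ^ 2 / x ^ 2) / x := by
        have : (-2 * ‖y - a‖ ^ 2 / x ^ 3) = - (2 * (‖y - a‖ ^ 2 / x ^ 2) / x) := by
          field_simp
        rw [this, abs_neg, abs_of_nonneg (by positivity)]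
      rw [h2]
      have h3 : 2 * (‖y - a‖ ^ 2 / x ^ 2) / x ≤ 4 / r := by
        rw [div_le_div_iff₀ hx0 hr]
        nlinarith
      have h4 : 0 ≤ 2 * (‖y - a‖ ^ 2 / x ^ 2) / x := by positivity
      exact mul_le_mul (hC _ (by positivity)) h3 h4 hC0
    · rw [h.zero' _ h1]
      simp only [abs_zero, zero_mul]
      positivity
  · exact integrable_const _
  · filter_upwards with y
    intro x hx
    have hx0 : 0 < x := by
      have := hx.1
      linarith
    have h1 : HasDerivAt (fun x : ℝ => ‖y - a‖ ^ 2 / x ^ 2) (-2 * ‖y - a‖ ^ 2 / x ^ 3) x := by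
      have h2 := (hasDerivAt_const x (‖y - a‖ ^ 2)).div (hasDerivAt_pow 2 x) (by positivity)
      have e : -2 * ‖y - a‖ ^ 2 / x ^ 3 =
          (0 * x ^ 2 - ‖y - a‖ ^ 2 * (((2:ℕ):ℝ) * x ^ (2 - 1))) / (x ^ 2) ^ 2 := by
        field_simp
        ring
      rw [e]
      exact h2
    exact (h.der _).comp x h1

/-- the differential inequality -/
lemma I_ineq {m : ℕ} {U : Set (E N)} {μ : Measure (E N)} {P : E N → E N →L[ℝ] E N}
    (hS : Stat m U μ P) {f f' : ℝ → ℝ} (hf : Wt f f') {a : E N} {R r : ℝ}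
    (hR : closedBall a R ⊆ U) (hr : 0 < r) (hrR : r ≤ R) :
    m * I f (μ.restrict (closedBall a R)) a r ≤ r *
      ∫ y, f' (‖y - a‖ ^ 2 / r ^ 2) * (-2 * ‖y - a‖ ^ 2 / r ^ 3) ∂(μ.restrict (closedBall a R)) := by
  have : IsFiniteMeasure (μ.restrict (closedBall a R)) :=
    ⟨by simpa using hS.fin _ hR (isCompact_closedBall a R)⟩
  have h1 := test_rad hS hf hR hr hrR
  have h2 := (hasDerivAt_I hf (μ.restrict (closedBall a R)) a hr).1
  have h3 := integrable_wt hf (μ.restrict (closedBall a R)) a r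
  have h4 : ∫ y, (m * f (‖y - a‖ ^ 2 / r ^ 2) + 2 * (‖y - a‖ ^ 2 / r ^ 2) *
      f' (‖y - a‖ ^ 2 / r ^ 2)) ∂(μ.restrict (closedBall a R)) =
      m * I f (μ.restrict (closedBall a R)) a r - r *
      ∫ y, f' (‖y - a‖ ^ 2 / r ^ 2) * (-2 * ‖y - a‖ ^ 2 / r ^ 3)
        ∂(μ.restrict (closedBall a R)) := by
    rw [I, ← integral_const_mul, ← integral_const_mul, ← integral_sub (h3.const_mul _)
      (h2.const_mul _)]
    apply integral_congr_ae
    filter_upwards with y
    field_simp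
    ring
  rw [h4] at h1
  linarith

lemma mono_I {m : ℕ} {U : Set (E N)} {μ : Measure (E N)} {P : E N → E N →L[ℝ] E N}
    (hS : Stat m U μ P) {f f' : ℝ → ℝ} (hf : Wt f f') {a : E N} {R r : ℝ}
    (hR : closedBall a R ⊆ U) (hr : 0 < r) (hrR : r ≤ R) :
    I f (μ.restrict (closedBall a R)) a r / r ^ m ≤
      I f (μ.restrict (closedBall a R)) a R / R ^ m := by
  have : IsFiniteMeasure (μ.restrict (closedBall a R)) :=
    ⟨by simpa using hS.fin _ hR (isCompact_closedBall a R)⟩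
  have hR0 : 0 < R := hr.trans_le hrR
  have hder : ∀ x, 0 < x → HasDerivAt (fun x => I f (μ.restrict (closedBall a R)) a x / x ^ m)
      (((∫ y, f' (‖y - a‖ ^ 2 / x ^ 2) * (-2 * ‖y - a‖ ^ 2 / x ^ 3)
        ∂(μ.restrict (closedBall a R))) * x ^ m - I f (μ.restrict (closedBall a R)) a x *
        ((m:ℝ) * x ^ (m - 1))) / (x ^ m) ^ 2) x := by
    intro x hx
    exact (hasDerivAt_I hf (μ.restrict (closedBall a R)) a hx).2.div (hasDerivAt_pow m x)
      (by positivity)
  have hmono : MonotoneOn (fun x => I f (μ.restrict (closedBall a R)) a x / x ^ m)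
      (Icc r R) := by
    apply monotoneOn_of_deriv_nonneg (convex_Icc r R)
    · intro x hx
      exact (hder x (hr.trans_le hx.1)).continuousAt.continuousWithinAt
    · intro x hx
      rw [interior_Icc] at hx
      exact (hder x (hr.trans hx.1)).differentiableAt.differentiableWithinAt
    · intro x hx
      rw [interior_Icc] at hx
      have hx0 : 0 < x := hr.trans hx.1
      rw [(hder x hx0).deriv]
      apply div_nonneg _ (by positivity)
      have h1 := I_ineq hS hf hR hx0 hx.2.le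
      rcases Nat.eq_zero_or_pos m with h0 | h0
      · subst h0
        simp only [Nat.cast_zero, zero_mul] at h1
        have : 0 ≤ ∫ y, f' (‖y - a‖ ^ 2 / x ^ 2) * (-2 * ‖y - a‖ ^ 2 / x ^ 3)
            ∂(μ.restrict (closedBall a R)) := by
          by_contra hc
          push Not at hc
          nlinarith
        simpa using this
      · have h2 : x ^ m = x * x ^ (m - 1) := by
          rw [← pow_succ', Nat.sub_add_cancel h0]
        rw [h2]
        have h3 : 0 < x ^ (m - 1) := by positivity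
        nlinarith
  exact hmono ⟨le_rfl, hrR⟩ ⟨hrR, le_rfl⟩ hrR

end Pool.Agent.TH337.VF
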