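import Pool.Agent.TH337.VF.Mono

/-!
Sharp monotonicity of mass ratios, density.
-/

namespace Pool.Agent.TH337.VF

open MeasureTheory Set Filter Topology Metric
open scoped ENNReal RealInnerProductSpace

variable {N : ℕ}

lemma hasDerivAt_possq (t : ℝ) : HasDerivAt (fun t : ℝ => (max 0 t) ^ 2) (2 * max 0 t) t := by
  have h1 : ∀ t ∈ Iic (0:ℝ), HasDerivWithinAt (fun t : ℝ => (max 0 t) ^ 2) (2 * max 0 t) (Iic 0) t := by
    intro t ht
    rw [max_eq_left ht, mul_zero]
    apply (hasDerivWithinAt_const t (Iic (0:ℝ)) (0:ℝ)).congr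
    · intro x hx
      rw [max_eq_left hx]
      norm_num
    · rw [max_eq_left ht]
      norm_num
  have h2 : ∀ t ∈ Ici (0:ℝ), HasDerivWithinAt (fun t : ℝ => (max 0 t) ^ 2) (2 * max 0 t) (Ici 0) t := by
    intro t ht
    have h3 := (hasDerivAt_pow 2 t).hasDerivWithinAt (s := Ici (0:ℝ))
    have e : 2 * max 0 t = ((2:ℕ):ℝ) * t ^ (2 - 1) := by
      rw [max_eq_right ht]
      norm_num
    rw [e]
    apply h3.congr
    · intro x hx
      rw [max_eq_right hx]
    · rw [max_eq_right ht]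
  rcases lt_trichotomy t 0 with h | h | h
  · exact (h1 t h.le).hasDerivAt (Iic_mem_nhds h)
  · subst h
    have := (h1 0 (mem_Iic.2 le_rfl)).union (h2 0 (mem_Ici.2 le_rfl))
    rwa [Iic_union_Ici, hasDerivWithinAt_univ] at this
  · exact (h2 t h.le).hasDerivAt (Ici_mem_nhds h)

lemma continuous_possq' : Continuous (fun t : ℝ => 2 * max 0 t) := by fun_prop

noncomputable def wt (j : ℕ) (u : ℝ) : ℝ := (max 0 (1 - u ^ (j + 1))) ^ 2

noncomputable def wt' (j : ℕ) (u : ℝ) : ℝ :=
  2 * max 0 (1 - u ^ (j + 1)) * (-(((j + 1 : ℕ):ℝ) * u ^ j))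

lemma wt_Wt (j : ℕ) : Wt (wt j) (wt' j) := by
  refine ⟨?_, ?_, ?_, ?_, ?_⟩
  · intro u
    have h1 : HasDerivAt (fun u : ℝ => 1 - u ^ (j + 1)) (-(((j + 1 : ℕ):ℝ) * u ^ j)) u := by
      have h := (hasDerivAt_const u (1:ℝ)).sub (hasDerivAt_pow (j + 1) u)
      have e : -(((j + 1 : ℕ):ℝ) * u ^ j) = 0 - ((j + 1 : ℕ):ℝ) * u ^ (j + 1 - 1) := by
        simp
      rw [e]
      exact h
    exact (hasDerivAt_possq _).comp u h1
  · unfold wt'
    fun_prop
  · intro u hu
    unfold wt'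
    have h1 : 0 ≤ 2 * max 0 (1 - u ^ (j + 1)) := by positivity
    have h2 : 0 ≤ ((j + 1 : ℕ):ℝ) * u ^ j := by positivity
    nlinarith
  · intro u hu
    have h1 : 1 ≤ u ^ (j + 1) := one_le_pow₀ hu
    unfold wt
    rw [max_eq_left (by linarith)]
    norm_num
  · intro u hu
    have h1 : 1 ≤ u ^ (j + 1) := one_le_pow₀ hu
    unfold wt'
    rw [max_eq_left (by linarith)]
    norm_num

lemma tendsto_I (ν : Measure (E N)) [IsFiniteMeasure ν] (a : E N) {r : ℝ} (hr : 0 < r) :
    Tendsto (fun j => I (wt j) ν a r) atTop (𝓝 (ν.real (ball a r))) := by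
  have h1 : ν.real (ball a r) = ∫ y, (ball a r).indicator (fun _ => (1:ℝ)) y ∂ν := by
    rw [integral_indicator measurableSet_ball]
    simp [Measure.real]
  rw [h1]
  unfold I
  apply tendsto_integral_of_dominated_convergence (fun _ => (1:ℝ))
  · intro j
    exact (integrable_wt (wt_Wt j) ν a r).1
  · exact integrable_const _
  · intro j
    filter_upwards with y
    have h2 : 0 ≤ (‖y - a‖ ^ 2 / r ^ 2) ^ (j + 1) := by positivity
    unfold wt
    rw [Real.norm_eq_abs, abs_of_nonneg (by positivity)]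
    have h3 : max 0 (1 - (‖y - a‖ ^ 2 / r ^ 2) ^ (j + 1)) ≤ 1 := max_le (by norm_num) (by linarith)
    have h4 : 0 ≤ max 0 (1 - (‖y - a‖ ^ 2 / r ^ 2) ^ (j + 1)) := le_max_left _ _
    nlinarith
  · filter_upwards with y
    have h0 : 0 ≤ ‖y - a‖ ^ 2 / r ^ 2 := by positivity
    by_cases hy : y ∈ ball a r
    · rw [indicator_of_mem hy]
      rw [mem_ball, dist_eq_norm] at hy
      have h2 : ‖y - a‖ ^ 2 / r ^ 2 < 1 := by
        rw [div_lt_one (by positivity)]
        exact pow_lt_pow_left₀ hy (norm_nonneg _) two_ne_zero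
      have h3 : Tendsto (fun j : ℕ => (‖y - a‖ ^ 2 / r ^ 2) ^ (j + 1)) atTop (𝓝 0) :=
        (tendsto_pow_atTop_nhds_zero_of_lt_one h0 h2).comp (tendsto_add_atTop_nat 1)
      have h4 : Tendsto (fun j : ℕ => (max 0 (1 - (‖y - a‖ ^ 2 / r ^ 2) ^ (j + 1))) ^ 2) atTop
          (𝓝 ((max 0 (1 - 0)) ^ 2)) :=
        ((tendsto_const_nhds.max (tendsto_const_nhds.sub h3)).pow 2)
      simpa [wt] using h4
    · rw [indicator_of_notMem hy]
      rw [mem_ball, dist_eq_norm, not_lt] at hy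
      have h2 : 1 ≤ ‖y - a‖ ^ 2 / r ^ 2 := by
        rw [one_le_div (by positivity)]
        exact pow_le_pow_left₀ hr.le hy 2
      have h3 : ∀ j, wt j (‖y - a‖ ^ 2 / r ^ 2) = 0 := fun j => (wt_Wt j).zero _ h2
      simp only [h3]
      exact tendsto_const_nhds

/-- monotonicity of the mass ratios -/
theorem mono {m : ℕ} {U : Set (E N)} {μ : Measure (E N)} {P : E N → E N →L[ℝ] E N}
    (hS : Stat m U μ P) {a : E N} {R r : ℝ}
    (hR : closedBall a R ⊆ U) (hr : 0 < r) (hrR : r ≤ R) :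
    μ.real (ball a r) / r ^ m ≤ μ.real (ball a R) / R ^ m := by
  have hfin : IsFiniteMeasure (μ.restrict (closedBall a R)) :=
    ⟨by simpa using hS.fin _ hR (isCompact_closedBall a R)⟩
  have hR0 : 0 < R := hr.trans_le hrR
  have e : ∀ s, s ≤ R → (μ.restrict (closedBall a R)).real (ball a s) = μ.real (ball a s) := by
    intro s hs
    rw [measureReal_restrict_apply measurableSet_ball]
    congr 1
    exact inter_eq_left.2 (ball_subset_closedBall.trans (closedBall_subset_closedBall hs))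
  have h1 := (tendsto_I (μ.restrict (closedBall a R)) a hr).div_const (r ^ m)
  have h2 := (tendsto_I (μ.restrict (closedBall a R)) a hR0).div_const (R ^ m)
  rw [e r hrR] at h1
  rw [e R le_rfl] at h2
  exact le_of_tendsto_of_tendsto' h1 h2 fun j => mono_I hS (wt_Wt j) hR hr hrR

/-- monotonicity, extended nonnegative version -/
theorem mono' {m : ℕ} {U : Set (E N)} {μ : Measure (E N)} {P : E N → E N →L[ℝ] E N}
    (hS : Stat m U μ P) {a : E N} {R r : ℝ}
    (hR : closedBall a R ⊆ U) (hr : 0 < r) (hrR : r ≤ R) :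
    μ (ball a r) ≤ ENNReal.ofReal ((r / R) ^ m) * μ (ball a R) := by
  have hR0 : 0 < R := hr.trans_le hrR
  have hf : μ (ball a R) < ⊤ := (measure_mono ball_subset_closedBall).trans_lt
    (hS.fin _ hR (isCompact_closedBall a R))
  have hf' : μ (ball a r) < ⊤ := (measure_mono (ball_subset_ball hrR)).trans_lt hf
  have h := mono hS hR hr hrR
  rw [div_le_div_iff₀ (by positivity) (by positivity)] at h
  rw [← ENNReal.ofReal_toReal hf.ne, ← ENNReal.ofReal_toReal hf'.ne,
    ← ENNReal.ofReal_mul (by positivity)]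
  apply ENNReal.ofReal_le_ofReal
  rw [div_pow, div_mul_eq_mul_div, le_div_iff₀ (by positivity)]
  simpa [Measure.real, mul_comm] using h

end Pool.Agent.TH337.VF
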