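import Pool.Agent.TH337.VF.Small

/-!
The restriction of a stationary varifold to a part separated from the rest by a set of
vanishing (m-1)-dimensional Hausdorff measure is stationary.
-/

namespace Pool.Agent.TH337.VF

open MeasureTheory Set Filter Topology Metric
open scoped ENNReal RealInnerProductSpace Manifold ContDiff

variable {N : ℕ}

lemma fderiv_zero_of_notMem {X : E N → E N} {y : E N} (hy : y ∉ tsupport X) :
    fderiv ℝ X y = 0 := by
  by_contra hc
  exact hy (support_fderiv_subset ℝ (by simpa using hc))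

lemma integrable_trc {m : ℕ} {U : Set (E N)} {μ : Measure (E N)} {P : E N → E N →L[ℝ] E N}
    (hS : Stat m U μ P) {X : E N → E N} (hX : ContDiff ℝ 1 X) (hc : HasCompactSupport X)
    (hXU : tsupport X ⊆ U) : Integrable (fun y => trc (P y ∘L fderiv ℝ X y)) μ := by
  have hfin : IsFiniteMeasure (μ.restrict (tsupport X)) :=
    ⟨by simpa using hS.fin _ hXU hc⟩
  have hfd : Continuous (fun y => fderiv ℝ X y) := hX.continuous_fderiv one_ne_zero
  have hsub : Function.support (fun y => trc (P y ∘L fderiv ℝ X y)) ⊆ tsupport X := by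
    intro y hy
    by_contra hc
    apply hy
    show trc (P y ∘L fderiv ℝ X y) = 0
    rw [fderiv_zero_of_notMem hc, ContinuousLinearMap.comp_zero, trc_zero]
  rw [← integrableOn_iff_integrable_of_support_subset hsub]
  obtain ⟨C, hC⟩ := hfd.bounded_above_of_compact_support (hc.fderiv ℝ)
  refine Integrable.of_bound (C := N * C) ?_ ?_
  · apply Measurable.aestronglyMeasurable
    apply continuous_trc.measurable.comp
    exact (ContinuousLinearMap.compL ℝ (E N) (E N) (E N)).continuous₂.measurable.comp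
      (hS.meas.prodMk hfd.measurable)
  · filter_upwards with y
    rw [Real.norm_eq_abs]
    refine (abs_trc_comp_le (hS.nrm y)).trans ?_
    exact mul_le_mul_of_nonneg_left (hC y) (Nat.cast_nonneg _)

/-- separation: if the support of `Y` meets the support of μ inside `W₁ ∪ W₂`, then the
stationarity integral of `Y` over `W₁` vanishes -/
lemma separated {m : ℕ} {U : Set (E N)} {μ : Measure (E N)} {P : E N → E N →L[ℝ] E N}
    (hS : Stat m U μ P) {W₁ W₂ : Set (E N)} (h1 : IsOpen W₁) (h2 : IsOpen W₂)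
    (h12 : μ.support ∩ U ∩ W₁ ∩ W₂ = ∅) {Y : E N → E N} (hY : ContDiff ℝ 1 Y)
    (hc : HasCompactSupport Y) (hYU : tsupport Y ⊆ U)
    (hsep : tsupport Y ∩ μ.support ⊆ W₁ ∪ W₂) :
    ∫ y in W₁, trc (P y ∘L fderiv ℝ Y y) ∂μ = 0 := by
  set K : Set (E N) := tsupport Y ∩ μ.support with hK
  have hKc : IsClosed K := (isClosed_tsupport Y).inter Measure.isClosed_support
  have hF1 : IsClosed (K \ W₂) := hKc.sdiff h2
  have hF2 : IsClosed (K \ W₁) := hKc.sdiff h1
  have hdis : Disjoint (K \ W₁) (K \ W₂) := by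
    rw [Set.disjoint_left]
    intro y hy1 hy2
    rcases hsep hy1.1 with h | h
    · exact hy1.2 h
    · exact hy2.2 h
  obtain ⟨χ, hχ0, hχ1, hχ⟩ := exists_contMDiffMap_zero_one_nhds_of_isClosed (n := 1)
    𝓘(ℝ, E N) hF2 hF1 hdis
  have hχc : ContDiff ℝ 1 (χ : E N → ℝ) := χ.contMDiff.contDiff
  set Z : E N → E N := fun y => χ y • Y y with hZ
  have hZc : ContDiff ℝ 1 Z := hχc.smul hY
  have hZY : tsupport Z ⊆ tsupport Y := by
    apply closure_mono
    intro y hy
    by_contra hcon
    apply hy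
    show χ y • Y y = 0
    have : Y y = 0 := by simpa using hcon
    rw [this, smul_zero]
  have hZcs : HasCompactSupport Z := hc.of_isClosed_subset (isClosed_tsupport Z) hZY
  have hst := hS.stat Z hZc hZcs (hZY.trans hYU)
  rw [← integral_indicator h1.measurableSet]
  rw [← hst]
  apply integral_congr_ae
  filter_upwards [Measure.support_mem_ae (μ := μ)] with y hy
  by_cases hyY : y ∈ tsupport Y
  · have hyK : y ∈ K := ⟨hyY, hy⟩
    by_cases hyW : y ∈ W₁
    · rw [indicator_of_mem hyW]
      have hyW2 : y ∉ W₂ := by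
        intro h
        have : y ∈ μ.support ∩ U ∩ W₁ ∩ W₂ := ⟨⟨⟨hy, hYU hyY⟩, hyW⟩, h⟩
        rw [h12] at this
        exact this
      have hnear : ∀ᶠ x in 𝓝 y, χ x = 1 := hχ1.filter_mono (nhds_le_nhdsSet (s := K \ W₂) ⟨hyK, hyW2⟩)
      have heq : Z =ᶠ[𝓝 y] Y := by
        filter_upwards [hnear] with x hx
        simp [hZ, hx]
      rw [heq.fderiv_eq]
    · rw [indicator_of_notMem hyW]
      have hnear : ∀ᶠ x in 𝓝 y, χ x = 0 := hχ0.filter_mono (nhds_le_nhdsSet (s := K \ W₁) ⟨hyK, hyW⟩)
      have heq : Z =ᶠ[𝓝 y] fun _ => 0 := by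
        filter_upwards [hnear] with x hx
        simp [hZ, hx]
      rw [heq.fderiv_eq]
      simp [trc_zero]
  · have hz : fderiv ℝ Z y = 0 := fderiv_zero_of_notMem (fun h => hyY (hZY h))
    rw [hz, ContinuousLinearMap.comp_zero, trc_zero]
    by_cases hyW : y ∈ W₁
    · rw [indicator_of_mem hyW, fderiv_zero_of_notMem hyY, ContinuousLinearMap.comp_zero, trc_zero]
    · rw [indicator_of_notMem hyW]

/-- the main estimate -/
lemma estimate {m : ℕ} {U : Set (E N)} {μ : Measure (E N)}
    {P : E N → E N →L[ℝ] E N}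
    (hS : Stat m U μ P) {W₁ W₂ : Set (E N)} (h1 : IsOpen W₁) (h2 : IsOpen W₂)
    (h12 : μ.support ∩ U ∩ W₁ ∩ W₂ = ∅)
    (h0 : ∀ K ⊆ U, IsCompact K →
      SmallCov (μ.restrict W₁) ((K ∩ μ.support) \ (W₁ ∪ W₂))) {X : E N → E N}
    (hX : ContDiff ℝ 1 X) (hc : HasCompactSupport X) (hXU : tsupport X ⊆ U) :
    ∃ A : ℝ, ∀ ε : ℝ, 0 < ε → |∫ y in W₁, trc (P y ∘L fderiv ℝ X y) ∂μ| ≤ A * ε := by
  obtain ⟨M, hM⟩ := hX.continuous.bounded_above_of_compact_support hc
  obtain ⟨L, hL⟩ := (hX.continuous_fderiv one_ne_zero).bounded_above_of_compact_support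
    (hc.fderiv ℝ)
  have hM0 : 0 ≤ M := (norm_nonneg _).trans (hM 0)
  have hL0 : 0 ≤ L := (norm_nonneg _).trans (hL 0)
  set K : Set (E N) := tsupport X ∩ μ.support with hK
  have hKc : IsCompact K := IsCompact.inter_right hc Measure.isClosed_support
  set F : Set (E N) := K \ (W₁ ∪ W₂) with hF
  have hFc : IsCompact F := hKc.diff (h1.union h2)
  refine ⟨N * L + M * 8, ?_⟩
  intro ε hε
  obtain ⟨ι, t, x, r, hr, hcov, hsum⟩ := (h0 (tsupport X) hXU hc).finite hFc hε one_pos
  have hrpos : ∀ i ∈ t, 0 < r i := fun i _ => (hr i).1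
  obtain ⟨η, hηc, hη0, hη1, hηz, hηo, hηd⟩ := cutoff t x r hrpos
  set Y : E N → E N := fun y => η y • X y with hY
  have hYc : ContDiff ℝ 1 Y := hηc.smul hX
  have hYX : tsupport Y ⊆ tsupport X := by
    apply closure_mono
    intro y hy
    by_contra hcon
    apply hy
    show η y • X y = 0
    have : X y = 0 := by simpa using hcon
    rw [this, smul_zero]
  have hYcs : HasCompactSupport Y := hc.of_isClosed_subset (isClosed_tsupport Y) hYX
  have hsep : tsupport Y ∩ μ.support ⊆ W₁ ∪ W₂ := by
    intro y hy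
    by_contra hcon
    have hyF : y ∈ F := ⟨⟨hYX hy.1, hy.2⟩, hcon⟩
    have hyb := hcov hyF
    have hopen : IsOpen (⋃ i ∈ t, ball (x i) (r i)) :=
      isOpen_biUnion fun i _ => isOpen_ball
    have h3 : y ∉ tsupport Y := by
      rw [notMem_tsupport_iff_eventuallyEq]
      filter_upwards [hopen.mem_nhds hyb] with z hz
      simp [hY, hηz z hz]
    exact h3 hy.1
  have hYint := separated hS h1 h2 h12 hYc hYcs (hYX.trans hXU) hsep
  have hiX := (integrable_trc hS hX hc hXU).restrict (s := W₁)
  have hiY := (integrable_trc hS hYc hYcs (hYX.trans hXU)).restrict (s := W₁)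
  have e1 : ∫ y in W₁, trc (P y ∘L fderiv ℝ X y) ∂μ =
      ∫ y in W₁, (trc (P y ∘L fderiv ℝ X y) - trc (P y ∘L fderiv ℝ Y y)) ∂μ := by
    rw [integral_sub hiX hiY, hYint, sub_zero]
  rw [e1]
  -- pointwise bound
  set G : E N → ℝ := fun y => ∑ i ∈ t, (ball (x i) (2 * r i)).indicator
    (fun _ => N * L + M * (8 / r i)) y with hG
  have hball : ∀ i ∈ t, (μ.restrict W₁) (ball (x i) (2 * r i)) < ⊤ := by
    intro i hi
    have h3 : ENNReal.ofReal (1 / r i) * (μ.restrict W₁) (ball (x i) (2 * r i)) < ⊤ :=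
      (Finset.single_le_sum (f := fun i => ENNReal.ofReal (1 / r i) *
        (μ.restrict W₁) (ball (x i) (2 * r i))) (fun _ _ => zero_le) hi).trans_lt
        (hsum.trans_lt ENNReal.ofReal_lt_top)
    have h4 : ENNReal.ofReal (1 / r i) ≠ 0 :=
      (ENNReal.ofReal_pos.2 (one_div_pos.2 (hr i).1)).ne'
    by_contra hcon
    rw [not_lt, top_le_iff] at hcon
    rw [hcon, ENNReal.mul_top h4] at h3
    exact lt_irrefl _ h3
  have hGi : ∀ i ∈ t, Integrable ((ball (x i) (2 * r i)).indicator
      (fun _ => (N * L + M * (8 / r i) : ℝ))) (μ.restrict W₁) := by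
    intro i hi
    rw [integrable_indicator_iff measurableSet_ball]
    apply integrableOn_const
    · exact (hball i hi).ne
    · exact enorm_ne_top
  have hGint : Integrable G (μ.restrict W₁) := integrable_finsetSum _ hGi
  have hbound : ∀ᵐ y ∂(μ.restrict W₁), ‖trc (P y ∘L fderiv ℝ X y) -
      trc (P y ∘L fderiv ℝ Y y)‖ ≤ G y := by
    filter_upwards with y
    have hfY : fderiv ℝ Y y = η y • fderiv ℝ X y + (fderiv ℝ η y).smulRight (X y) := by
      have ha := ((hηc.differentiable one_ne_zero y).hasFDerivAt).smul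
        ((hX.differentiable one_ne_zero y).hasFDerivAt)
      exact ha.fderiv
    have e2 : trc (P y ∘L fderiv ℝ X y) - trc (P y ∘L fderiv ℝ Y y) =
        (1 - η y) * trc (P y ∘L fderiv ℝ X y) - fderiv ℝ η y (P y (X y)) := by
      rw [hfY, ContinuousLinearMap.comp_add, trc_add, trc_rank, ContinuousLinearMap.comp_smul,
        trc_smul]
      ring
    rw [e2, Real.norm_eq_abs]
    have h3 : |trc (P y ∘L fderiv ℝ X y)| ≤ N * L :=
      (abs_trc_comp_le (hS.nrm y)).trans (mul_le_mul_of_nonneg_left (hL y) (Nat.cast_nonneg _))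
    have h4 : |fderiv ℝ η y (P y (X y))| ≤ ‖fderiv ℝ η y‖ * M := by
      have h5 := (fderiv ℝ η y).le_opNorm (P y (X y))
      have h6 : ‖P y (X y)‖ ≤ M := by
        refine ((P y).le_opNorm _).trans ?_
        have h7 := hS.nrm y
        have h8 := hM y
        have h9 := norm_nonneg (X y)
        nlinarith [norm_nonneg (P y)]
      exact h5.trans (mul_le_mul_of_nonneg_left h6 (norm_nonneg _))
    have h5 : 1 - η y ≤ ∑ i ∈ t, (ball (x i) (2 * r i)).indicator (fun _ => (1:ℝ)) y := by
      by_cases hy : y ∈ ⋃ i ∈ t, ball (x i) (2 * r i)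
      · simp only [mem_iUnion] at hy
        obtain ⟨i, hi, hyi⟩ := hy
        have h6 : (1:ℝ) ≤ ∑ i ∈ t, (ball (x i) (2 * r i)).indicator (fun _ => (1:ℝ)) y := by
          have h7 : (ball (x i) (2 * r i)).indicator (fun _ => (1:ℝ)) y = 1 :=
            indicator_of_mem hyi _
          refine le_trans (le_of_eq h7.symm) ?_
          exact Finset.single_le_sum
            (f := fun i => (ball (x i) (2 * r i)).indicator (fun _ => (1:ℝ)) y)
            (fun j _ => indicator_nonneg (fun _ _ => zero_le_one) _) hi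
        have := hη0 y
        linarith
      · rw [hηo y hy, sub_self]
        exact Finset.sum_nonneg fun j _ => indicator_nonneg (fun _ _ => zero_le_one) _
    have h6 : 0 ≤ 1 - η y := by have := hη1 y; linarith
    have hNL : 0 ≤ (N:ℝ) * L := by positivity
    calc |(1 - η y) * trc (P y ∘L fderiv ℝ X y) - fderiv ℝ η y (P y (X y))|
        ≤ |(1 - η y) * trc (P y ∘L fderiv ℝ X y)| + |fderiv ℝ η y (P y (X y))| := abs_sub _ _
      _ ≤ (∑ i ∈ t, (ball (x i) (2 * r i)).indicator (fun _ => (1:ℝ)) y) * (N * L) +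
          (∑ i ∈ t, (ball (x i) (2 * r i)).indicator (fun _ => 8 / r i) y) * M := by
          apply add_le_add
          · rw [abs_mul, abs_of_nonneg h6]
            exact mul_le_mul h5 h3 (abs_nonneg _) (h6.trans h5)
          · exact h4.trans (mul_le_mul_of_nonneg_right (hηd y) hM0)
      _ = G y := by
          rw [hG, Finset.sum_mul, Finset.sum_mul, ← Finset.sum_add_distrib]
          apply Finset.sum_congr rfl
          intro i _
          by_cases hy : y ∈ ball (x i) (2 * r i)
          · simp only [indicator_of_mem hy]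
            ring
          · simp only [indicator_of_notMem hy]
            ring
  have h3 := norm_integral_le_of_norm_le hGint hbound
  rw [Real.norm_eq_abs] at h3
  refine h3.trans ?_
  rw [hG, integral_finsetSum _ hGi]
  have hsum' : ∑ i ∈ t, (1 / r i) * (μ.restrict W₁).real (ball (x i) (2 * r i)) ≤ ε := by
    have h4 : ENNReal.ofReal (∑ i ∈ t, (1 / r i) * (μ.restrict W₁).real (ball (x i) (2 * r i))) ≤
        ENNReal.ofReal ε := by
      refine le_trans (le_of_eq ?_) hsum
      rw [ENNReal.ofReal_sum_of_nonneg]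
      · apply Finset.sum_congr rfl
        intro i hi
        rw [ENNReal.ofReal_mul (one_div_pos.2 (hr i).1).le, Measure.real,
          ENNReal.ofReal_toReal (hball i hi).ne]
      · intro i _
        have := (one_div_pos.2 (hr i).1).le
        positivity
    exact (ENNReal.ofReal_le_ofReal_iff hε.le).1 h4
  calc ∑ i ∈ t, ∫ y in W₁, (ball (x i) (2 * r i)).indicator
        (fun _ => N * L + M * (8 / r i)) y ∂μ
      ≤ ∑ i ∈ t, (N * L + M * 8) * ((1 / r i) * (μ.restrict W₁).real (ball (x i) (2 * r i))) := by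
        apply Finset.sum_le_sum
        intro i hi
        obtain ⟨h5, h7⟩ := hr i
        rw [integral_indicator measurableSet_ball, setIntegral_const, smul_eq_mul]
        have h8 : 0 ≤ (μ.restrict W₁).real (ball (x i) (2 * r i)) := measureReal_nonneg
        have h9 : N * L + M * (8 / r i) ≤ (N * L + M * 8) * (1 / r i) := by
          have h10 : 1 ≤ 1 / r i := by
            rw [le_div_iff₀ h5, one_mul]
            exact h7
          have h11 : 0 ≤ (N:ℝ) * L := by positivity
          have e : (N * L + M * 8) * (1 / r i) = N * L * (1 / r i) + M * (8 / r i) := by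
            field_simp
          rw [e]
          nlinarith
        calc (μ.restrict W₁).real (ball (x i) (2 * r i)) * (N * L + M * (8 / r i))
            ≤ (μ.restrict W₁).real (ball (x i) (2 * r i)) * ((N * L + M * 8) * (1 / r i)) :=
              mul_le_mul_of_nonneg_left h9 h8
          _ = (N * L + M * 8) * ((1 / r i) * (μ.restrict W₁).real (ball (x i) (2 * r i))) := by
              ring
    _ = (N * L + M * 8) * ∑ i ∈ t, ((1 / r i) * (μ.restrict W₁).real (ball (x i) (2 * r i))) := by
        rw [Finset.mul_sum]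
    _ ≤ (N * L + M * 8) * ε :=
        mul_le_mul_of_nonneg_left hsum' (by positivity)

theorem restrict {m : ℕ} {U : Set (E N)} {μ : Measure (E N)}
    {P : E N → E N →L[ℝ] E N}
    (hS : Stat m U μ P) {W₁ W₂ : Set (E N)} (h1 : IsOpen W₁) (h2 : IsOpen W₂)
    (h12 : μ.support ∩ U ∩ W₁ ∩ W₂ = ∅)
    (h0 : ∀ K ⊆ U, IsCompact K →
      SmallCov (μ.restrict W₁) ((K ∩ μ.support) \ (W₁ ∪ W₂))) :
    Stat m U (μ.restrict W₁) P := by
  refine ⟨?_, hS.meas, hS.nrm, ?_, ?_⟩
  · intro K hK hKc
    exact (Measure.restrict_apply_le _ _).trans_lt (hS.fin K hK hKc)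
  · exact ae_mono (Measure.restrict_mono_measure Measure.restrict_le_self U) hS.tr
  · intro X hX hc hXU
    obtain ⟨A, hA⟩ := estimate hS h1 h2 h12 h0 hX hc hXU
    by_contra hne
    have hpos : 0 < |∫ y in W₁, trc (P y ∘L fderiv ℝ X y) ∂μ| := abs_pos.2 hne
    set a := |∫ y in W₁, trc (P y ∘L fderiv ℝ X y) ∂μ| with ha
    have h3 := hA (a / (2 * (|A| + 1))) (by positivity)
    have h4 : A * (a / (2 * (|A| + 1))) ≤ a / 2 := by
      have h5 : A ≤ |A| := le_abs_self A
      have h6 : 0 ≤ |A| := abs_nonneg A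
      have e : A * (a / (2 * (|A| + 1))) = (A / (|A| + 1)) * (a / 2) := by
        field_simp
      rw [e]
      have h7 : A / (|A| + 1) ≤ 1 := by
        rw [div_le_one (by positivity)]
        linarith
      nlinarith
    linarith

end Pool.Agent.TH337.VF
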