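import Pool.Agent.TH337.VF.Mixed2

/-!
Interfaces covered by closed sets of finite (m-1)-dimensional measure.
-/

namespace Pool.Agent.TH337.VF

open MeasureTheory Set Filter Topology Metric
open scoped ENNReal RealInnerProductSpace

variable {N : ℕ}

theorem restrict_mixed {m : ℕ} (hm : 1 ≤ m) {U : Set (E N)} (hU : IsOpen U) {μ : Measure (E N)}
    {P : E N → E N →L[ℝ] E N}
    (hS : Stat m U μ P) {W₁ W₂ : Set (E N)} (h1 : IsOpen W₁) (h2 : IsOpen W₂)
    (h12 : μ.support ∩ U ∩ W₁ ∩ W₂ = ∅) {Z : Set (E N)}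
    (hZ : μH[((m - 1 : ℕ):ℝ)] Z = 0)
    (hFt : μH[((m - 1 : ℕ):ℝ)] (U \ (W₁ ∪ W₂)) ≠ ⊤)
    (hz : ∀ z ∈ U \ (W₁ ∪ W₂), z ∉ Z →
      ZD m (μ.restrict W₁) z ∨ ZD m (μ.restrict W₂) z) :
    Stat m U (μ.restrict W₁) P := by
  refine ⟨?_, hS.meas, hS.nrm, ?_, ?_⟩
  · intro K hK hKc
    exact (Measure.restrict_apply_le _ _).trans_lt (hS.fin K hK hKc)
  · exact ae_mono (Measure.restrict_mono_measure Measure.restrict_le_self U) hS.tr
  · intro X hX hc hXU
    have hsub : (tsupport X ∩ μ.support) \ (W₁ ∪ W₂) ⊆ U \ (W₁ ∪ W₂) :=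
      fun y hy => ⟨hXU hy.1.1, hy.2⟩
    obtain ⟨A, hA⟩ := mixed_estimate hm hU hS h1 h2 h12 hZ hX hc hXU
      ((measure_mono hsub).trans_lt (lt_top_iff_ne_top.2 hFt)).ne
      (fun z hz' hzZ => hz z (hsub hz') hzZ)
    by_contra hne
    have hpos : 0 < |∫ y in W₁, trc (P y ∘L fderiv ℝ X y) ∂μ| := abs_pos.2 hne
    set a := |∫ y in W₁, trc (P y ∘L fderiv ℝ X y) ∂μ| with ha
    have h3 := hA (a / (2 * (|A| + 1))) (by positivity)
    have h4 : A * (a / (2 * (|A| + 1))) ≤ a / 2 := by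
      have h5 : A ≤ |A| := le_abs_self A
      have h6 : 0 ≤ |A| := abs_nonneg A
      have e : A * (a / (2 * (|A| + 1))) = (A / (|A| + 1)) * (a / 2) := by
        field_simp
      rw [e]
      have h7 : A / (|A| + 1) ≤ 1 := by
        rw [div_le_one (by positivity)]
        linarith
      nlinarith
    linarith

/-- vanishing upper density of the part of `μ` in `S` gives the one-sided condition -/
lemma ZD_of_upperDens {m : ℕ} (hm : 1 ≤ m) {μ : Measure (E N)} {S : Set (E N)} {z : E N}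
    (h : upperDens m μ S z = 0) : ZD m (μ.restrict (nn μ Sᶜ)) z := by
  unfold ZD
  set ω := volume (ball (0 : EuclideanSpace ℝ (Fin m)) 1) with hω
  have hω0 : ω ≠ 0 := omega_pos m
  have hω1 : ω ≠ ⊤ := omega_lt m
  have h1 : Tendsto (fun r : ℝ => μ (ball z r ∩ S) / (ω * ENNReal.ofReal r ^ m)) (𝓝[>] 0)
      (𝓝 0) := tendsto_of_le_liminf_of_limsup_le zero_le h.le
  have h2 : Tendsto (fun r : ℝ => ω * (μ (ball z r ∩ S) / (ω * ENNReal.ofReal r ^ m))) (𝓝[>] 0)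
      (𝓝 (ω * 0)) := ENNReal.Tendsto.const_mul h1 (Or.inr hω1)
  rw [mul_zero] at h2
  apply tendsto_of_tendsto_of_tendsto_of_le_of_le' tendsto_const_nhds h2
  · exact Eventually.of_forall fun _ => zero_le
  · filter_upwards [self_mem_nhdsWithin] with r hr
    have hr0 : 0 < r := hr
    have e1 : ENNReal.ofReal (r ^ (((m - 1 : ℕ):ℝ) + 1)) = ENNReal.ofReal r ^ m := by
      rw [← ENNReal.ofReal_pow hr0.le]
      congr 1
      rw [← Nat.cast_one (R := ℝ), ← Nat.cast_add, Nat.sub_add_cancel hm, Real.rpow_natCast]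
    have e2 : (μ.restrict (nn μ Sᶜ)) (ball z r) ≤ μ (ball z r ∩ S) := by
      rw [Measure.restrict_apply measurableSet_ball]
      have hsub : ball z r ∩ nn μ Sᶜ ⊆ (ball z r ∩ S) ∪ (nn μ Sᶜ ∩ Sᶜ) := by
        intro w hw
        by_cases h1 : w ∈ S
        · exact Or.inl ⟨hw.1, h1⟩
        · exact Or.inr ⟨hw.2, h1⟩
      refine (measure_mono hsub).trans ((measure_union_le _ _).trans ?_)
      rw [measure_nn μ Sᶜ, add_zero]
    have hr' : ENNReal.ofReal r ^ m ≠ 0 := pow_ne_zero _ (ENNReal.ofReal_pos.2 hr0).ne'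
    have hr'' : ENNReal.ofReal r ^ m ≠ ⊤ := ENNReal.pow_ne_top ENNReal.ofReal_ne_top
    rw [e1]
    refine (ENNReal.div_le_div_right e2 _).trans (le_of_eq ?_)
    rw [← mul_div_assoc]
    exact (ENNReal.mul_div_mul_left _ _ hω0 hω1).symm

/-- the one-sided condition on the interface makes each side stationary -/
lemma stat_mixed {m : ℕ} (hm : 1 ≤ m) {U O : Set (E N)} {μ : Measure (E N)}
    {P : E N → E N →L[ℝ] E N} (hS : Stat m U μ P) (hO : IsOpen O) (hOU : O ⊆ U) (S : Set (E N))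
    (h0 : μH[((m - 1 : ℕ):ℝ)] (ifc O μ S) ≠ ⊤) {Z : Set (E N)}
    (hZ : μH[((m - 1 : ℕ):ℝ)] Z = 0)
    (hz : ∀ z ∈ ifc O μ S, z ∉ Z → upperDens m μ S z = 0 ∨ upperDens m μ Sᶜ z = 0) :
    Stat m O (μ.restrict (nn μ Sᶜ)) P := by
  have e : O \ (nn μ Sᶜ ∪ nn μ S) = ifc O μ S := by
    unfold ifc
    rw [union_comm]
  apply restrict_mixed hm hO (hS.sub hOU) (isOpen_nn μ Sᶜ) (isOpen_nn μ S) (nn_disj μ S O) hZ
  · rwa [e]
  · intro z hzI hzZ
    rw [e] at hzI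
    rcases hz z hzI hzZ with h | h
    · exact Or.inl (ZD_of_upperDens hm h)
    · right
      have := ZD_of_upperDens hm h
      rwa [compl_compl] at this

/-- an interface of finite measure with the one-sided condition is empty when the density is less
than `q + q'` -/
lemma finite_ifc {m : ℕ} (hm : 1 ≤ m) {U O : Set (E N)} {μ : Measure (E N)}
    {P : E N → E N →L[ℝ] E N} (hS : Stat m U μ P) (hO : IsOpen O) (hOU : O ⊆ U) {S : Set (E N)}
    {q q' : ℝ≥0∞} (hq : q ≠ ⊤) (hq' : q' ≠ ⊤)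
    (hqS : ∀ᵐ x ∂(μ.restrict U), x ∈ S → q ≤ density m μ x)
    (hqS' : ∀ᵐ x ∂(μ.restrict U), x ∈ Sᶜ → q' ≤ density m μ x)
    (hlt : ∀ x ∈ U, density m μ x < q + q')
    (h0 : μH[((m - 1 : ℕ):ℝ)] (ifc O μ S) ≠ ⊤) {Z : Set (E N)}
    (hZ : μH[((m - 1 : ℕ):ℝ)] Z = 0)
    (hz : ∀ z ∈ ifc O μ S, z ∉ Z → upperDens m μ S z = 0 ∨ upperDens m μ Sᶜ z = 0) :
    ifc O μ S = ∅ := by
  rw [eq_empty_iff_forall_notMem]
  intro z hzi
  have hzO : z ∈ O := hzi.1
  obtain ⟨R₀, hR₀, hRO⟩ := Metric.isOpen_iff.1 hO z hzO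
  set R := R₀ / 2 with hR
  have hR0 : 0 < R := by positivity
  have hcO : closedBall z R ⊆ O := (closedBall_subset_ball (by linarith)).trans hRO
  -- the interface has measure zero
  have hnull : μ (closedBall z R ∩ ifc O μ S) = 0 :=
    null_of_finite hm (hS.sub hOU) hO (isCompact_closedBall z R) hcO inter_subset_left
      (((measure_mono inter_subset_right).trans_lt (lt_top_iff_ne_top.2 h0)).ne)
  have hz1 : z ∉ nn μ S := fun h => hzi.2 (Or.inl h)
  have hz2 : z ∉ nn μ Sᶜ := fun h => hzi.2 (Or.inr h)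
  have key : ∀ T : Set (E N), (T = S ∨ T = Sᶜ) → ∀ δ : ℝ, 0 < δ → μ (ball z δ ∩ nn μ Tᶜ) ≠ 0 := by
    intro T hT δ hδ hcon
    have hzT : z ∉ nn μ T := by
      rcases hT with rfl | rfl
      · exact hz1
      · exact hz2
    apply hzT
    refine ⟨min δ R, lt_min hδ hR0, ?_⟩
    have hsub : ball z (min δ R) ∩ T ⊆ (ball z δ ∩ nn μ Tᶜ) ∪
        ((nn μ T ∩ T) ∪ (closedBall z R ∩ ifc O μ S)) := by
      intro y hy
      have hyR : y ∈ closedBall z R :=
        ball_subset_closedBall (ball_subset_ball (min_le_right _ _) hy.1)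
      by_cases h1 : y ∈ nn μ Tᶜ
      · exact Or.inl ⟨ball_subset_ball (min_le_left _ _) hy.1, h1⟩
      · by_cases h2 : y ∈ nn μ T
        · exact Or.inr (Or.inl ⟨h2, hy.2⟩)
        · refine Or.inr (Or.inr ⟨hyR, hcO hyR, ?_⟩)
          rintro (h3 | h3)
          · rcases hT with rfl | rfl
            · exact h2 h3
            · rw [compl_compl] at h1
              exact h1 h3
          · rcases hT with rfl | rfl
            · exact h1 h3
            · exact h2 h3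
    refine measure_mono_null hsub ?_
    rw [measure_union_null_iff, measure_union_null_iff]
    exact ⟨hcon, measure_nn μ T, hnull⟩
  have hbR : ∀ r : ℝ, 0 < r → r ≤ R → ball z r ⊆ O := fun r _ hr =>
    (ball_subset_closedBall.trans (closedBall_subset_closedBall hr)).trans hcO
  have hA := stat_mixed hm hS hO hOU S h0 hZ hz
  have hB' := stat_mixed hm hS hO hOU Sᶜ (by rwa [ifc_compl]) hZ (by
    intro w hw hwZ
    rw [ifc_compl] at hw
    rw [compl_compl]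
    exact (hz w hw hwZ).symm)
  have hdens : q + q' ≤ density m μ z := by
    unfold density
    apply le_limsup_of_frequently_le'
    apply Eventually.frequently
    filter_upwards [Ioc_mem_nhdsGT hR0] with r hr
    have h1 := lower_side hOU hA hq hqS hr.1 (hbR r hr.1 hr.2) (key S (Or.inl rfl))
    have h2 := lower_side hOU hB' hq' hqS' hr.1 (hbR r hr.1 hr.2) (key Sᶜ (Or.inr rfl))
    rw [compl_compl] at h2
    have hr' : ENNReal.ofReal r ≠ 0 := (ENNReal.ofReal_pos.2 hr.1).ne'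
    rw [ENNReal.le_div_iff_mul_le (Or.inl (mul_ne_zero (omega_pos m) (pow_ne_zero _ hr')))
      (Or.inl (ENNReal.mul_ne_top (omega_lt m) (ENNReal.pow_ne_top ENNReal.ofReal_ne_top))),
      add_mul]
    refine (add_le_add h1 h2).trans ?_
    have hdis : μ ((ball z r ∩ nn μ Sᶜ) ∩ (ball z r ∩ nn μ S)) = 0 := by
      refine measure_mono_null ?_ (μ.measure_compl_support)
      intro y hy hys
      have : y ∈ μ.support ∩ univ ∩ nn μ Sᶜ ∩ nn μ S := ⟨⟨⟨hys, mem_univ _⟩, hy.1.2⟩, hy.2.2⟩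
      rw [nn_disj] at this
      exact this
    rw [← measure_union₀ (measurableSet_ball.inter (isOpen_nn μ S).measurableSet).nullMeasurableSet
      hdis]
    exact measure_mono (union_subset inter_subset_left inter_subset_left)
  exact absurd (hlt z (hOU hzO)) (not_lt.2 hdens)

/-- the general interface theorem -/
theorem interface_empty' {m : ℕ} (hm : 1 ≤ m) {U : Set (E N)} (hU : IsOpen U) {μ : Measure (E N)}
    {P : E N → E N →L[ℝ] E N} (hS : Stat m U μ P) {S : Set (E N)}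
    {q q' : ℝ≥0∞} (hq : q ≠ ⊤) (hq' : q' ≠ ⊤)
    (hqS : ∀ᵐ x ∂(μ.restrict U), x ∈ S → q ≤ density m μ x)
    (hqS' : ∀ᵐ x ∂(μ.restrict U), x ∈ Sᶜ → q' ≤ density m μ x)
    (hlt : ∀ x ∈ U, density m μ x < q + q')
    (C : ℕ → Set (E N)) (hC : ∀ n, IsClosed (C n))
    (hC0 : ∀ n, μH[((m - 1 : ℕ):ℝ)] (C n) ≠ ⊤) {Z : Set (E N)}
    (hZ : μH[((m - 1 : ℕ):ℝ)] Z = 0)
    (hz' : ∀ z ∈ ifc U μ S, (∃ n, z ∈ C n) → z ∉ Z →
      upperDens m μ S z = 0 ∨ upperDens m μ Sᶜ z = 0)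
    (hz : ∀ z ∈ ifc U μ S, (∀ n, z ∉ C n) →
      upperDens m μ S z < (1 / 2) ^ m * q ∨ upperDens m μ Sᶜ z < (1 / 2) ^ m * q') :
    ifc U μ S = ∅ := by
  classical
  by_contra hne
  obtain ⟨z₁, hz₁⟩ := nonempty_iff_ne_empty.2 hne
  obtain ⟨R₀, hR₀, hRU⟩ := Metric.isOpen_iff.1 hU z₁ hz₁.1
  set R := R₀ / 2 with hR
  have hR0 : 0 < R := by positivity
  have hcU : closedBall z₁ R ⊆ U := (closedBall_subset_ball (by linarith)).trans hRU
  set J : Set (E N) := ifc U μ S ∩ ball z₁ R with hJ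
  set F : Set (E N) := closure J with hF
  have hFb : F ⊆ closedBall z₁ R :=
    closure_minimal (inter_subset_right.trans ball_subset_closedBall) isClosed_closedBall
  have hFn : F ⊆ (nn μ S ∪ nn μ Sᶜ)ᶜ :=
    closure_minimal (fun z hz => hz.1.2) ((isOpen_nn μ S).union (isOpen_nn μ Sᶜ)).isClosed_compl
  have hFI : F ⊆ ifc U μ S := fun z hz => ⟨hcU (hFb hz), hFn hz⟩
  have hFc : IsCompact F := (isCompact_closedBall z₁ R).of_isClosed_subset isClosed_closure hFb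
  have hz₁J : z₁ ∈ J := ⟨hz₁, mem_ball_self hR0⟩
  have : CompactSpace F := isCompact_iff_compactSpace.1 hFc
  have : Nonempty F := ⟨⟨z₁, subset_closure hz₁J⟩⟩
  set θ := (1 / 2) ^ m * q with hθ
  set θ' := (1 / 2) ^ m * q' with hθ'
  let f : (ℕ ⊕ ((ℕ × ℚ) ⊕ (ℕ × ℚ))) → Set (E N) := fun i => match i with
    | Sum.inl n => C n
    | Sum.inr (Sum.inl i) => GG m μ S θ i
    | Sum.inr (Sum.inr i) => GG m μ Sᶜ θ' i
  have hfc : ∀ i, IsClosed (f i) := by
    rintro (n | i | i)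
    · exact hC n
    · exact isClosed_GG m μ S θ i
    · exact isClosed_GG m μ Sᶜ θ' i
  have hfU : ⋃ i, (Subtype.val ⁻¹' (f i) : Set F) = univ := by
    rw [eq_univ_iff_forall]
    intro z
    rw [mem_iUnion]
    by_cases hzC : ∀ n, (z : E N) ∉ C n
    · rcases hz z.1 (hFI z.2) hzC with h | h
      · obtain ⟨i, hi⟩ := mem_GG h
        exact ⟨Sum.inr (Sum.inl i), hi⟩
      · obtain ⟨i, hi⟩ := mem_GG h
        exact ⟨Sum.inr (Sum.inr i), hi⟩
    · push Not at hzC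
      obtain ⟨n, hn⟩ := hzC
      exact ⟨Sum.inl n, hn⟩
  obtain ⟨i, hi⟩ := nonempty_interior_of_iUnion_of_closed
    (fun i => (hfc i).preimage continuous_subtype_val) hfU
  obtain ⟨w, hw⟩ := hi
  rw [mem_interior] at hw
  obtain ⟨V, hVf, hVo, hwV⟩ := hw
  obtain ⟨O₁, hO₁, rfl⟩ := isOpen_induced_iff.1 hVo
  have hO₁f : ∀ z ∈ F, z ∈ O₁ → z ∈ f i := fun z hz hzO => hVf (a := ⟨z, hz⟩) hzO
  -- a point of J in O₁
  have hwF : (w : E N) ∈ closure J := w.2
  obtain ⟨p, hpO, hpJ⟩ := mem_closure_iff.1 hwF O₁ hO₁ hwV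
  have hpF : p ∈ F := subset_closure hpJ
  have hpf : p ∈ f i := hO₁f p hpF hpO
  set O₂ : Set (E N) := O₁ ∩ ball z₁ R with hO₂
  have hO₂o : IsOpen O₂ := hO₁.inter isOpen_ball
  have hO₂U : O₂ ⊆ U := inter_subset_right.trans (ball_subset_closedBall.trans hcU)
  have hpI : p ∈ ifc O₂ μ S := ⟨⟨hpO, hpJ.2⟩, hpJ.1.2⟩
  have hall : ∀ z ∈ ifc O₂ μ S, z ∈ f i := by
    intro z hz
    exact hO₁f z (subset_closure ⟨⟨hO₂U hz.1, hz.2⟩, hz.1.2⟩) hz.1.1
  have hhalf : ∀ (c : NNReal) (q : ℝ≥0∞), (c : ℝ≥0∞) < (1 / 2) ^ m * q → (c : ℝ≥0∞) * 2 ^ m < q := by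
    intro c q h
    have h2 : (2:ℝ≥0∞) ^ m ≠ 0 := pow_ne_zero _ (by norm_num)
    have h3 : (2:ℝ≥0∞) ^ m ≠ ⊤ := ENNReal.pow_ne_top (by norm_num)
    have h4 : (1 / 2 : ℝ≥0∞) ^ m * q * 2 ^ m = q := by
      have h5 : (1 / 2 : ℝ≥0∞) ^ m * 2 ^ m = 1 := by
        rw [← mul_pow]
        have : (1 / 2 : ℝ≥0∞) * 2 = 1 := ENNReal.div_mul_cancel (by norm_num) (by norm_num)
        rw [this, one_pow]
      calc (1 / 2 : ℝ≥0∞) ^ m * q * 2 ^ m = ((1 / 2 : ℝ≥0∞) ^ m * 2 ^ m) * q := by ring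
        _ = q := by rw [h5, one_mul]
    calc (c : ℝ≥0∞) * 2 ^ m < (1 / 2 : ℝ≥0∞) ^ m * q * 2 ^ m :=
          ENNReal.mul_lt_mul_left h2 h3 h
      _ = q := h4
  rcases i with n | ⟨k, c⟩ | ⟨k, c⟩
  · have he : ifc O₂ μ S = ∅ := by
      apply finite_ifc hm hS hO₂o hO₂U hq hq' hqS hqS' hlt _ hZ
      · intro z hz hzZ
        exact hz' z ⟨hO₂U hz.1, hz.2⟩ ⟨n, hall z hz⟩ hzZ
      · exact ((measure_mono (fun z hz => hall z hz)).trans_lt (lt_top_iff_ne_top.2 (hC0 n))).ne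
    rw [he] at hpI
    exact hpI
  · have he : ifc O₂ μ S = ∅ := by
      apply uniform hm hS hO₂o hO₂U hq hqS (c := ((Real.toNNReal c : NNReal) : ℝ≥0∞))
        (r₀ := 1 / ((k:ℝ) + 1)) (hhalf _ _ hpf.1) (by positivity)
      intro z hz r hr hrk
      exact (hall z hz).2 r hr hrk
    rw [he] at hpI
    exact hpI
  · have he : ifc O₂ μ Sᶜ = ∅ := by
      apply uniform hm hS hO₂o hO₂U hq' hqS' (c := ((Real.toNNReal c : NNReal) : ℝ≥0∞))
        (r₀ := 1 / ((k:ℝ) + 1)) (hhalf _ _ hpf.1) (by positivity)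
      intro z hz r hr hrk
      rw [ifc_compl] at hz
      exact (hall z hz).2 r hr hrk
    rw [ifc_compl] at he
    rw [he] at hpI
    exact hpI

end Pool.Agent.TH337.VF
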