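import Pool.Agent.TH337.VF.Cutoff

/-!
Sets which can be covered by balls with small total (mass / radius).
-/

namespace Pool.Agent.TH337.VF

open MeasureTheory Set Filter Topology Metric
open scoped ENNReal RealInnerProductSpace

variable {N : ℕ}

/-- coverings by small balls with small sum of (mass of the doubled ball) / radius -/
def SmallCov (ν : Measure (E N)) (P : Set (E N)) : Prop :=
  ∀ ε δ : ℝ, 0 < ε → 0 < δ → ∃ (ι : Type) (_ : Countable ι) (x : ι → E N) (r : ι → ℝ),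
    (∀ i, 0 < r i ∧ r i ≤ δ) ∧ P ⊆ ⋃ i, ball (x i) (r i) ∧
    ∑' i, ENNReal.ofReal (1 / r i) * ν (ball (x i) (2 * r i)) ≤ ENNReal.ofReal ε

lemma SmallCov.mono {ν : Measure (E N)} {P Q : Set (E N)} (h : SmallCov ν Q) (hPQ : P ⊆ Q) :
    SmallCov ν P := by
  intro ε δ hε hδ
  obtain ⟨ι, hι, x, r, h1, h2, h3⟩ := h ε δ hε hδ
  exact ⟨ι, hι, x, r, h1, hPQ.trans h2, h3⟩

lemma SmallCov.mono_measure {ν ν' : Measure (E N)} {P : Set (E N)} (h : SmallCov ν P)
    (hν : ν' ≤ ν) : SmallCov ν' P := by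
  intro ε δ hε hδ
  obtain ⟨ι, hι, x, r, h1, h2, h3⟩ := h ε δ hε hδ
  refine ⟨ι, hι, x, r, h1, h2, le_trans ?_ h3⟩
  exact ENNReal.tsum_le_tsum fun i => mul_le_mul_right (hν _) _

lemma geom_ofReal {ε : ℝ} (hε : 0 < ε) :
    ∑' n : ℕ, ENNReal.ofReal (ε / 2 / 2 ^ n) = ENNReal.ofReal ε := by
  have hsum : HasSum (fun i : ℕ => ε / 2 / 2 ^ i) ε := hasSum_geometric_two' ε
  rw [← ENNReal.ofReal_tsum_of_nonneg (fun i => by positivity) hsum.summable, hsum.tsum_eq]

lemma SmallCov.iUnion {ν : Measure (E N)} {P : ℕ → Set (E N)} (h : ∀ j, SmallCov ν (P j)) :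
    SmallCov ν (⋃ j, P j) := by
  intro ε δ hε hδ
  have h' := fun j : ℕ => h j (ε / 2 / 2 ^ j) δ (by positivity) hδ
  choose ι hι x r h1 h2 h3 using h'
  refine ⟨Σ j, ι j, inferInstance, fun i => x i.1 i.2, fun i => r i.1 i.2, fun i => h1 i.1 i.2,
    ?_, ?_⟩
  · apply iUnion_subset
    intro j y hy
    obtain ⟨i, hi⟩ := mem_iUnion.1 (h2 j hy)
    exact mem_iUnion.2 ⟨⟨j, i⟩, hi⟩
  · rw [ENNReal.tsum_sigma (fun j i => ENNReal.ofReal (1 / r j i) * ν (ball (x j i) (2 * r j i))),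
      ← geom_ofReal hε]
    exact ENNReal.tsum_le_tsum h3

lemma SmallCov.union {ν : Measure (E N)} {P Q : Set (E N)} (h1 : SmallCov ν P)
    (h2 : SmallCov ν Q) : SmallCov ν (P ∪ Q) := by
  have h3 : SmallCov ν (⋃ j : ℕ, if j = 0 then P else Q) := by
    apply SmallCov.iUnion
    intro j
    by_cases hj : j = 0
    · simpa [hj] using h1
    · simpa [hj] using h2
  apply h3.mono
  intro y hy
  rcases hy with hy | hy
  · exact mem_iUnion.2 ⟨0, by simpa using hy⟩
  · exact mem_iUnion.2 ⟨1, by simpa using hy⟩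

/-- the measure of such a set vanishes -/
lemma SmallCov.null {ν : Measure (E N)} {P : Set (E N)} (h : SmallCov ν P) : ν P = 0 := by
  by_contra hne
  have h0 : 0 < ν P := pos_iff_ne_zero.2 hne
  obtain ⟨ε, hε, hεν⟩ : ∃ ε : ℝ, 0 < ε ∧ ENNReal.ofReal ε < ν P := by
    obtain ⟨c, hc0, hc⟩ := ENNReal.lt_iff_exists_nnreal_btwn.1 h0
    refine ⟨c, by simpa using hc0, by simpa using hc⟩
  obtain ⟨ι, hι, x, r, h1, h2, h3⟩ := h ε 1 hε one_pos
  have h4 : ν P ≤ ENNReal.ofReal ε := by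
    refine (measure_mono h2).trans ((measure_iUnion_le _).trans (le_trans ?_ h3))
    apply ENNReal.tsum_le_tsum
    intro i
    have h5 : (1:ℝ≥0∞) ≤ ENNReal.ofReal (1 / r i) := by
      rw [← ENNReal.ofReal_one]
      apply ENNReal.ofReal_le_ofReal
      rw [le_div_iff₀ (h1 i).1, one_mul]
      exact (h1 i).2
    calc ν (ball (x i) (r i)) ≤ ν (ball (x i) (2 * r i)) :=
          measure_mono (ball_subset_ball (by linarith [(h1 i).1]))
      _ = 1 * ν (ball (x i) (2 * r i)) := (one_mul _).symm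
      _ ≤ ENNReal.ofReal (1 / r i) * ν (ball (x i) (2 * r i)) := mul_le_mul_left h5 _
  exact absurd h4 (not_le.2 hεν)

/-- finite subcover -/
lemma SmallCov.finite {ν : Measure (E N)} {F : Set (E N)} (h : SmallCov ν F) (hF : IsCompact F)
    {ε δ : ℝ} (hε : 0 < ε) (hδ : 0 < δ) :
    ∃ (ι : Type) (t : Finset ι) (x : ι → E N) (r : ι → ℝ),
      (∀ i, 0 < r i ∧ r i ≤ δ) ∧ F ⊆ ⋃ i ∈ t, ball (x i) (r i) ∧
      ∑ i ∈ t, ENNReal.ofReal (1 / r i) * ν (ball (x i) (2 * r i)) ≤ ENNReal.ofReal ε := by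
  obtain ⟨ι, hι, x, r, h1, h2, h3⟩ := h ε δ hε hδ
  obtain ⟨t, ht⟩ := hF.elim_finite_subcover _ (fun _ => isOpen_ball) h2
  exact ⟨ι, t, x, r, h1, ht, (ENNReal.sum_le_tsum t).trans h3⟩

/-- sets of vanishing (m-1)-dimensional measure -/
lemma SmallCov.of_null {m : ℕ} (hm : 1 ≤ m) {U : Set (E N)} {μ : Measure (E N)}
    {P : E N → E N →L[ℝ] E N} (hS : Stat m U μ P) (hU : IsOpen U) {K Z : Set (E N)}
    (hK : IsCompact K) (hKU : K ⊆ U) (hZK : Z ⊆ K) (hZ : μH[((m - 1 : ℕ):ℝ)] Z = 0) :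
    SmallCov μ Z := by
  intro ε δ hε hδ
  obtain ⟨ρ, C, hρ, hC0, hub⟩ := upper hS hU hK hKU
  have hmin : 0 < min (ρ / 2) δ := lt_min (by linarith) hδ
  have hε' : 0 < ε / (C * 2 ^ m + 1) := by positivity
  obtain ⟨ι, hι, x, r, h1, h2, h3⟩ := cover (s := ((m - 1 : ℕ):ℝ)) (Nat.cast_nonneg _) (P := Z)
    (by rw [hZ]; exact ENNReal.zero_ne_top) hε' hmin
  refine ⟨ι, hι, x, r, fun i => ⟨(h1 i).2.1, (h1 i).2.2.trans (min_le_right _ _)⟩, h2, ?_⟩
  rw [hZ, zero_add] at h3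
  calc ∑' i, ENNReal.ofReal (1 / r i) * μ (ball (x i) (2 * r i))
      ≤ ∑' i, ENNReal.ofReal (C * 2 ^ m) * ENNReal.ofReal (r i ^ ((m - 1 : ℕ):ℝ)) := by
        apply ENNReal.tsum_le_tsum
        intro i
        obtain ⟨h4, h5, h6⟩ := h1 i
        have h7 : r i ≤ ρ / 2 := h6.trans (min_le_left _ _)
        have h8 := (hub (x i) (hZK h4)).2 (2 * r i) (by linarith) (by linarith)
        refine (mul_le_mul_right h8 _).trans ?_
        rw [← ENNReal.ofReal_mul (by positivity), ← ENNReal.ofReal_mul (by positivity)]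
        apply ENNReal.ofReal_le_ofReal
        rw [Real.rpow_natCast, mul_pow]
        have h11 : r i ^ m = r i ^ (m - 1) * r i := by
          rw [← pow_succ, Nat.sub_add_cancel hm]
        rw [h11]
        apply le_of_eq
        field_simp
    _ = ENNReal.ofReal (C * 2 ^ m) * ∑' i, ENNReal.ofReal (r i ^ ((m - 1 : ℕ):ℝ)) :=
        ENNReal.tsum_mul_left
    _ ≤ ENNReal.ofReal (C * 2 ^ m) * ENNReal.ofReal (ε / (C * 2 ^ m + 1)) :=
        mul_le_mul_right h3 _
    _ ≤ ENNReal.ofReal ε := by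
        rw [← ENNReal.ofReal_mul (by positivity)]
        apply ENNReal.ofReal_le_ofReal
        rw [mul_div_assoc', div_le_iff₀ (by positivity)]
        nlinarith [hε.le]

lemma isClosed_ball_le (ν : Measure (E N)) (r : ℝ) (c : ℝ≥0∞) :
    IsClosed {z : E N | ν (ball z r) ≤ c} := by
  rw [← isOpen_compl_iff, isOpen_iff]
  intro z hz
  have hz' : c < ν (ball z r) := not_le.1 hz
  have hu : ball z r = ⋃ n : ℕ, ball z (r - 1 / (n + 1)) := by
    ext y
    simp only [mem_iUnion, mem_ball]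
    constructor
    · intro hy
      obtain ⟨n, hn⟩ := exists_nat_one_div_lt (sub_pos.2 hy)
      exact ⟨n, by linarith⟩
    · rintro ⟨n, hn⟩
      have : (0:ℝ) < 1 / (n + 1) := by positivity
      linarith
  have hmono : Monotone fun n : ℕ => ball z (r - 1 / ((n:ℝ) + 1)) := by
    intro a b hab
    apply ball_subset_ball
    have : (1:ℝ) / (b + 1) ≤ 1 / (a + 1) := by
      apply one_div_le_one_div_of_le (by positivity)
      have : (a:ℝ) ≤ b := by exact_mod_cast hab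
      linarith
    linarith
  rw [hu, hmono.measure_iUnion, lt_iSup_iff] at hz'
  obtain ⟨n, hn⟩ := hz'
  refine ⟨1 / (n + 1), by positivity, ?_⟩
  intro w hw
  rw [mem_compl_iff, mem_setOf_eq, not_le]
  refine lt_of_lt_of_le hn (measure_mono ?_)
  apply ball_subset_ball'
  rw [mem_ball] at hw
  rw [dist_comm]
  linarith

/-- sets of finite `s`-dimensional measure with vanishing density of order `s + 1` -/
lemma SmallCov.of_dens {s : ℝ} (hs : 0 ≤ s) {ν : Measure (E N)} {P : Set (E N)}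
    (hP : μH[s] P ≠ ⊤)
    (hd : ∀ z ∈ P, Tendsto (fun r : ℝ => ν (ball z r) / ENNReal.ofReal (r ^ (s + 1)))
      (𝓝[>] 0) (𝓝 0)) : SmallCov ν P := by
  intro ε δ hε hδ
  set h := (μH[s] P).toReal with hh
  have hh0 : 0 ≤ h := ENNReal.toReal_nonneg
  set κ : ℝ := ε / (2 ^ (s + 1) * (h + 1)) with hκ
  have h2s : (0:ℝ) < 2 ^ (s + 1) := Real.rpow_pos_of_pos two_pos _
  have hκ0 : 0 < κ := by positivity
  -- the uniformity sets
  set G : ℕ → Set (E N) := fun k => {z | ∀ r : ℝ, 0 < r → r < 1 / ((k:ℝ) + 1) →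
    ν (ball z r) ≤ ENNReal.ofReal (κ * r ^ (s + 1))} with hG
  have hGc : ∀ k, IsClosed (G k) := by
    intro k
    have : G k = ⋂ (r : ℝ) (_ : 0 < r) (_ : r < 1 / ((k:ℝ) + 1)),
        {z | ν (ball z r) ≤ ENNReal.ofReal (κ * r ^ (s + 1))} := by
      ext z
      simp [hG]
    rw [this]
    exact isClosed_iInter fun r => isClosed_iInter fun _ => isClosed_iInter fun _ =>
      isClosed_ball_le ν r _
  have hPG : P ⊆ ⋃ k, G k := by
    intro z hz
    have h1 := (hd z hz).eventually (gt_mem_nhds (show (0:ℝ≥0∞) < ENNReal.ofReal κ from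
      ENNReal.ofReal_pos.2 hκ0))
    obtain ⟨b, hb, hb'⟩ := mem_nhdsGT_iff_exists_Ioo_subset.1 h1
    obtain ⟨k, hk⟩ := exists_nat_one_div_lt (show (0:ℝ) < b from hb)
    refine mem_iUnion.2 ⟨k, ?_⟩
    intro r hr hrk
    have h2 : ν (ball z r) / ENNReal.ofReal (r ^ (s + 1)) < ENNReal.ofReal κ :=
      hb' ⟨hr, hrk.trans hk⟩
    have h3 : 0 < r ^ (s + 1) := Real.rpow_pos_of_pos hr _
    have h4 := (ENNReal.div_le_iff (ENNReal.ofReal_pos.2 h3).ne' ENNReal.ofReal_ne_top).1 h2.le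
    rwa [← ENNReal.ofReal_mul hκ0.le] at h4
  set D : ℕ → Set (E N) := disjointed G with hD
  have hDm : ∀ k, MeasurableSet (D k) := MeasurableSet.disjointed fun k => (hGc k).measurableSet
  have hDG : ∀ k, D k ⊆ G k := fun k => disjointed_subset G k
  have hsumD : ∑' k, μH[s] (P ∩ D k) ≤ μH[s] P := by
    have h1 : ∀ k, μH[s] (P ∩ D k) = (μH[s].restrict P) (D k) := by
      intro k
      rw [Measure.restrict_apply (hDm k), inter_comm]
    simp only [h1]
    rw [← measure_iUnion (disjoint_disjointed G) hDm]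
    refine (measure_mono (subset_univ _)).trans ?_
    rw [Measure.restrict_apply_univ]
  have hcov := fun k : ℕ => cover hs (P := P ∩ D k)
    (((measure_mono inter_subset_left).trans_lt (lt_top_iff_ne_top.2 hP)).ne)
    (show (0:ℝ) < 1 / 2 / 2 ^ k by positivity)
    (show (0:ℝ) < min (1 / (4 * ((k:ℝ) + 1))) δ from lt_min (by positivity) hδ)
  choose ι hι x r h1 h2 h3 using hcov
  refine ⟨Σ k, ι k, inferInstance, fun i => x i.1 i.2, fun i => r i.1 i.2, fun i => ?_, ?_, ?_⟩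
  · exact ⟨(h1 i.1 i.2).2.1, (h1 i.1 i.2).2.2.trans (min_le_right _ _)⟩
  · intro y hy
    obtain ⟨k, hk⟩ : ∃ k, y ∈ D k := by
      have : y ∈ ⋃ k, D k := by
        rw [hD, iUnion_disjointed]
        exact hPG hy
      simpa using this
    obtain ⟨i, hi⟩ := mem_iUnion.1 (h2 k ⟨hy, hk⟩)
    exact mem_iUnion.2 ⟨⟨k, i⟩, hi⟩
  · have h4 : ∀ (k : ℕ) (i : ι k), ENNReal.ofReal (1 / r k i) * ν (ball (x k i) (2 * r k i)) ≤
        ENNReal.ofReal (κ * 2 ^ (s + 1)) * ENNReal.ofReal (r k i ^ s) := by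
      intro k i
      obtain ⟨h5, h6, h7⟩ := h1 k i
      have h8 : r k i ≤ 1 / (4 * ((k:ℝ) + 1)) := h7.trans (min_le_left _ _)
      have h9 : 2 * r k i < 1 / ((k:ℝ) + 1) := by
        have e : 1 / (4 * ((k:ℝ) + 1)) = (1 / ((k:ℝ) + 1)) / 4 := by
          field_simp
        rw [e] at h8
        have : (0:ℝ) < 1 / ((k:ℝ) + 1) := by positivity
        linarith
      have h10 := hDG k h5.2 (2 * r k i) (by linarith) h9
      refine (mul_le_mul_right h10 _).trans ?_
      rw [← ENNReal.ofReal_mul (by positivity), ← ENNReal.ofReal_mul (by positivity)]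
      apply ENNReal.ofReal_le_ofReal
      rw [Real.mul_rpow (by norm_num) h6.le, Real.rpow_add h6, Real.rpow_one]
      apply le_of_eq
      field_simp
    rw [ENNReal.tsum_sigma (fun k i => ENNReal.ofReal (1 / r k i) * ν (ball (x k i) (2 * r k i)))]
    calc ∑' (k : ℕ) (i : ι k), ENNReal.ofReal (1 / r k i) * ν (ball (x k i) (2 * r k i))
        ≤ ∑' (k : ℕ) (i : ι k), ENNReal.ofReal (κ * 2 ^ (s + 1)) * ENNReal.ofReal (r k i ^ s) :=
          ENNReal.tsum_le_tsum fun k => ENNReal.tsum_le_tsum fun i => h4 k i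
      _ = ENNReal.ofReal (κ * 2 ^ (s + 1)) * ∑' (k : ℕ) (i : ι k), ENNReal.ofReal (r k i ^ s) := by
          simp_rw [ENNReal.tsum_mul_left]
      _ ≤ ENNReal.ofReal (κ * 2 ^ (s + 1)) *
          ∑' k : ℕ, (μH[s] (P ∩ D k) + ENNReal.ofReal (1 / 2 / 2 ^ k)) :=
          mul_le_mul_right (ENNReal.tsum_le_tsum h3) _
      _ ≤ ENNReal.ofReal (κ * 2 ^ (s + 1)) * (μH[s] P + ENNReal.ofReal 1) := by
          apply mul_le_mul_right
          rw [ENNReal.tsum_add]
          exact add_le_add hsumD (geom_ofReal one_pos).le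
      _ = ENNReal.ofReal ε := by
          rw [← ENNReal.ofReal_toReal hP, ← hh, ← ENNReal.ofReal_add hh0 one_pos.le,
            ← ENNReal.ofReal_mul (by positivity)]
          congr 1
          rw [hκ]
          field_simp

end Pool.Agent.TH337.VF
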