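import Pool.Agent.TH337.VF.Baire

/-!
Coverings with an additional bound, for the mixed cut-off argument.
-/

namespace Pool.Agent.TH337.VF

open MeasureTheory Set Filter Topology Metric
open scoped ENNReal RealInnerProductSpace

variable {N : ℕ}

/-- coverings of sets of finite `s`-dimensional measure with vanishing density of order `s + 1`,
with centres in the set and bounded sum of the `s`-th powers of the radii -/
lemma cov_dens {s : ℝ} (hs : 0 ≤ s) {ν : Measure (E N)} {P : Set (E N)}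
    (hP : μH[s] P ≠ ⊤)
    (hd : ∀ z ∈ P, Tendsto (fun r : ℝ => ν (ball z r) / ENNReal.ofReal (r ^ (s + 1)))
      (𝓝[>] 0) (𝓝 0)) {ε δ : ℝ} (hε : 0 < ε) (hδ : 0 < δ) :
    ∃ (ι : Type) (_ : Countable ι) (x : ι → E N) (r : ι → ℝ),
      (∀ i, x i ∈ P ∧ 0 < r i ∧ r i ≤ δ) ∧ P ⊆ ⋃ i, ball (x i) (r i) ∧
      ∑' i, ENNReal.ofReal (1 / r i) * ν (ball (x i) (2 * r i)) ≤ ENNReal.ofReal ε ∧
      ∑' i, ENNReal.ofReal (r i ^ s) ≤ μH[s] P + ENNReal.ofReal 1 := by
  set h := (μH[s] P).toReal with hh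
  have hh0 : 0 ≤ h := ENNReal.toReal_nonneg
  set κ : ℝ := ε / (2 ^ (s + 1) * (h + 1)) with hκ
  have h2s : (0:ℝ) < 2 ^ (s + 1) := Real.rpow_pos_of_pos two_pos _
  have hκ0 : 0 < κ := by positivity
  -- the uniformity sets
  set G : ℕ → Set (E N) := fun k => {z | ∀ r : ℝ, 0 < r → r < 1 / ((k:ℝ) + 1) →
    ν (ball z r) ≤ ENNReal.ofReal (κ * r ^ (s + 1))} with hG
  have hGc : ∀ k, IsClosed (G k) := by
    intro k
    have : G k = ⋂ (r : ℝ) (_ : 0 < r) (_ : r < 1 / ((k:ℝ) + 1)),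
        {z | ν (ball z r) ≤ ENNReal.ofReal (κ * r ^ (s + 1))} := by
      ext z
      simp [hG]
    rw [this]
    exact isClosed_iInter fun r => isClosed_iInter fun _ => isClosed_iInter fun _ =>
      isClosed_ball_le ν r _
  have hPG : P ⊆ ⋃ k, G k := by
    intro z hz
    have h1 := (hd z hz).eventually (gt_mem_nhds (show (0:ℝ≥0∞) < ENNReal.ofReal κ from
      ENNReal.ofReal_pos.2 hκ0))
    obtain ⟨b, hb, hb'⟩ := mem_nhdsGT_iff_exists_Ioo_subset.1 h1
    obtain ⟨k, hk⟩ := exists_nat_one_div_lt (show (0:ℝ) < b from hb)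
    refine mem_iUnion.2 ⟨k, ?_⟩
    intro r hr hrk
    have h2 : ν (ball z r) / ENNReal.ofReal (r ^ (s + 1)) < ENNReal.ofReal κ :=
      hb' ⟨hr, hrk.trans hk⟩
    have h3 : 0 < r ^ (s + 1) := Real.rpow_pos_of_pos hr _
    have h4 := (ENNReal.div_le_iff (ENNReal.ofReal_pos.2 h3).ne' ENNReal.ofReal_ne_top).1 h2.le
    rwa [← ENNReal.ofReal_mul hκ0.le] at h4
  set D : ℕ → Set (E N) := disjointed G with hD
  have hDm : ∀ k, MeasurableSet (D k) := MeasurableSet.disjointed fun k => (hGc k).measurableSet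
  have hDG : ∀ k, D k ⊆ G k := fun k => disjointed_subset G k
  have hsumD : ∑' k, μH[s] (P ∩ D k) ≤ μH[s] P := by
    have h1 : ∀ k, μH[s] (P ∩ D k) = (μH[s].restrict P) (D k) := by
      intro k
      rw [Measure.restrict_apply (hDm k), inter_comm]
    simp only [h1]
    rw [← measure_iUnion (disjoint_disjointed G) hDm]
    refine (measure_mono (subset_univ _)).trans ?_
    rw [Measure.restrict_apply_univ]
  have hcov := fun k : ℕ => cover hs (P := P ∩ D k)
    (((measure_mono inter_subset_left).trans_lt (lt_top_iff_ne_top.2 hP)).ne)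
    (show (0:ℝ) < 1 / 2 / 2 ^ k by positivity)
    (show (0:ℝ) < min (1 / (4 * ((k:ℝ) + 1))) δ from lt_min (by positivity) hδ)
  choose ι hι x r h1 h2 h3 using hcov
  have hsum2 : ∑' (k : ℕ) (i : ι k), ENNReal.ofReal (r k i ^ s) ≤ μH[s] P + ENNReal.ofReal 1 := by
    refine (ENNReal.tsum_le_tsum h3).trans ?_
    rw [ENNReal.tsum_add]
    exact add_le_add hsumD (geom_ofReal one_pos).le
  refine ⟨Σ k, ι k, inferInstance, fun i => x i.1 i.2, fun i => r i.1 i.2, fun i => ?_, ?_, ?_, ?_⟩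
  · exact ⟨(h1 i.1 i.2).1.1, (h1 i.1 i.2).2.1, (h1 i.1 i.2).2.2.trans (min_le_right _ _)⟩
  · intro y hy
    obtain ⟨k, hk⟩ : ∃ k, y ∈ D k := by
      have : y ∈ ⋃ k, D k := by
        rw [hD, iUnion_disjointed]
        exact hPG hy
      simpa using this
    obtain ⟨i, hi⟩ := mem_iUnion.1 (h2 k ⟨hy, hk⟩)
    exact mem_iUnion.2 ⟨⟨k, i⟩, hi⟩
  · have h4 : ∀ (k : ℕ) (i : ι k), ENNReal.ofReal (1 / r k i) * ν (ball (x k i) (2 * r k i)) ≤
        ENNReal.ofReal (κ * 2 ^ (s + 1)) * ENNReal.ofReal (r k i ^ s) := by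
      intro k i
      obtain ⟨h5, h6, h7⟩ := h1 k i
      have h8 : r k i ≤ 1 / (4 * ((k:ℝ) + 1)) := h7.trans (min_le_left _ _)
      have h9 : 2 * r k i < 1 / ((k:ℝ) + 1) := by
        have e : 1 / (4 * ((k:ℝ) + 1)) = (1 / ((k:ℝ) + 1)) / 4 := by
          field_simp
        rw [e] at h8
        have : (0:ℝ) < 1 / ((k:ℝ) + 1) := by positivity
        linarith
      have h10 := hDG k h5.2 (2 * r k i) (by linarith) h9
      refine (mul_le_mul_right h10 _).trans ?_
      rw [← ENNReal.ofReal_mul (by positivity), ← ENNReal.ofReal_mul (by positivity)]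
      apply ENNReal.ofReal_le_ofReal
      rw [Real.mul_rpow (by norm_num) h6.le, Real.rpow_add h6, Real.rpow_one]
      apply le_of_eq
      field_simp
    rw [ENNReal.tsum_sigma (fun k i => ENNReal.ofReal (1 / r k i) * ν (ball (x k i) (2 * r k i)))]
    calc ∑' (k : ℕ) (i : ι k), ENNReal.ofReal (1 / r k i) * ν (ball (x k i) (2 * r k i))
        ≤ ∑' (k : ℕ) (i : ι k), ENNReal.ofReal (κ * 2 ^ (s + 1)) * ENNReal.ofReal (r k i ^ s) :=
          ENNReal.tsum_le_tsum fun k => ENNReal.tsum_le_tsum fun i => h4 k i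
      _ = ENNReal.ofReal (κ * 2 ^ (s + 1)) * ∑' (k : ℕ) (i : ι k), ENNReal.ofReal (r k i ^ s) := by
          simp_rw [ENNReal.tsum_mul_left]
      _ ≤ ENNReal.ofReal (κ * 2 ^ (s + 1)) * (μH[s] P + ENNReal.ofReal 1) :=
          mul_le_mul_right hsum2 _
      _ = ENNReal.ofReal ε := by
          rw [← ENNReal.ofReal_toReal hP, ← hh, ← ENNReal.ofReal_add hh0 one_pos.le,
            ← ENNReal.ofReal_mul (by positivity)]
          congr 1
          rw [hκ]
          field_simp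
  · rw [ENNReal.tsum_sigma (fun k i => ENNReal.ofReal (r k i ^ s))]
    exact hsum2

/-- a set of finite (m-1)-dimensional measure in a compact set is a null set -/
lemma null_of_finite {m : ℕ} (hm : 1 ≤ m) {U : Set (E N)} {μ : Measure (E N)}
    {P : E N → E N →L[ℝ] E N} (hS : Stat m U μ P) (hU : IsOpen U) {K Z : Set (E N)}
    (hK : IsCompact K) (hKU : K ⊆ U) (hZK : Z ⊆ K) (hZ : μH[((m - 1 : ℕ):ℝ)] Z ≠ ⊤) :
    μ Z = 0 := by
  obtain ⟨ρ, C, hρ, hC0, hub⟩ := upper hS hU hK hKU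
  set h := (μH[((m - 1 : ℕ):ℝ)] Z).toReal with hh
  have hh0 : 0 ≤ h := ENNReal.toReal_nonneg
  have key : ∀ δ : ℝ, 0 < δ → δ ≤ ρ → μ Z ≤ ENNReal.ofReal (C * (h + 1) * δ) := by
    intro δ hδ hδρ
    obtain ⟨ι, hι, x, r, h1, h2, h3⟩ := cover (s := ((m - 1 : ℕ):ℝ)) (Nat.cast_nonneg _) (P := Z)
      hZ one_pos hδ
    refine (measure_mono h2).trans ((measure_iUnion_le _).trans ?_)
    calc ∑' i, μ (ball (x i) (r i))
        ≤ ∑' i, ENNReal.ofReal (C * δ) * ENNReal.ofReal (r i ^ ((m - 1 : ℕ):ℝ)) := by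
          apply ENNReal.tsum_le_tsum
          intro i
          obtain ⟨h4, h5, h6⟩ := h1 i
          refine ((hub (x i) (hZK h4)).2 (r i) h5 (h6.trans hδρ)).trans ?_
          rw [← ENNReal.ofReal_mul (by positivity)]
          apply ENNReal.ofReal_le_ofReal
          rw [Real.rpow_natCast]
          have h11 : r i ^ m = r i ^ (m - 1) * r i := by
            rw [← pow_succ, Nat.sub_add_cancel hm]
          rw [h11]
          have h12 : 0 ≤ r i ^ (m - 1) := by positivity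
          have : r i ^ (m - 1) * r i ≤ r i ^ (m - 1) * δ := mul_le_mul_of_nonneg_left h6 h12
          nlinarith
      _ = ENNReal.ofReal (C * δ) * ∑' i, ENNReal.ofReal (r i ^ ((m - 1 : ℕ):ℝ)) :=
          ENNReal.tsum_mul_left
      _ ≤ ENNReal.ofReal (C * δ) * (ENNReal.ofReal h + ENNReal.ofReal 1) := by
          refine mul_le_mul_right ?_ _
          rw [hh, ENNReal.ofReal_toReal hZ]
          exact h3
      _ = ENNReal.ofReal (C * (h + 1) * δ) := by
          rw [← ENNReal.ofReal_add hh0 one_pos.le, ← ENNReal.ofReal_mul (by positivity)]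
          congr 1
          ring
  have h4 : Tendsto (fun δ : ℝ => ENNReal.ofReal (C * (h + 1) * δ)) (𝓝[>] 0)
      (𝓝 (ENNReal.ofReal (C * (h + 1) * 0))) := by
    apply ENNReal.tendsto_ofReal
    apply tendsto_nhdsWithin_of_tendsto_nhds
    have : Continuous fun δ : ℝ => C * (h + 1) * δ := by fun_prop
    exact this.tendsto 0
  rw [mul_zero, ENNReal.ofReal_zero] at h4
  have h5 : μ Z ≤ 0 := by
    apply ge_of_tendsto h4
    filter_upwards [Ioc_mem_nhdsGT hρ] with δ hδ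
    exact key δ hδ.1 hδ.2
  exact le_antisymm h5 zero_le

end Pool.Agent.TH337.VF
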